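import Pool.Agent.OWD.St
import Pool.Agent.MZA.Tup
import Pool.Agent.Helper21.PiTrans

/-!
# OWD: the double sum and the multiple zeta value, and the field of the real algebraic numbers
-/

set_option autoImplicit false

namespace Pool.Agent.OWD

open Pool.Agent.Helper21 (mzv)

/-- pairs of natural numbers and strictly decreasing pairs of positive integers -/
def Br_equiv : ℕ × ℕ ≃ {n : Fin 2 → ℕ // StrictAnti n ∧ ∀ i, 1 ≤ n i} where
  toFun p := ⟨![p.1 + 1 + (p.2 + 1), p.2 + 1], by
    constructor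
    · intro i j hij
      fin_cases i <;> fin_cases j <;> simp at hij ⊢
    · intro i
      fin_cases i <;> simp; omega⟩
  invFun n := (n.1 0 - n.1 1 - 1, n.1 1 - 1)
  left_inv p := by
    rcases p with ⟨p, q⟩
    simp only [Matrix.cons_val_zero, Matrix.cons_val_one, Prod.mk.injEq]
    omega
  right_inv n := by
    rcases n with ⟨n, h1, h2⟩
    have h3 : n 1 < n 0 := h1 (by decide)
    have h4 := h2 1
    apply Subtype.ext
    funext i
    fin_cases i
    · change n 0 - n 1 - 1 + 1 + (n 1 - 1 + 1) = n 0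
      omega
    · change n 1 - 1 + 1 = n 1
      omega

theorem Br_mz (a b : ℕ) : Pool.Agent.MZA.mz [a, b] = dz a b := by
  unfold Pool.Agent.MZA.mz mzv dz
  change (∑' n : {n : Fin 2 → ℕ // StrictAnti n ∧ ∀ i, 1 ≤ n i},
    ∏ i : Fin 2, (1 / (n.1 i : ℝ)) ^ ([a, b].get i)) = _
  rw [← Br_equiv.tsum_eq]
  apply tsum_congr
  rintro ⟨p, q⟩
  rw [Fin.prod_univ_two]
  change (1 / ((p + 1 + (q + 1) : ℕ) : ℝ)) ^ a * (1 / ((q + 1 : ℕ) : ℝ)) ^ b = _
  push_cast
  rw [one_div_pow, one_div_pow, one_div_mul_one_div]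

/-- Lindemann's theorem -/
theorem Br_pi : Transcendental (algebraicClosure ℚ ℝ).toSubfield Real.pi :=
  Pool.Agent.Helper21.transcendental_pi.algebraicClosure

end Pool.Agent.OWD
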