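import Pool.Agent.OWD.St

/-!
# OWD: POS, the double zeta values are positive
-/

set_option autoImplicit false

namespace Pool.Agent.OWD

theorem POS_one {a : ℕ} (ha : 2 ≤ a) : Summable (fun p : ℕ => 1 / ((p : ℝ) + 1) ^ a) := by
  have h : Summable (fun n : ℕ => 1 / (n : ℝ) ^ a) := Real.summable_one_div_nat_pow.2 (by omega)
  have h1 := (summable_nat_add_iff 1).2 h
  refine h1.congr (fun n => ?_)
  push_cast
  rfl

theorem POS_summable {a b : ℕ} (ha : 2 ≤ a) (hb : 2 ≤ b) : Summable (fun p : ℕ × ℕ =>
    1 / ((((p.1 : ℝ) + 1) + ((p.2 : ℝ) + 1)) ^ a * ((p.2 : ℝ) + 1) ^ b)) := by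
  have h := (POS_one ha).mul_of_nonneg (POS_one hb) (fun n => by positivity)
    (fun n => by positivity)
  refine Summable.of_nonneg_of_le (fun p => by positivity) (fun p => ?_) h
  rw [← one_div_mul_one_div]
  apply mul_le_mul_of_nonneg_right _ (by positivity)
  apply one_div_le_one_div_of_le (by positivity)
  apply pow_le_pow_left₀ (by positivity)
  have : (0 : ℝ) ≤ p.2 := Nat.cast_nonneg _
  linarith

theorem POS_dz : St_POS := by
  intro a b ha hb
  unfold dz
  apply (POS_summable ha hb).tsum_pos (fun p => by positivity) (0, 0)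
  positivity

end Pool.Agent.OWD
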