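import Pool.Agent.OWD.LIN
import Pool.Agent.OWD.POS
import Pool.Agent.OWD.Br

/-!
# OWD: assembly, from Euler's formula and the ratio lemma
-/

set_option autoImplicit false

namespace Pool.Agent.OWD

open Finset
open Pool.Agent.MZA (mz Idx)

/-- the double zeta values of weight `n` in the line `K x` -/
def BB (K : Subfield ℝ) (x : ℝ) (n : ℕ) : Set (List ℕ) :=
  {w | w.length = 2 ∧ w ∈ Idx n ∧ ∃ c ∈ K, mz w = c * x}

/-- the odd weights `n ≤ M` with at least `j` such values -/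
def WW (K : Subfield ℝ) (x : ℝ) (j M : ℕ) : Set ℕ :=
  {n | Odd n ∧ 3 ≤ n ∧ n ≤ M ∧ j ≤ (BB K x n).ncard}

theorem ASM_SSfin (K : Subfield ℝ) (x : ℝ) (n : ℕ) : (SS K x n).Finite :=
  (Set.finite_Iic n).subset (fun a ha => by
    have := ha.2.1
    rw [Set.mem_Iic]
    omega)

theorem ASM_BB (K : Subfield ℝ) (x : ℝ) (n : ℕ) : (BB K x n).ncard ≤ (SS K x n).ncard + 1 := by
  classical
  have hsub : BB K x n ⊆ (fun a : ℕ => [a, n - a]) '' (insert (n - 1) (SS K x n)) := by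
    rintro w ⟨hw, ⟨h1, h2, h3⟩, c, hc, h4⟩
    obtain ⟨a, b, rfl⟩ := List.length_eq_two.1 hw
    have ha := h2 a [b] rfl
    have hb := h1 b (by simp)
    have hab : a + b = n := by simpa using h3
    have hba : n - a = b := by omega
    rcases Nat.lt_or_ge 1 b with h | h
    · refine ⟨a, Set.mem_insert_of_mem _ ⟨ha, by omega, c, hc, ?_⟩, ?_⟩
      · rw [← Br_mz, hba]
        exact h4
      · change [a, n - a] = [a, b]
        rw [hba]
    · refine ⟨a, ?_, ?_⟩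
      · have : a = n - 1 := by omega
        rw [this]
        exact Set.mem_insert _ _
      · change [a, n - a] = [a, b]
        rw [hba]
  refine (Set.ncard_le_ncard hsub (((ASM_SSfin K x n).insert _).image _)).trans ?_
  refine (Set.ncard_image_le ((ASM_SSfin K x n).insert _)).trans ?_
  exact Set.ncard_insert_le _ _

theorem ASM (hE : St_EUL) (hC : St_CVX) (K : Subfield ℝ) (hK : Transcendental K Real.pi) (x : ℝ)
    (hx : x ≠ 0) (M : ℕ) : (WW K x 2 M).ncard + (WW K x 4 M).ncard ≤ (M - 1) / 2 := by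
  refine le_trans (Nat.add_le_add ?_ ?_) (LIN hE POS_dz hC K hK x hx M)
  · refine Set.ncard_le_ncard ?_ ((Set.finite_Iic M).subset (fun n hn => hn.2.2.1))
    rintro n ⟨h1, h2, h3, h4⟩
    have := ASM_BB K x n
    exact ⟨h1, h2, h3, by omega⟩
  · refine Set.ncard_le_ncard ?_ ((Set.finite_Iic M).subset (fun n hn => hn.2.2.1))
    rintro n ⟨h1, h2, h3, h4⟩
    have := ASM_BB K x n
    exact ⟨h1, h2, h3, by omega⟩

/-- the number of odd weights -/
theorem ASM_odd (M : ℕ) : {n : ℕ | Odd n ∧ 3 ≤ n ∧ n ≤ M}.ncard = (M - 1) / 2 := by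
  have h : {n : ℕ | Odd n ∧ 3 ≤ n ∧ n ≤ M} =
      (((Finset.range ((M - 1) / 2)).image (fun i => 2 * i + 3) : Finset ℕ) : Set ℕ) := by
    ext n
    rw [Finset.mem_coe, Finset.mem_image]
    constructor
    · rintro ⟨⟨k, hk⟩, h3, hM⟩
      exact ⟨k - 1, Finset.mem_range.2 (by omega), by omega⟩
    · rintro ⟨i, hi, rfl⟩
      rw [Finset.mem_range] at hi
      exact ⟨⟨i + 1, by ring⟩, by omega, by omega⟩
  rw [h, Set.ncard_coe_finset, Finset.card_image_of_injective _ (fun a b h => by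
    have h' : 2 * a + 3 = 2 * b + 3 := h
    omega), Finset.card_range]

/-- the number of double zeta values of weight `n` -/
theorem ASM_total (n : ℕ) : {w : List ℕ | w.length = 2 ∧ w ∈ Idx n}.ncard = n - 2 := by
  have h : {w : List ℕ | w.length = 2 ∧ w ∈ Idx n} =
      (((Finset.range (n - 2)).image (fun i => [i + 2, n - (i + 2)]) : Finset (List ℕ)) :
        Set (List ℕ)) := by
    ext w
    rw [Finset.mem_coe, Finset.mem_image]
    constructor
    · rintro ⟨hw, h1, h2, h3⟩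
      obtain ⟨a, b, rfl⟩ := List.length_eq_two.1 hw
      have ha := h2 a [b] rfl
      have hb := h1 b (by simp)
      have hab : a + b = n := by simpa using h3
      refine ⟨a - 2, Finset.mem_range.2 (by omega), ?_⟩
      have e1 : a - 2 + 2 = a := by omega
      have e2 : n - a = b := by omega
      rw [e1, e2]
    · rintro ⟨i, hi, rfl⟩
      rw [Finset.mem_range] at hi
      refine ⟨rfl, ?_, ?_, ?_⟩
      · intro a ha
        simp only [List.mem_cons, List.not_mem_nil, or_false] at ha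
        omega
      · intro a t ht
        simp only [List.cons.injEq] at ht
        omega
      · simp only [List.sum_cons, List.sum_nil]
        omega
  rw [h, Set.ncard_coe_finset, Finset.card_image_of_injective _ (fun a b h => by
    simp only [List.cons.injEq] at h
    omega), Finset.card_range]

/-- in a line over the real algebraic numbers -/
theorem ASM_alg (x : ℝ) (hx : x ≠ 0) (n : ℕ) :
    {w : List ℕ | w.length = 2 ∧ w ∈ Idx n ∧ IsAlgebraic ℚ (mz w / x)} =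
      BB (algebraicClosure ℚ ℝ).toSubfield x n := by
  ext w
  constructor
  · rintro ⟨h1, h2, h3⟩
    exact ⟨h1, h2, mz w / x, mem_algebraicClosure_iff.2 h3, (div_mul_cancel₀ _ hx).symm⟩
  · rintro ⟨h1, h2, c, hc, h3⟩
    refine ⟨h1, h2, ?_⟩
    rw [h3, mul_div_assoc, div_self hx, mul_one]
    exact mem_algebraicClosure_iff.1 hc

/-- the theorem for the real algebraic numbers -/
theorem ASM_sum (hE : St_EUL) (hC : St_CVX) (x : ℝ) (hx : x ≠ 0) (M : ℕ) :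
    {n : ℕ | Odd n ∧ 3 ≤ n ∧ n ≤ M ∧ 2 ≤
        {w : List ℕ | w.length = 2 ∧ w ∈ Idx n ∧ IsAlgebraic ℚ (mz w / x)}.ncard}.ncard +
      {n : ℕ | Odd n ∧ 3 ≤ n ∧ n ≤ M ∧ 4 ≤
        {w : List ℕ | w.length = 2 ∧ w ∈ Idx n ∧ IsAlgebraic ℚ (mz w / x)}.ncard}.ncard ≤
      (M - 1) / 2 := by
  simp only [ASM_alg x hx]
  exact ASM hE hC _ Br_pi x hx M

/-- at least half of the odd weights -/
theorem ASM_half (hE : St_EUL) (hC : St_CVX) (x : ℝ) (hx : x ≠ 0) (M : ℕ) :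
    (M - 1) / 2 ≤ 2 * {n : ℕ | Odd n ∧ 3 ≤ n ∧ n ≤ M ∧
      {w : List ℕ | w.length = 2 ∧ w ∈ Idx n ∧ IsAlgebraic ℚ (mz w / x)}.ncard ≤ 3}.ncard := by
  have h := ASM_sum hE hC x hx M
  set bad : ℕ → ℕ := fun n =>
    {w : List ℕ | w.length = 2 ∧ w ∈ Idx n ∧ IsAlgebraic ℚ (mz w / x)}.ncard with hbad
  change {n : ℕ | Odd n ∧ 3 ≤ n ∧ n ≤ M ∧ 2 ≤ bad n}.ncard +
    {n : ℕ | Odd n ∧ 3 ≤ n ∧ n ≤ M ∧ 4 ≤ bad n}.ncard ≤ (M - 1) / 2 at h
  change (M - 1) / 2 ≤ 2 * {n : ℕ | Odd n ∧ 3 ≤ n ∧ n ≤ M ∧ bad n ≤ 3}.ncard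
  have hf : ∀ P : ℕ → Prop, {n : ℕ | Odd n ∧ 3 ≤ n ∧ n ≤ M ∧ P n}.Finite := fun P =>
    (Set.finite_Iic M).subset (fun n hn => hn.2.2.1)
  have h1 : {n : ℕ | Odd n ∧ 3 ≤ n ∧ n ≤ M ∧ 4 ≤ bad n}.ncard ≤
      {n : ℕ | Odd n ∧ 3 ≤ n ∧ n ≤ M ∧ 2 ≤ bad n}.ncard := by
    apply Set.ncard_le_ncard _ (hf _)
    rintro n ⟨a, b, c, d⟩
    exact ⟨a, b, c, by omega⟩
  have h2 : {n : ℕ | Odd n ∧ 3 ≤ n ∧ n ≤ M}.ncard ≤
      {n : ℕ | Odd n ∧ 3 ≤ n ∧ n ≤ M ∧ 4 ≤ bad n}.ncard +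
        {n : ℕ | Odd n ∧ 3 ≤ n ∧ n ≤ M ∧ bad n ≤ 3}.ncard := by
    refine le_trans (Set.ncard_le_ncard ?_ ((hf _).union (hf _))) (Set.ncard_union_le _ _)
    rintro n ⟨a, b, c⟩
    rcases Nat.lt_or_ge 3 (bad n) with h5 | h5
    · exact Or.inl ⟨a, b, c, h5⟩
    · exact Or.inr ⟨a, b, c, h5⟩
  rw [ASM_odd] at h2
  omega

end Pool.Agent.OWD
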