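import Pool.Agent.OWD.LINC
import Pool.Agent.OWD.ASM

/-!
# OWD: assembly, `b = 1` included
-/

set_option autoImplicit false

namespace Pool.Agent.OWD

open Finset
open Pool.Agent.MZA (mz Idx)

theorem ASMC_fin (K : Subfield ℝ) (x : ℝ) (n : ℕ) : (SC K x n).Finite :=
  (Set.finite_Iic n).subset (fun a ha => by
    have := ha.2.1
    rw [Set.mem_Iic]
    omega)

theorem ASMC_BB (K : Subfield ℝ) (x : ℝ) (n : ℕ) : (BB K x n).ncard ≤ (SC K x n).ncard := by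
  classical
  have hsub : BB K x n ⊆ (fun a : ℕ => [a, n - a]) '' (SC K x n) := by
    rintro w ⟨hw, ⟨h1, h2, h3⟩, c, hc, h4⟩
    obtain ⟨a, b, rfl⟩ := List.length_eq_two.1 hw
    have ha := h2 a [b] rfl
    have hb := h1 b (by simp)
    have hab : a + b = n := by simpa using h3
    have hba : n - a = b := by omega
    refine ⟨a, ⟨ha, by omega, c, hc, ?_⟩, ?_⟩
    · rw [← Br_mz, hba]
      exact h4
    · change [a, n - a] = [a, b]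
      rw [hba]
  refine (Set.ncard_le_ncard hsub ((ASMC_fin K x n).image _)).trans ?_
  exact Set.ncard_image_le (ASMC_fin K x n)

/-- the odd weights `n ≤ M` with at least `3` double zeta values in one line -/
def WD (K : Subfield ℝ) (M : ℕ) : Set ℕ :=
  {n | Odd n ∧ 3 ≤ n ∧ n ≤ M ∧ ∃ y : ℝ, 3 ≤ (BB K y n).ncard}

theorem ASMC_BBfin (K : Subfield ℝ) (x : ℝ) (n : ℕ) : (BB K x n).Finite := by
  classical
  refine ((Set.finite_Iic n).image (fun a : ℕ => [a, n - a])).subset ?_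
  rintro w ⟨hw, ⟨h1, h2, h3⟩, -⟩
  obtain ⟨a, b, rfl⟩ := List.length_eq_two.1 hw
  have hab : a + b = n := by simpa using h3
  have hba : n - a = b := by omega
  refine ⟨a, by rw [Set.mem_Iic]; omega, ?_⟩
  change [a, n - a] = [a, b]
  rw [hba]

theorem ASMC (h21 : dz 2 1 = zt 3) (hC : St_CVX1) (K : Subfield ℝ) (hK : Transcendental K Real.pi) (x : ℝ)
    (hx : x ≠ 0) (M : ℕ) : (WW K x 1 M).ncard + (WD K M).ncard ≤ (M - 1) / 2 := by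
  refine le_trans (Nat.add_le_add ?_ ?_) (LINC h21 hC K hK x hx M)
  · refine Set.ncard_le_ncard ?_ ((Set.finite_Iic M).subset (fun n hn => hn.2.2.1))
    rintro n ⟨h1, h2, h3, h4⟩
    have := ASMC_BB K x n
    exact ⟨h1, h2, h3, by omega⟩
  · refine Set.ncard_le_ncard ?_ ((Set.finite_Iic M).subset (fun n hn => hn.2.2.1))
    rintro n ⟨h1, h2, h3, y, h4⟩
    have := ASMC_BB K y n
    exact ⟨h1, h2, h3, y, by omega⟩

theorem ASMC_ex (h21 : dz 2 1 = zt 3) (hC : St_CVX1) (K : Subfield ℝ)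
    (hK : Transcendental K Real.pi) (x : ℝ) (hx : x ≠ 0) (M : ℕ) :
    {n : ℕ | Odd n ∧ 3 ≤ n ∧ n ≤ M ∧
        ∃ w : List ℕ, w.length = 2 ∧ w ∈ Idx n ∧ ∃ c ∈ K, mz w = c * x}.ncard +
      {n : ℕ | Odd n ∧ 3 ≤ n ∧ n ≤ M ∧
        ∃ y : ℝ, 3 ≤ {w : List ℕ | w.length = 2 ∧ w ∈ Idx n ∧ ∃ c ∈ K, mz w = c * y}.ncard}.ncard ≤
      (M - 1) / 2 := by
  refine le_trans (Nat.add_le_add_right (Set.ncard_le_ncard ?_ ?_) _) (ASMC h21 hC K hK x hx M)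
  · rintro n ⟨h1, h2, h3, w, h4⟩
    refine ⟨h1, h2, h3, ?_⟩
    have h5 : (BB K x n).Nonempty := ⟨w, h4⟩
    exact (Set.ncard_pos (ASMC_BBfin K x n)).2 h5
  · exact (Set.finite_Iic M).subset (fun n hn => hn.2.2.1)

/-- the theorem for the real algebraic numbers -/
theorem ASMC_sum (h21 : dz 2 1 = zt 3) (hC : St_CVX1) (x : ℝ) (hx : x ≠ 0) (M : ℕ) :
    {n : ℕ | Odd n ∧ 3 ≤ n ∧ n ≤ M ∧ 1 ≤
        {w : List ℕ | w.length = 2 ∧ w ∈ Idx n ∧ IsAlgebraic ℚ (mz w / x)}.ncard}.ncard +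
      {n : ℕ | Odd n ∧ 3 ≤ n ∧ n ≤ M ∧ 3 ≤
        {w : List ℕ | w.length = 2 ∧ w ∈ Idx n ∧ IsAlgebraic ℚ (mz w / x)}.ncard}.ncard ≤
      (M - 1) / 2 := by
  simp only [ASM_alg x hx]
  refine le_trans (Nat.add_le_add_left (Set.ncard_le_ncard ?_ ?_) _)
    (ASMC h21 hC _ Br_pi x hx M)
  · rintro n ⟨h1, h2, h3, h4⟩
    exact ⟨h1, h2, h3, x, h4⟩
  · exact (Set.finite_Iic M).subset (fun n hn => hn.2.2.1)

/-- at least half of the odd weights -/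
theorem ASMC_half (h21 : dz 2 1 = zt 3) (hC : St_CVX1) (x : ℝ) (hx : x ≠ 0) (M : ℕ) :
    (M - 1) / 2 ≤ 2 * {n : ℕ | Odd n ∧ 3 ≤ n ∧ n ≤ M ∧
      {w : List ℕ | w.length = 2 ∧ w ∈ Idx n ∧ IsAlgebraic ℚ (mz w / x)}.ncard ≤ 2}.ncard := by
  have h := ASMC_sum h21 hC x hx M
  set bad : ℕ → ℕ := fun n =>
    {w : List ℕ | w.length = 2 ∧ w ∈ Idx n ∧ IsAlgebraic ℚ (mz w / x)}.ncard with hbad
  change {n : ℕ | Odd n ∧ 3 ≤ n ∧ n ≤ M ∧ 1 ≤ bad n}.ncard +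
    {n : ℕ | Odd n ∧ 3 ≤ n ∧ n ≤ M ∧ 3 ≤ bad n}.ncard ≤ (M - 1) / 2 at h
  change (M - 1) / 2 ≤ 2 * {n : ℕ | Odd n ∧ 3 ≤ n ∧ n ≤ M ∧ bad n ≤ 2}.ncard
  have hf : ∀ P : ℕ → Prop, {n : ℕ | Odd n ∧ 3 ≤ n ∧ n ≤ M ∧ P n}.Finite := fun P =>
    (Set.finite_Iic M).subset (fun n hn => hn.2.2.1)
  have h1 : {n : ℕ | Odd n ∧ 3 ≤ n ∧ n ≤ M ∧ 3 ≤ bad n}.ncard ≤
      {n : ℕ | Odd n ∧ 3 ≤ n ∧ n ≤ M ∧ 1 ≤ bad n}.ncard := by
    apply Set.ncard_le_ncard _ (hf _)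
    rintro n ⟨a, b, c, d⟩
    exact ⟨a, b, c, by omega⟩
  have h2 : {n : ℕ | Odd n ∧ 3 ≤ n ∧ n ≤ M}.ncard ≤
      {n : ℕ | Odd n ∧ 3 ≤ n ∧ n ≤ M ∧ 3 ≤ bad n}.ncard +
        {n : ℕ | Odd n ∧ 3 ≤ n ∧ n ≤ M ∧ bad n ≤ 2}.ncard := by
    refine le_trans (Set.ncard_le_ncard ?_ ((hf _).union (hf _))) (Set.ncard_union_le _ _)
    rintro n ⟨a, b, c⟩
    rcases Nat.lt_or_ge 2 (bad n) with h5 | h5
    · exact Or.inl ⟨a, b, c, h5⟩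
    · exact Or.inr ⟨a, b, c, h5⟩
  rw [ASM_odd] at h2
  omega

end Pool.Agent.OWD
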