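import Mathlib

/-! Statement file of the project OWD (double zeta values of odd weight), MP_2000e9_nt. -/

set_option autoImplicit false

namespace Pool.Agent.OWD

/-- `ζ(i)`, for `i ≥ 2` -/
noncomputable def zt (i : ℕ) : ℝ := ∑' p : ℕ, 1 / ((p : ℝ) + 1) ^ i

/-- `ζ(a, b)`, the sum of `k ^ (-a) l ^ (-b)` over `k > l ≥ 1` (`k = p + 1 + l`, `l = q + 1`), for `a ≥ 2`, `b ≥ 1` -/
noncomputable def dz (a b : ℕ) : ℝ :=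
  ∑' p : ℕ × ℕ, 1 / ((((p.1 : ℝ) + 1) + ((p.2 : ℝ) + 1)) ^ a * ((p.2 : ℝ) + 1) ^ b)

/-- EUL (helper69).  Euler's formula. -/
def St_EUL : Prop := ∀ a b : ℕ, 2 ≤ a → 2 ≤ b → Odd (a + b) → ∃ q : ℕ → ℚ,
  2 * dz a b = -(1 + (-1) ^ b * ((a + b).choose a : ℝ)) * zt (a + b) +
    ∑ j ∈ Finset.Icc 1 ((a + b - 3) / 2), (q j : ℝ) * Real.pi ^ (2 * j) * zt (a + b - 2 * j)

/-- POS (helper69). -/
def St_POS : Prop := ∀ a b : ℕ, 2 ≤ a → 2 ≤ b → 0 < dz a b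

/-- CVX (helper66).  The ratio of the coefficient of `ζ(n)` and `ζ(a, n - a)` takes no value three times. -/
def St_CVX : Prop := ∀ n : ℕ, Odd n → ∀ t : ℝ, ∀ a₁ a₂ a₃ : ℕ, 2 ≤ a₁ → a₁ < a₂ → a₂ < a₃ → a₃ + 2 ≤ n →
  1 + (-1) ^ (n - a₁) * (n.choose a₁ : ℝ) = t * dz a₁ (n - a₁) →
  1 + (-1) ^ (n - a₂) * (n.choose a₂ : ℝ) = t * dz a₂ (n - a₂) →
  1 + (-1) ^ (n - a₃) * (n.choose a₃ : ℝ) = t * dz a₃ (n - a₃) → False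

/-- the `a` with `ζ(a, n - a)`, `a, n - a ≥ 2`, in the line `K x` -/
def SS (K : Subfield ℝ) (x : ℝ) (n : ℕ) : Set ℕ :=
  {a | 2 ≤ a ∧ a + 2 ≤ n ∧ ∃ c ∈ K, dz a (n - a) = c * x}

/-- the odd weights `n ≤ M` with at least `j` such values -/
def TT (K : Subfield ℝ) (x : ℝ) (j M : ℕ) : Set ℕ :=
  {n | Odd n ∧ 3 ≤ n ∧ n ≤ M ∧ j ≤ (SS K x n).ncard}

/-- LIN.  The theorem from EUL, POS, CVX. -/
def St_LIN : Prop := St_EUL → St_POS → St_CVX → ∀ K : Subfield ℝ, Transcendental K Real.pi → ∀ x : ℝ, x ≠ 0 →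
  ∀ M : ℕ, (TT K x 1 M).ncard + (TT K x 3 M).ncard ≤ (M - 1) / 2

end Pool.Agent.OWD
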