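import Pool.Agent.OWD.St

/-! OWD: the forms with `b = 1` included. -/

set_option autoImplicit false

namespace Pool.Agent.OWD

/-- CVX1 (helper66).  The ratio of the coefficient of `ζ(n)` and `ζ(a, n - a)` takes no value three times,
`b = n - a = 1` included. -/
def St_CVX1 : Prop := ∀ n : ℕ, Odd n → 5 ≤ n → ∀ t : ℝ, ∀ a₁ a₂ a₃ : ℕ, 2 ≤ a₁ → a₁ < a₂ → a₂ < a₃ →
  a₃ + 1 ≤ n →
  1 + (-1) ^ (n - a₁) * (n.choose a₁ : ℝ) = t * dz a₁ (n - a₁) →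
  1 + (-1) ^ (n - a₂) * (n.choose a₂ : ℝ) = t * dz a₂ (n - a₂) →
  1 + (-1) ^ (n - a₃) * (n.choose a₃ : ℝ) = t * dz a₃ (n - a₃) → False

/-- EUL1.  Euler's formula, `b = 1` included. -/
def St_EUL1 : Prop := ∀ a b : ℕ, 2 ≤ a → 1 ≤ b → Odd (a + b) → 5 ≤ a + b → ∃ q : ℕ → ℚ,
  2 * dz a b = -(1 + (-1) ^ b * ((a + b).choose a : ℝ)) * zt (a + b) +
    ∑ j ∈ Finset.Icc 1 ((a + b - 3) / 2), (q j : ℝ) * Real.pi ^ (2 * j) * zt (a + b - 2 * j)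

end Pool.Agent.OWD
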