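import Mathlib
import Pool.Agent.OWD.St
import Pool.Agent.OWD.St1

set_option autoImplicit false

/-!
# OWD CVX: the ratio of the coefficient of `ζ(n)` in Euler's formula and the double zeta value

`(1 + (-1)^b C(n, a)) / ζ(a, b)`, `a + b = n` odd, takes no value three times.
-/

namespace Pool.Agent.OWD

namespace CVXAux

open Finset

/-- a strictly log-concave sequence takes no value three times -/
theorem no_three (f : ℕ → ℝ) (K : ℕ) (hpos : ∀ i ≤ K, 0 < f i)
    (hc : ∀ i, i + 2 ≤ K → f i * f (i + 2) < f (i + 1) ^ 2)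
    (i j k : ℕ) (hij : i < j) (hjk : j < k) (hk : k ≤ K) (h1 : f i = f j) (h2 : f j = f k) :
    False := by
  -- the ratios decrease
  have hr : ∀ t d, t + d + 1 + 1 ≤ K → f (t + d + 1 + 1) * f t < f (t + d + 1) * f (t + 1) := by
    intro t d
    induction d with
    | zero =>
      intro hK
      have h3 := hc t hK
      have e : t + 0 + 1 = t + 1 := by ring
      rw [e]
      have e2 : t + 2 = t + 1 + 1 := by ring
      rw [e2] at h3
      linarith [h3]
    | succ d ih =>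
      intro hK
      have h3 := ih (by omega)
      have e1 : t + (d + 1) + 1 = t + d + 1 + 1 := by ring
      rw [e1]
      have h4 := hc (t + d + 1) (by omega)
      have p1 := hpos (t + d + 1) (by omega)
      have p2 := hpos (t + d + 1 + 1) (by omega)
      have p3 := hpos t (by omega)
      have p4 := hpos (t + 1) (by omega)
      have p5 := hpos (t + d + 1 + 1 + 1) (by omega)
      have e2 : t + d + 1 + 2 = t + d + 1 + 1 + 1 := by ring
      rw [e2] at h4
      by_contra hcon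
      have hcon' := not_lt.1 hcon
      have h5 : f (t + d + 1) * (f (t + d + 1 + 1) * f (t + 1)) ≤
          f (t + d + 1) * (f (t + d + 1 + 1 + 1) * f t) :=
        mul_le_mul_of_nonneg_left hcon' p1.le
      have h6 : f (t + d + 1) * f (t + d + 1 + 1 + 1) * f t < f (t + d + 1 + 1) ^ 2 * f t :=
        mul_lt_mul_of_pos_right h4 p3
      have h7 : f (t + d + 1 + 1) * (f (t + d + 1 + 1) * f t) <
          f (t + d + 1 + 1) * (f (t + d + 1) * f (t + 1)) := mul_lt_mul_of_pos_left h3 p2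
      linarith
  -- a descent between `i` and `j`
  obtain ⟨t, ht1, ht2, ht3⟩ : ∃ t, i ≤ t ∧ t < j ∧ f (t + 1) ≤ f t := by
    by_contra hcon
    push Not at hcon
    have h3 : ∀ d, i + d ≤ j → 0 < d → f i < f (i + d) := by
      intro d
      induction d with
      | zero => intro _ h; omega
      | succ d ih =>
        intro hd _
        rcases Nat.eq_zero_or_pos d with h0 | h0
        · subst h0
          exact hcon i le_rfl (by omega)
        · exact (ih (by omega) h0).trans (hcon (i + d) (by omega) (by omega))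
    have h4 := h3 (j - i) (by omega) (by omega)
    rw [show i + (j - i) = j by omega] at h4
    linarith
  have hd : ∀ s, j ≤ s → s + 1 ≤ K → f (s + 1) < f s := by
    intro s hs hK
    have h3 := hr t (s - t - 1) (by omega)
    rw [show t + (s - t - 1) + 1 = s by omega] at h3
    have p3 := hpos t (by omega)
    have p4 := hpos s (by omega)
    have h4 : f s * f (t + 1) ≤ f s * f t := mul_le_mul_of_nonneg_left ht3 p4.le
    have h5 : f (s + 1) * f t < f s * f t := lt_of_lt_of_le h3 h4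
    exact lt_of_mul_lt_mul_right h5 p3.le
  have h3 : ∀ d, j + d ≤ k → 0 < d → f (j + d) < f j := by
    intro d
    induction d with
    | zero => intro _ h; omega
    | succ d ih =>
      intro hd2 _
      rcases Nat.eq_zero_or_pos d with h0 | h0
      · subst h0
        exact hd j le_rfl (by omega)
      · exact (hd (j + d) (by omega) (by omega)).trans (ih (by omega) h0)
  have h4 := h3 (k - j) (by omega) (by omega)
  rw [show j + (k - j) = k by omega] at h4
  linarith

/-- the terms of the double series -/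
noncomputable def tm (a b : ℕ) (p : ℕ × ℕ) : ℝ :=
  1 / ((((p.1 : ℝ) + 1) + ((p.2 : ℝ) + 1)) ^ a * ((p.2 : ℝ) + 1) ^ b)

theorem tm_pos (a b : ℕ) (p : ℕ × ℕ) : 0 < tm a b p := by
  unfold tm
  positivity

theorem tm_summable1 (a b : ℕ) (ha : 2 ≤ a) (hb : 1 ≤ b) (hab : 4 ≤ a + b) : Summable (tm a b) := by
  have h1 : Summable fun n : ℕ => 1 / ((n : ℝ) + 1) ^ 2 := by
    have h := (summable_nat_add_iff 1).2 (Real.summable_one_div_nat_pow.2 (by norm_num : 1 < 2))
    refine h.congr fun n => ?_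
    push_cast
    rfl
  have h2 : Summable fun p : ℕ × ℕ => (1 / ((p.1 : ℝ) + 1) ^ 2) * (1 / ((p.2 : ℝ) + 1) ^ 2) :=
    h1.mul_of_nonneg h1 (fun n => by positivity) (fun n => by positivity)
  refine Summable.of_nonneg_of_le (fun p => (tm_pos a b p).le) (fun p => ?_) h2
  unfold tm
  rw [one_div_mul_one_div]
  have hx : (1 : ℝ) ≤ (p.1 : ℝ) + 1 := by
    have := Nat.cast_nonneg (α := ℝ) p.1
    linarith
  have hy : (1 : ℝ) ≤ (p.2 : ℝ) + 1 := by
    have := Nat.cast_nonneg (α := ℝ) p.2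
    linarith
  apply one_div_le_one_div_of_le (by positivity)
  rcases Nat.lt_or_ge 1 b with hb2 | hb2
  · have h3 : ((p.1 : ℝ) + 1) ^ 2 ≤ (((p.1 : ℝ) + 1) + ((p.2 : ℝ) + 1)) ^ a :=
      (pow_le_pow_left₀ (by linarith) (by linarith) 2).trans
        (pow_le_pow_right₀ (by linarith) ha)
    have h4 : ((p.2 : ℝ) + 1) ^ 2 ≤ ((p.2 : ℝ) + 1) ^ b := pow_le_pow_right₀ hy hb2
    exact mul_le_mul h3 h4 (by positivity) (by positivity)
  · have hb1 : b = 1 := by omega
    subst hb1
    have h3 : ((p.1 : ℝ) + 1) ^ 2 * ((p.2 : ℝ) + 1) ≤ (((p.1 : ℝ) + 1) + ((p.2 : ℝ) + 1)) ^ a := by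
      calc ((p.1 : ℝ) + 1) ^ 2 * ((p.2 : ℝ) + 1)
          ≤ (((p.1 : ℝ) + 1) + ((p.2 : ℝ) + 1)) ^ 2 * (((p.1 : ℝ) + 1) + ((p.2 : ℝ) + 1)) :=
            mul_le_mul (pow_le_pow_left₀ (by linarith) (by linarith) 2) (by linarith)
              (by linarith) (by positivity)
        _ = (((p.1 : ℝ) + 1) + ((p.2 : ℝ) + 1)) ^ 3 := by ring
        _ ≤ (((p.1 : ℝ) + 1) + ((p.2 : ℝ) + 1)) ^ a :=
            pow_le_pow_right₀ (by linarith) (by omega)
    calc ((p.1 : ℝ) + 1) ^ 2 * ((p.2 : ℝ) + 1) ^ 2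
        = ((p.1 : ℝ) + 1) ^ 2 * ((p.2 : ℝ) + 1) * ((p.2 : ℝ) + 1) ^ 1 := by ring
      _ ≤ (((p.1 : ℝ) + 1) + ((p.2 : ℝ) + 1)) ^ a * ((p.2 : ℝ) + 1) ^ 1 :=
          mul_le_mul_of_nonneg_right h3 (by positivity)

theorem tm_summable (a b : ℕ) (ha : 2 ≤ a) (hb : 2 ≤ b) : Summable (tm a b) :=
  tm_summable1 a b ha (by omega) (by omega)

theorem dz_eq (a b : ℕ) : dz a b = ∑' p, tm a b p := rfl

theorem dz_pos1 (a b : ℕ) (ha : 2 ≤ a) (hb : 1 ≤ b) (hab : 4 ≤ a + b) : 0 < dz a b := by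
  rw [dz_eq]
  exact (tm_summable1 a b ha hb hab).tsum_pos (fun p => (tm_pos a b p).le) (0, 0)
    (tm_pos a b (0, 0))

theorem dz_pos (a b : ℕ) (ha : 2 ≤ a) (hb : 2 ≤ b) : 0 < dz a b :=
  dz_pos1 a b ha (by omega) (by omega)

/-- log-convexity of the double zeta values in steps of two -/
theorem dz_cvx (s t : ℕ) (hs : 2 ≤ s) (ht : 1 ≤ t) :
    dz (s + 2) (t + 2) ^ 2 ≤ dz s (t + 4) * dz (s + 4) t := by
  have s1 := tm_summable s (t + 4) hs (by omega)
  have s2 := tm_summable1 (s + 4) t (by omega) ht (by omega)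
  have p1 := dz_pos s (t + 4) hs (by omega)
  have p2 := dz_pos1 (s + 4) t (by omega) ht (by omega)
  have h1 : dz (s + 2) (t + 2) ≤ Real.sqrt (dz s (t + 4) * dz (s + 4) t) := by
    rw [dz_eq (s + 2) (t + 2)]
    apply (tm_summable (s + 2) (t + 2) (by omega) (by omega)).tsum_le_of_sum_le
    intro F
    apply Real.le_sqrt_of_sq_le
    have h2 : (∑ p ∈ F, tm (s + 2) (t + 2) p) ^ 2 ≤ (∑ p ∈ F, tm s (t + 4) p) *
        ∑ p ∈ F, tm (s + 4) t p := by
      apply Finset.sum_sq_le_sum_mul_sum_of_sq_le_mul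
      · intro p _
        exact (tm_pos _ _ p).le
      · intro p _
        exact (tm_pos _ _ p).le
      · intro p _
        apply le_of_eq
        unfold tm
        rw [div_pow, div_mul_div_comm]
        congr 1
        · ring
        · ring
    have h3 : (∑ p ∈ F, tm s (t + 4) p) ≤ dz s (t + 4) :=
      s1.sum_le_tsum F (fun p _ => (tm_pos _ _ p).le)
    have h4 : (∑ p ∈ F, tm (s + 4) t p) ≤ dz (s + 4) t :=
      s2.sum_le_tsum F (fun p _ => (tm_pos _ _ p).le)
    exact h2.trans (mul_le_mul h3 h4 (Finset.sum_nonneg fun p _ => (tm_pos _ _ p).le) p1.le)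
  have p3 := dz_pos (s + 2) (t + 2) (by omega) (by omega)
  calc dz (s + 2) (t + 2) ^ 2 ≤ Real.sqrt (dz s (t + 4) * dz (s + 4) t) ^ 2 :=
        pow_le_pow_left₀ p3.le h1 2
    _ = dz s (t + 4) * dz (s + 4) t := Real.sq_sqrt (mul_pos p1 p2).le

/-- a lower bound for the middle binomial coefficient -/
theorem ch_ge (s t : ℕ) (hs : 1 ≤ s) (ht : 2 ≤ t) :
    (s + 3) * (s + 4) + 2 ≤ (s + t + 4).choose (s + 2) := by
  have h1 : (s + 6).choose (s + 2) ≤ (s + t + 4).choose (s + 2) :=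
    Nat.choose_le_choose _ (by omega)
  have h2 : (s + 6).choose (s + 2) = (s + 6).choose 4 := by
    rw [show s + 2 = s + 6 - 4 by omega]
    exact Nat.choose_symm (by omega)
  have h3 : (s + 6).choose 4 * 24 = (s + 6) * (s + 5) * (s + 4) * (s + 3) := by
    have h := Nat.descFactorial_eq_factorial_mul_choose (s + 6) 4
    have e : (s + 6).descFactorial 4 = (s + 6) * (s + 5) * (s + 4) * (s + 3) := by
      simp only [Nat.descFactorial_succ, Nat.descFactorial_zero]
      rw [show s + 6 - 0 = s + 6 by omega, show s + 6 - 1 = s + 5 by omega,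
        show s + 6 - 2 = s + 4 by omega, show s + 6 - 3 = s + 3 by omega]
      ring
    rw [e] at h
    have e2 : Nat.factorial 4 = 24 := by decide
    rw [e2] at h
    linarith
  have h4 : 42 ≤ (s + 6) * (s + 5) := Nat.mul_le_mul (show 7 ≤ s + 6 by omega) (show 6 ≤ s + 5 by omega)
  have h5 : 20 ≤ (s + 4) * (s + 3) := Nat.mul_le_mul (show 5 ≤ s + 4 by omega) (show 4 ≤ s + 3 by omega)
  have h6 : 42 * ((s + 4) * (s + 3)) ≤ (s + 6) * (s + 5) * ((s + 4) * (s + 3)) :=
    Nat.mul_le_mul_right _ h4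
  have h7 : (s + 6).choose 4 * 24 = (s + 6) * (s + 5) * ((s + 4) * (s + 3)) := by
    rw [h3]
    ring
  have h8 : (s + 3) * (s + 4) = (s + 4) * (s + 3) := Nat.mul_comm _ _
  rw [h2] at h1
  omega

theorem ch_ge' (s t : ℕ) (hs : 2 ≤ s) (ht : 1 ≤ t) :
    (s + 3) * (s + 4) + 2 ≤ (s + t + 4).choose (s + 2) := by
  have h1 : (s + 5).choose (s + 2) ≤ (s + t + 4).choose (s + 2) :=
    Nat.choose_le_choose _ (by omega)
  have h2 : (s + 5).choose (s + 2) = (s + 5).choose 3 := by
    rw [show s + 2 = s + 5 - 3 by omega]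
    exact Nat.choose_symm (by omega)
  have h3 : (s + 5).choose 3 * 6 = (s + 5) * (s + 4) * (s + 3) := by
    have h := Nat.descFactorial_eq_factorial_mul_choose (s + 5) 3
    have e : (s + 5).descFactorial 3 = (s + 5) * (s + 4) * (s + 3) := by
      simp only [Nat.descFactorial_succ, Nat.descFactorial_zero]
      rw [show s + 5 - 0 = s + 5 by omega, show s + 5 - 1 = s + 4 by omega,
        show s + 5 - 2 = s + 3 by omega]
      ring
    rw [e] at h
    have e2 : Nat.factorial 3 = 6 := by decide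
    rw [e2] at h
    linarith
  have h5 : 30 ≤ (s + 4) * (s + 3) := Nat.mul_le_mul (show 6 ≤ s + 4 by omega) (show 5 ≤ s + 3 by omega)
  have h6 : 7 * ((s + 4) * (s + 3)) ≤ (s + 5) * ((s + 4) * (s + 3)) :=
    Nat.mul_le_mul_right _ (by omega)
  have h7 : (s + 5).choose 3 * 6 = (s + 5) * ((s + 4) * (s + 3)) := by
    rw [h3]
    ring
  have h8 : (s + 3) * (s + 4) = (s + 4) * (s + 3) := Nat.mul_comm _ _
  rw [h2] at h1
  omega

/-- strict log-concavity of the binomial coefficients, shifted by one -/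
theorem ch_cc (s t : ℕ) (hs : 2 ≤ s) (ht : 1 ≤ t) (e : ℝ) (he : e = 1 ∨ e = -1) :
    (((s + t + 4).choose s : ℝ) + e) * (((s + t + 4).choose (s + 4) : ℝ) + e) <
      (((s + t + 4).choose (s + 2) : ℝ) + e) ^ 2 := by
  set p : ℝ := ((s + t + 4).choose s : ℝ) with hp
  set q : ℝ := ((s + t + 4).choose (s + 2) : ℝ) with hq
  set r : ℝ := ((s + t + 4).choose (s + 4) : ℝ) with hr
  have r1 : q * ((s + 1) * (s + 2)) = p * ((t + 4) * (t + 3)) := by
    have h1 := Nat.choose_succ_right_eq (s + t + 4) s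
    have h2 := Nat.choose_succ_right_eq (s + t + 4) (s + 1)
    rw [show s + t + 4 - s = t + 4 by omega] at h1
    rw [show s + t + 4 - (s + 1) = t + 3 by omega, show s + 1 + 1 = s + 2 by omega] at h2
    have h1' : ((s + t + 4).choose (s + 1) : ℝ) * (s + 1) = p * (t + 4) := by
      rw [hp]
      exact_mod_cast h1
    have h2' : q * (s + 2) = ((s + t + 4).choose (s + 1) : ℝ) * (t + 3) := by
      rw [hq]
      exact_mod_cast h2
    linear_combination ((s : ℝ) + 1) * h2' + ((t : ℝ) + 3) * h1'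
  have r2 : r * ((s + 3) * (s + 4)) = q * ((t + 2) * (t + 1)) := by
    have h1 := Nat.choose_succ_right_eq (s + t + 4) (s + 2)
    have h2 := Nat.choose_succ_right_eq (s + t + 4) (s + 3)
    rw [show s + t + 4 - (s + 2) = t + 2 by omega, show s + 2 + 1 = s + 3 by omega] at h1
    rw [show s + t + 4 - (s + 3) = t + 1 by omega, show s + 3 + 1 = s + 4 by omega] at h2
    have h1' : ((s + t + 4).choose (s + 3) : ℝ) * (s + 3) = q * (t + 2) := by
      rw [hq]
      exact_mod_cast h1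
    have h2' : r * (s + 4) = ((s + t + 4).choose (s + 3) : ℝ) * (t + 1) := by
      rw [hr]
      exact_mod_cast h2
    linear_combination ((s : ℝ) + 3) * h2' + ((t : ℝ) + 1) * h1'
  have g1 : ((s : ℝ) + 3) * (s + 4) + 2 ≤ q := by
    rw [hq]
    exact_mod_cast ch_ge' s t hs ht
  have g2 : ((t : ℝ) + 3) * (t + 4) + 2 ≤ q := by
    have h := ch_ge t s ht hs
    have e2 : (t + s + 4).choose (t + 2) = (s + t + 4).choose (s + 2) := by
      rw [show t + s + 4 = s + t + 4 by omega, show t + 2 = s + t + 4 - (s + 2) by omega]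
      exact Nat.choose_symm (by omega)
    rw [e2] at h
    rw [hq]
    exact_mod_cast h
  have hs' : (2 : ℝ) ≤ s := by exact_mod_cast hs
  have ht' : (1 : ℝ) ≤ t := by exact_mod_cast ht
  set x : ℝ := (s : ℝ) with hx
  set y : ℝ := (t : ℝ) with hy
  -- P (q² - p r) = q² [A (4j+2) + J (4a+2) + (4a+2)(4j+2)], a = x + 2, j = y + 2
  set P : ℝ := (x + 3) * (x + 4) * ((y + 3) * (y + 4)) with hP
  have hPpos : 0 < P := by positivity
  have hA : 0 < (x + 1) * (x + 2) := by positivity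
  have hJ : 0 < (y + 1) * (y + 2) := by positivity
  have e1 : P * (p * r) = q ^ 2 * ((x + 1) * (x + 2) * ((y + 1) * (y + 2))) := by
    rw [hP]
    linear_combination (-(p * ((y + 3) * (y + 4)))) * r2 * (-1) + (q * ((y + 2) * (y + 1))) * r1 * (-1)
  have e2 : P * p = q * ((x + 1) * (x + 2) * ((x + 3) * (x + 4))) := by
    rw [hP]
    linear_combination (-((x + 3) * (x + 4))) * r1
  have e3 : P * r = q * ((y + 1) * (y + 2) * ((y + 3) * (y + 4))) := by
    rw [hP]
    linear_combination ((y + 3) * (y + 4)) * r2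
  have key : 0 < P * ((q + e) ^ 2 - (p + e) * (r + e)) := by
    have e4 : P * ((q + e) ^ 2 - (p + e) * (r + e)) =
        P * q ^ 2 - P * (p * r) + e * (2 * (P * q) - P * p - P * r) := by ring
    rw [e4, e1, e2, e3]
    have hxx : 0 < (x + 3) * (x + 4) := by positivity
    have hq0 : 0 < q := by linarith
    have e5 : P * q ^ 2 - q ^ 2 * ((x + 1) * (x + 2) * ((y + 1) * (y + 2))) +
        e * (2 * (P * q) - q * ((x + 1) * (x + 2) * ((x + 3) * (x + 4))) -
          q * ((y + 1) * (y + 2) * ((y + 3) * (y + 4)))) =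
        q * (q * ((x + 1) * (x + 2) * (4 * y + 10) + (y + 1) * (y + 2) * (4 * x + 10) +
          (4 * x + 10) * (4 * y + 10)) + e * (2 * P - (x + 1) * (x + 2) * ((x + 3) * (x + 4)) -
          (y + 1) * (y + 2) * ((y + 3) * (y + 4)))) := by
      rw [hP]
      ring
    rw [e5]
    apply mul_pos hq0
    have m1 : ((x + 3) * (x + 4)) * ((x + 1) * (x + 2)) ≤ q * ((x + 1) * (x + 2)) :=
      mul_le_mul_of_nonneg_right (by linarith) hA.le
    have m2 : ((y + 3) * (y + 4)) * ((y + 1) * (y + 2)) ≤ q * ((y + 1) * (y + 2)) :=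
      mul_le_mul_of_nonneg_right (by linarith) hJ.le
    have b1 : 0 < q * ((4 * x + 10) * (4 * y + 10)) := by positivity
    have b2 : 0 ≤ q * ((x + 1) * (x + 2)) * (4 * y + 9) := by positivity
    have b3 : 0 ≤ q * ((y + 1) * (y + 2)) * (4 * x + 9) := by positivity
    rcases he with he | he
    · rw [he]
      linarith [hPpos]
    · rw [he]
      -- need q [..] > 2 P - positive
      have c1 : 0 < (x + 1) * (x + 2) * ((x + 3) * (x + 4)) := by positivity
      have c2 : 0 < (y + 1) * (y + 2) * ((y + 3) * (y + 4)) := by positivity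
      have c3 : 2 * P = 2 * ((x + 1) * (x + 2) * ((y + 1) * (y + 2))) +
          2 * ((x + 1) * (x + 2) * (4 * y + 10) + (y + 1) * (y + 2) * (4 * x + 10) +
          (4 * x + 10) * (4 * y + 10)) := by
        rw [hP]
        ring
      have c4 : ((y + 3) * (y + 4)) * ((x + 1) * (x + 2)) * (4 * y + 10) ≤
          (q - 2) * ((x + 1) * (x + 2)) * (4 * y + 10) := by
        apply mul_le_mul_of_nonneg_right _ (by positivity)
        exact mul_le_mul_of_nonneg_right (by linarith) hA.le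
      have c5 : 2 * ((x + 1) * (x + 2) * ((y + 1) * (y + 2))) ≤
          ((y + 3) * (y + 4)) * ((x + 1) * (x + 2)) * (4 * y + 10) := by
        have c6 : 2 * ((y + 1) * (y + 2)) ≤ ((y + 3) * (y + 4)) * (4 * y + 10) := by
          have c8 : 0 ≤ 4 * y ^ 3 + 36 * y ^ 2 + 112 * y + 116 := by positivity
          linarith
        have c9 := mul_le_mul_of_nonneg_left c6 hA.le
        linarith
      have c7 : 0 ≤ (q - 2) * ((y + 1) * (y + 2) * (4 * x + 10) + (4 * x + 10) * (4 * y + 10)) := by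
        apply mul_nonneg
        · linarith
        · positivity
      linarith
  have := (mul_pos_iff_of_pos_left hPpos).1 key
  linarith

/-- the coefficient -/
noncomputable def cf (n a : ℕ) : ℝ := 1 + (-1) ^ (n - a) * (n.choose a : ℝ)

theorem cf_even (n a : ℕ) (h : Even (n - a)) : cf n a = (n.choose a : ℝ) + 1 := by
  unfold cf
  rw [h.neg_one_pow]
  ring

theorem cf_odd (n a : ℕ) (h : Odd (n - a)) : cf n a = -((n.choose a : ℝ) + -1) := by
  unfold cf
  rw [h.neg_one_pow]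
  ring

theorem ch_two (n a : ℕ) (h2 : 2 ≤ a) (hn : a + 1 ≤ n) : 2 ≤ n.choose a := by
  have h1 : (a + 1).choose a ≤ n.choose a := Nat.choose_le_choose _ (by omega)
  have h3 : (a + 1).choose a = a + 1 := by
    rw [show a = a + 1 - 1 by omega]
    rw [show a + 1 - 1 + 1 = a + 1 by omega]
    rw [Nat.choose_symm (by omega : 1 ≤ a + 1), Nat.choose_one_right]
  omega

end CVXAux

open CVXAux in
theorem thm_CVX1 : St_CVX1 := by
  intro n hn hn5 t a₁ a₂ a₃ h1 h12 h23 h3 e1 e2 e3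
  have sg : ∀ a, 2 ≤ a → a + 1 ≤ n → 1 + (-1) ^ (n - a) * (n.choose a : ℝ) = t * dz a (n - a) →
      (Even (n - a) ∧ 0 < t) ∨ (Odd (n - a) ∧ t < 0) := by
    intro a ha han he
    have hd := dz_pos1 a (n - a) ha (by omega) (by omega)
    have hc : (2 : ℝ) ≤ (n.choose a : ℝ) := by exact_mod_cast ch_two n a ha han
    rcases Nat.even_or_odd (n - a) with h | h
    · left
      refine ⟨h, ?_⟩
      rw [h.neg_one_pow] at he
      by_contra hcon
      have := mul_nonpos_of_nonpos_of_nonneg (not_lt.1 hcon) hd.le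
      linarith
    · right
      refine ⟨h, ?_⟩
      rw [h.neg_one_pow] at he
      by_contra hcon
      have := mul_nonneg (not_lt.1 hcon) hd.le
      linarith
  -- all the parities agree
  have s1 := sg a₁ h1 (by omega) e1
  have s2 := sg a₂ (by omega) (by omega) e2
  have s3 := sg a₃ (by omega) h3 e3
  obtain ⟨i, hi⟩ : ∃ i, a₂ = a₁ + 2 * i := by
    rcases s1 with ⟨p1, q1⟩ | ⟨p1, q1⟩ <;> rcases s2 with ⟨p2, q2⟩ | ⟨p2, q2⟩
    · obtain ⟨u, hu⟩ := p1
      obtain ⟨v, hv⟩ := p2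
      exact ⟨u - v, by omega⟩
    · linarith
    · linarith
    · obtain ⟨u, hu⟩ := p1
      obtain ⟨v, hv⟩ := p2
      exact ⟨u - v, by omega⟩
  obtain ⟨j, hj⟩ : ∃ j, a₃ = a₁ + 2 * j := by
    rcases s1 with ⟨p1, q1⟩ | ⟨p1, q1⟩ <;> rcases s3 with ⟨p2, q2⟩ | ⟨p2, q2⟩
    · obtain ⟨u, hu⟩ := p1
      obtain ⟨v, hv⟩ := p2
      exact ⟨u - v, by omega⟩
    · linarith
    · linarith
    · obtain ⟨u, hu⟩ := p1
      obtain ⟨v, hv⟩ := p2
      exact ⟨u - v, by omega⟩
  -- the sequence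
  obtain ⟨e, he, hsg⟩ : ∃ e : ℝ, (e = 1 ∨ e = -1) ∧ ∀ k, a₁ + 2 * k + 1 ≤ n →
      1 + (-1) ^ (n - (a₁ + 2 * k)) * (n.choose (a₁ + 2 * k) : ℝ) =
        e * ((n.choose (a₁ + 2 * k) : ℝ) + e) := by
    rcases s1 with ⟨p1, q1⟩ | ⟨p1, q1⟩
    · refine ⟨1, Or.inl rfl, fun k hk => ?_⟩
      have : Even (n - (a₁ + 2 * k)) := by
        obtain ⟨u, hu⟩ := p1
        exact ⟨u - k, by omega⟩
      rw [this.neg_one_pow]
      ring
    · refine ⟨-1, Or.inr rfl, fun k hk => ?_⟩
      have : Odd (n - (a₁ + 2 * k)) := by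
        obtain ⟨u, hu⟩ := p1
        exact ⟨u - k, by omega⟩
      rw [this.neg_one_pow]
      ring
  have hee : e * e = 1 := by rcases he with h | h <;> rw [h] <;> norm_num
  set f : ℕ → ℝ := fun k => ((n.choose (a₁ + 2 * k) : ℝ) + e) / dz (a₁ + 2 * k) (n - (a₁ + 2 * k))
    with hf
  have hpe : ∀ k, a₁ + 2 * k + 1 ≤ n → 0 < (n.choose (a₁ + 2 * k) : ℝ) + e := by
    intro k hk
    have hc : (2 : ℝ) ≤ (n.choose (a₁ + 2 * k) : ℝ) := by
      exact_mod_cast ch_two n (a₁ + 2 * k) (by omega) hk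
    rcases he with h | h <;> rw [h] <;> linarith
  have hdp : ∀ k, a₁ + 2 * k + 1 ≤ n → 0 < dz (a₁ + 2 * k) (n - (a₁ + 2 * k)) :=
    fun k hk => dz_pos1 _ _ (by omega) (by omega) (by omega)
  have hval : ∀ k, a₁ + 2 * k + 1 ≤ n → 1 + (-1) ^ (n - (a₁ + 2 * k)) *
      (n.choose (a₁ + 2 * k) : ℝ) = t * dz (a₁ + 2 * k) (n - (a₁ + 2 * k)) → f k = e * t := by
    intro k hk hv
    rw [hsg k hk] at hv
    simp only [hf]
    rw [div_eq_iff (hdp k hk).ne']
    calc (n.choose (a₁ + 2 * k) : ℝ) + e = e * e * ((n.choose (a₁ + 2 * k) : ℝ) + e) := by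
          rw [hee, one_mul]
      _ = e * (e * ((n.choose (a₁ + 2 * k) : ℝ) + e)) := by ring
      _ = e * (t * dz (a₁ + 2 * k) (n - (a₁ + 2 * k))) := by rw [hv]
      _ = e * t * dz (a₁ + 2 * k) (n - (a₁ + 2 * k)) := by ring
  have v0 : f 0 = e * t := hval 0 (by omega) (by simpa using e1)
  have v1 : f i = e * t := hval i (by omega) (by rw [← hi]; exact e2)
  have v2 : f j = e * t := hval j (by omega) (by rw [← hj]; exact e3)
  refine no_three f j (fun k hk => div_pos (hpe k (by omega)) (hdp k (by omega))) (fun k hk => ?_)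
    0 i j (by omega) (by omega) le_rfl (v0.trans v1.symm) (v1.trans v2.symm)
  -- strict log-concavity
  obtain ⟨s, hs⟩ : ∃ s, a₁ + 2 * k = s := ⟨_, rfl⟩
  obtain ⟨u, hu⟩ : ∃ u, n = s + u + 4 := ⟨n - s - 4, by omega⟩
  have hs2 : 2 ≤ s := by omega
  have hu2 : 1 ≤ u := by omega
  have k1 : a₁ + 2 * (k + 1) = s + 2 := by omega
  have k2 : a₁ + 2 * (k + 2) = s + 4 := by omega
  have w0 := hpe k (by omega)
  have w1 := hpe (k + 1) (by omega)
  have w2 := hpe (k + 2) (by omega)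
  have d0 := hdp k (by omega)
  have d1 := hdp (k + 1) (by omega)
  have d2 := hdp (k + 2) (by omega)
  simp only [hf]
  rw [k1] at w1 d1 ⊢
  rw [k2] at w2 d2 ⊢
  rw [hs] at w0 d0 ⊢
  rw [hu] at w0 w1 w2 d0 d1 d2 ⊢
  rw [show s + u + 4 - s = u + 4 by omega] at d0 ⊢
  rw [show s + u + 4 - (s + 2) = u + 2 by omega] at d1 ⊢
  rw [show s + u + 4 - (s + 4) = u by omega] at d2 ⊢
  have c1 := ch_cc s u hs2 hu2 e he
  have c2 := dz_cvx s u hs2 hu2
  rw [div_mul_div_comm, div_pow, div_lt_div_iff₀ (mul_pos d0 d2) (pow_pos d1 2)]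
  have c3 : (((s + u + 4).choose s : ℝ) + e) * (((s + u + 4).choose (s + 4) : ℝ) + e) *
      dz (s + 2) (u + 2) ^ 2 < (((s + u + 4).choose (s + 2) : ℝ) + e) ^ 2 *
      dz (s + 2) (u + 2) ^ 2 := mul_lt_mul_of_pos_right c1 (pow_pos d1 2)
  have c4 : (((s + u + 4).choose (s + 2) : ℝ) + e) ^ 2 * dz (s + 2) (u + 2) ^ 2 ≤
      (((s + u + 4).choose (s + 2) : ℝ) + e) ^ 2 * (dz s (u + 4) * dz (s + 4) u) :=
    mul_le_mul_of_nonneg_left c2 (sq_nonneg _)
  exact lt_of_lt_of_le c3 c4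

end Pool.Agent.OWD

namespace Pool.Agent.OWD

theorem CVX1 : St_CVX1 := thm_CVX1

theorem CVX : St_CVX := fun n hn t a₁ a₂ a₃ h1 h12 h23 h3 e1 e2 e3 =>
  thm_CVX1 n hn (by omega) t a₁ a₂ a₃ h1 h12 h23 (by omega) e1 e2 e3

end Pool.Agent.OWD
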