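import Pool.Agent.OWD.EUL

set_option autoImplicit false

namespace Pool.Agent.OWD

open Finset

theorem rp_sum : Summable (fun p : ℕ => 1 / (((p : ℝ) + 1) ^ (3 / 2 : ℝ))) := by
  have h := (summable_nat_add_iff 1).2 (Real.summable_one_div_nat_rpow.2 (by norm_num : (1 : ℝ) < 3 / 2))
  refine h.congr fun p => ?_
  push_cast
  rfl

/-- the family of `ζ(2, 1)` is summable -/
theorem dt21_sum : Summable (dt 2 1) := by
  have h := rp_sum.mul_of_nonneg rp_sum (fun p => by positivity) (fun p => by positivity)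
  refine Summable.of_nonneg_of_le (dt_nonneg 2 1) (fun p => ?_) h
  unfold dt
  have h1 := pp p.1
  have h2 := pp p.2
  rw [one_div_mul_one_div, pow_one]
  apply one_div_le_one_div_of_le (by positivity)
  generalize (p.1 : ℝ) + 1 = x at *
  generalize (p.2 : ℝ) + 1 = y at *
  have e1 : y ^ (3 / 2 : ℝ) = y ^ (1 / 2 : ℝ) * y := by
    rw [show (3 / 2 : ℝ) = 1 / 2 + 1 by norm_num, Real.rpow_add h2, Real.rpow_one]
  have e2 : (x + y) ^ 2 = (x + y) ^ (3 / 2 : ℝ) * (x + y) ^ (1 / 2 : ℝ) := by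
    rw [← Real.rpow_add (by positivity), show (3 / 2 : ℝ) + 1 / 2 = 2 by norm_num, Real.rpow_two]
  rw [e1, e2, ← mul_assoc]
  have h3 : x ^ (3 / 2 : ℝ) ≤ (x + y) ^ (3 / 2 : ℝ) :=
    Real.rpow_le_rpow h1.le (by linarith) (by norm_num)
  have h4 : y ^ (1 / 2 : ℝ) ≤ (x + y) ^ (1 / 2 : ℝ) :=
    Real.rpow_le_rpow h2.le (by linarith) (by norm_num)
  exact mul_le_mul_of_nonneg_right (mul_le_mul h3 h4 (by positivity) (by positivity)) h2.le

/-- positivity, `b = 1` included -/
theorem dz_pos1 {a b : ℕ} (ha : 2 ≤ a) (hb : 1 ≤ b) : 0 < dz a b := by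
  have hs : Summable (dt a b) := by
    by_cases h : 4 ≤ a + b
    · exact dt_sum ha hb h
    · obtain rfl : a = 2 := by omega
      obtain rfl : b = 1 := by omega
      exact dt21_sum
  exact hs.tsum_pos (dt_nonneg a b) (0, 0) (by unfold dt; positivity)

/-- Euler: `ζ(2, 1) = ζ(3)` -/
theorem E3 : dz 2 1 = zt 3 := by
  have h1 : HasSum (fun p => F1 2 1 p + F0 2 1 p) (dz 2 1 + zt (2 + 1)) :=
    ((F1_iff 2 1 _).2 dt21_sum.hasSum).add (F0_has (by omega))
  have h2 : ∀ k : ℕ, HasSum (fun l : ℕ => F1 2 1 (k, l) + F0 2 1 (k, l))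
      (1 / (((k : ℝ) + 1) ^ 2) * ∑ l ∈ range (k + 1), 1 / ((l : ℝ) + 1)) := by
    intro k
    have e : (1 / (((k : ℝ) + 1) ^ 2) * ∑ l ∈ range (k + 1), 1 / ((l : ℝ) + 1)) =
        ∑ l ∈ range (k + 1), (F1 2 1 (k, l) + F0 2 1 (k, l)) := by
      rw [mul_sum]
      refine sum_congr rfl fun l hl => ?_
      have hl' : l ≤ k := by
        have := mem_range.1 hl
        omega
      unfold F1 F0 pt
      simp only [pow_one]
      rcases hl'.lt_or_eq with h | h
      · rw [if_pos h, if_neg (by omega), add_zero]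
      · rw [if_neg (by omega), if_pos h.symm, zero_add]
    rw [e]
    refine hasSum_sum_of_ne_finset_zero fun l hl => ?_
    have hl' : ¬ l < k + 1 := fun h => hl (mem_range.2 h)
    unfold F1 F0
    simp only
    rw [if_neg (by omega), if_neg (by omega), add_zero]
  have h3 := h1.prod_fiberwise h2
  have h4 : ∀ k : ℕ, HasSum (fun l : ℕ => dt 2 1 (k, l) + dt 2 1 (k, l).swap)
      (1 / (((k : ℝ) + 1) ^ 2) * ∑ l ∈ range (k + 1), 1 / ((l : ℝ) + 1)) := by
    intro k
    have e : (fun l : ℕ => dt 2 1 (k, l) + dt 2 1 (k, l).swap) = fun q : ℕ => 1 / (((k : ℝ) + 1) ^ 2) *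
        (1 / ((q : ℝ) + 1) - 1 / (((k : ℝ) + 1) + ((q : ℝ) + 1))) := by
      funext q
      have h5 := pp k
      have h6 := pp q
      unfold dt
      simp only [Prod.swap_prod_mk, pow_one]
      generalize (k : ℝ) + 1 = x at *
      generalize (q : ℝ) + 1 = y at *
      rw [add_comm y x, div_sub_div _ _ h6.ne' (by positivity), div_mul_div_comm,
        div_add_div _ _ (by positivity) (by positivity), div_eq_div_iff (by positivity) (by positivity)]
      ring
    rw [e]
    exact (harm k).mul_left _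
  have hsw : HasSum (fun p : ℕ × ℕ => dt 2 1 p.swap) (dz 2 1) :=
    ((Equiv.prodComm ℕ ℕ).hasSum_iff (f := dt 2 1)).2 dt21_sum.hasSum
  have h5 : HasSum (fun p : ℕ × ℕ => dt 2 1 p + dt 2 1 p.swap) (dz 2 1 + dz 2 1) :=
    dt21_sum.hasSum.add hsw
  have h6 := (h5.prod_fiberwise h4).unique h3
  linarith

end Pool.Agent.OWD
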