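import Pool.Agent.OWD.St

set_option autoImplicit false

namespace Pool.Agent.OWD

open Finset

/-- the general term of `ζ(a, b)` -/
noncomputable def dt (a b : ℕ) (p : ℕ × ℕ) : ℝ :=
  1 / ((((p.1 : ℝ) + 1) + ((p.2 : ℝ) + 1)) ^ a * ((p.2 : ℝ) + 1) ^ b)

/-- the general term of `ζ(a) ζ(b)` -/
noncomputable def pt (a b : ℕ) (p : ℕ × ℕ) : ℝ :=
  1 / (((p.1 : ℝ) + 1) ^ a) * (1 / ((p.2 : ℝ) + 1) ^ b)

theorem pp (p : ℕ) : (0 : ℝ) < (p : ℝ) + 1 := by positivity

theorem pt_nonneg (a b : ℕ) (p : ℕ × ℕ) : 0 ≤ pt a b p := by unfold pt; positivity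

theorem dt_nonneg (a b : ℕ) (p : ℕ × ℕ) : 0 ≤ dt a b p := by unfold dt; positivity

theorem zt_sum {i : ℕ} (hi : 2 ≤ i) : Summable (fun p : ℕ => 1 / ((p : ℝ) + 1) ^ i) := by
  have h := (summable_nat_add_iff 1).2 (Real.summable_one_div_nat_pow.2 (by omega : 1 < i))
  refine h.congr fun p => ?_
  push_cast
  rfl

theorem zt_has {i : ℕ} (hi : 2 ≤ i) : HasSum (fun p : ℕ => 1 / ((p : ℝ) + 1) ^ i) (zt i) :=
  (zt_sum hi).hasSum

theorem pt_has {a b : ℕ} (ha : 2 ≤ a) (hb : 2 ≤ b) : HasSum (pt a b) (zt a * zt b) :=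
  (zt_has ha).mul (zt_has hb) ((zt_sum ha).mul_of_nonneg (zt_sum hb)
    (fun p => by positivity) (fun p => by positivity))

/-- `1 / ((k+1)^a (l+1)^b)` for `l < k` -/
noncomputable def F1 (a b : ℕ) (p : ℕ × ℕ) : ℝ := if p.2 < p.1 then pt a b p else 0

theorem g1_inj : Function.Injective (fun p : ℕ × ℕ => (p.1 + 1 + p.2, p.2)) := by
  rintro ⟨a, b⟩ ⟨c, d⟩ h
  simp only [Prod.mk.injEq] at h ⊢
  omega

theorem F1_iff (a b : ℕ) (v : ℝ) : HasSum (F1 a b) v ↔ HasSum (dt a b) v := by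
  rw [← g1_inj.hasSum_iff (f := F1 a b) (a := v)]
  · refine iff_of_eq (congrArg (fun f => HasSum f v) ?_)
    funext p
    show F1 a b (p.1 + 1 + p.2, p.2) = dt a b p
    unfold F1 pt dt
    rw [if_pos (by show p.2 < p.1 + 1 + p.2; omega), ← one_div_mul_one_div]
    push_cast
    congr 3
    ring
  · intro x hx
    unfold F1
    rw [if_neg]
    intro h
    exact hx ⟨(x.1 - 1 - x.2, x.2), by
      ext
      · show x.1 - 1 - x.2 + 1 + x.2 = x.1
        omega
      · rfl⟩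

/-- the terms with `k = l` -/
noncomputable def F0 (a b : ℕ) (p : ℕ × ℕ) : ℝ := if p.1 = p.2 then pt a b p else 0

theorem F0_has {a b : ℕ} (hab : 2 ≤ a + b) : HasSum (F0 a b) (zt (a + b)) := by
  have hinj : Function.Injective (fun p : ℕ => (p, p)) := fun p q h => (Prod.mk.inj h).1
  rw [← hinj.hasSum_iff (f := F0 a b)]
  · convert zt_has hab using 1
    funext p
    show F0 a b (p, p) = _
    unfold F0 pt
    rw [if_pos rfl, one_div_mul_one_div, pow_add]
  · intro x hx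
    unfold F0
    rw [if_neg]
    intro h
    exact hx ⟨x.1, Prod.ext rfl h⟩

theorem pt_split (a b : ℕ) (p : ℕ × ℕ) : pt a b p = F1 a b p + F1 b a p.swap + F0 a b p := by
  obtain ⟨k, l⟩ := p
  unfold F1 F0
  rcases lt_trichotomy k l with h | h | h
  · have e : pt b a (k, l).swap = pt a b (k, l) := by
      unfold pt
      exact mul_comm _ _
    simp only [Prod.swap] at e ⊢
    rw [if_neg (by omega), if_pos h, if_neg (by omega), e]
    ring
  · subst h
    simp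
  · simp only [Prod.swap]
    rw [if_pos h, if_neg (by omega), if_neg (by omega)]
    ring

theorem dt_sum {a b : ℕ} (ha : 2 ≤ a) (hb : 1 ≤ b) (hab : 4 ≤ a + b) : Summable (dt a b) := by
  by_cases h2 : 2 ≤ b
  · refine Summable.of_nonneg_of_le (dt_nonneg a b) (fun p => ?_) (pt_has ha h2).summable
    unfold dt pt
    rw [one_div_mul_one_div]
    have h1 := pp p.1
    have h3 := pp p.2
    exact one_div_le_one_div_of_le (by positivity)
      (mul_le_mul_of_nonneg_right (pow_le_pow_left₀ h1.le (by linarith) a) (by positivity))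
  · have h3 : 3 ≤ a := by omega
    refine Summable.of_nonneg_of_le (dt_nonneg a b) (fun p => ?_) (pt_has le_rfl le_rfl : HasSum (pt 2 2) _).summable
    have hb1 : b = 1 := by omega
    subst hb1
    unfold dt pt
    rw [one_div_mul_one_div]
    have h1 := pp p.1
    have h4 := pp p.2
    have h5 : (1 : ℝ) ≤ (p.1 : ℝ) + 1 + ((p.2 : ℝ) + 1) := by
      have : (0 : ℝ) ≤ p.1 := Nat.cast_nonneg _
      linarith
    apply one_div_le_one_div_of_le (by positivity)
    have h6 : ((p.1 : ℝ) + 1 + ((p.2 : ℝ) + 1)) ^ 3 ≤ ((p.1 : ℝ) + 1 + ((p.2 : ℝ) + 1)) ^ a :=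
      pow_le_pow_right₀ h5 h3
    have h7 : ((p.1 : ℝ) + 1) ^ 2 * ((p.2 : ℝ) + 1) ≤ ((p.1 : ℝ) + 1 + ((p.2 : ℝ) + 1)) ^ 3 := by
      have e : ((p.1 : ℝ) + 1 + ((p.2 : ℝ) + 1)) ^ 3 - ((p.1 : ℝ) + 1) ^ 2 * ((p.2 : ℝ) + 1) =
        ((p.1 : ℝ) + 1) ^ 3 + 2 * ((p.1 : ℝ) + 1) ^ 2 * ((p.2 : ℝ) + 1) +
          3 * ((p.1 : ℝ) + 1) * ((p.2 : ℝ) + 1) ^ 2 + ((p.2 : ℝ) + 1) ^ 3 := by ring
      have : 0 ≤ ((p.1 : ℝ) + 1) ^ 3 + 2 * ((p.1 : ℝ) + 1) ^ 2 * ((p.2 : ℝ) + 1) +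
          3 * ((p.1 : ℝ) + 1) * ((p.2 : ℝ) + 1) ^ 2 + ((p.2 : ℝ) + 1) ^ 3 := by positivity
      linarith
    calc ((p.1 : ℝ) + 1) ^ 2 * ((p.2 : ℝ) + 1) ^ 2
        = (((p.1 : ℝ) + 1) ^ 2 * ((p.2 : ℝ) + 1)) * ((p.2 : ℝ) + 1) := by ring
      _ ≤ (((p.1 : ℝ) + 1 + ((p.2 : ℝ) + 1)) ^ a) * ((p.2 : ℝ) + 1) := by
          gcongr
          exact h7.trans h6
      _ = _ := by ring

theorem dz_has {a b : ℕ} (ha : 2 ≤ a) (hb : 1 ≤ b) (hab : 4 ≤ a + b) : HasSum (dt a b) (dz a b) :=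
  (dt_sum ha hb hab).hasSum

theorem dz_swap {a b : ℕ} (ha : 2 ≤ a) (hb : 1 ≤ b) (hab : 4 ≤ a + b) :
    HasSum (fun p : ℕ × ℕ => dt a b p.swap) (dz a b) :=
  ((Equiv.prodComm ℕ ℕ).hasSum_iff (f := dt a b)).2 (dz_has ha hb hab)

/-- POS -/
theorem POS : St_POS := by
  intro a b ha hb
  have h := (dt_sum ha (by omega : 1 ≤ b) (by omega)).tsum_pos (dt_nonneg a b) (0, 0)
    (by unfold dt; positivity)
  exact h

/-- stuffle -/
theorem stuf {a b : ℕ} (ha : 2 ≤ a) (hb : 2 ≤ b) : zt a * zt b = dz a b + dz b a + zt (a + b) := by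
  have h1 := (F1_iff a b _).2 (dz_has ha (by omega : 1 ≤ b) (by omega))
  have h2 := (F1_iff b a _).2 (dz_has hb (by omega : 1 ≤ a) (by omega))
  have h3 := ((Equiv.prodComm ℕ ℕ).hasSum_iff (f := F1 b a)).2 h2
  have h4 := (h1.add h3).add (F0_has (a := a) (b := b) (by omega))
  refine (pt_has ha hb).unique ?_
  convert h4 using 1
  funext p
  exact pt_split a b p

/-- telescoping -/
theorem tele {c : ℝ} (hc : 0 < c) : HasSum (fun q : ℕ => 1 / (c + q) - 1 / (c + q + 1)) (1 / c) := by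
  have hnn : ∀ q : ℕ, 0 ≤ 1 / (c + q) - 1 / (c + q + 1) := fun q => by
    have : (0 : ℝ) < c + q := by positivity
    rw [sub_nonneg]
    exact one_div_le_one_div_of_le this (by linarith)
  rw [hasSum_iff_tendsto_nat_of_nonneg hnn]
  have e : ∀ n : ℕ, ∑ q ∈ range n, (1 / (c + (q : ℝ)) - 1 / (c + q + 1)) = 1 / c - 1 / (c + n) := by
    intro n
    have := Finset.sum_range_sub' (fun q : ℕ => 1 / (c + (q : ℝ))) n
    simp only [Nat.cast_zero, add_zero] at this
    rw [← this]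
    refine Finset.sum_congr rfl fun q _ => ?_
    push_cast
    ring
  simp only [e]
  have h : Filter.Tendsto (fun n : ℕ => 1 / (c + (n : ℝ))) Filter.atTop (nhds 0) := by
    simp only [one_div]
    exact tendsto_inv_atTop_zero.comp (Filter.tendsto_atTop_add_const_left _ _ tendsto_natCast_atTop_atTop)
  simpa using h.const_sub (1 / c)

/-- the harmonic numbers as telescoping sums -/
theorem harm (k : ℕ) : HasSum (fun q : ℕ => 1 / ((q : ℝ) + 1) - 1 / (((k : ℝ) + 1) + ((q : ℝ) + 1)))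
    (∑ l ∈ range (k + 1), 1 / ((l : ℝ) + 1)) := by
  induction k with
  | zero =>
    have h := tele (c := 1) one_pos
    simp only [zero_add, range_one, sum_singleton, Nat.cast_zero]
    convert h using 1
    funext q
    rw [add_comm (1 : ℝ) (q : ℝ)]
    congr 2
    ring
  | succ k ih =>
    rw [sum_range_succ]
    have h := tele (c := (k : ℝ) + 2) (by positivity)
    convert ih.add h using 1
    · funext q
      have e1 : ((k : ℝ) + 1) + ((q : ℝ) + 1) = (k : ℝ) + 2 + q := by ring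
      have e2 : (((k + 1 : ℕ) : ℝ) + 1) + ((q : ℝ) + 1) = (k : ℝ) + 2 + q + 1 := by
        push_cast
        ring
      rw [e1, e2]
      ring
    · congr 2
      push_cast
      ring

/-- the sum of `1 / (P ^ r Q (P + Q))` -/
theorem G_has {r : ℕ} (hr : 2 ≤ r) : HasSum (fun p : ℕ × ℕ => 1 / (((p.1 : ℝ) + 1) ^ (r + 1)) *
    (1 / ((p.2 : ℝ) + 1) - 1 / (((p.1 : ℝ) + 1) + ((p.2 : ℝ) + 1)))) (dz (r + 1) 1 + zt (r + 2)) := by
  have h1 : HasSum (fun p => F1 (r + 1) 1 p + F0 (r + 1) 1 p) (dz (r + 1) 1 + zt (r + 1 + 1)) :=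
    ((F1_iff (r + 1) 1 _).2 (dz_has (by omega) le_rfl (by omega))).add (F0_has (by omega))
  have h2 : ∀ k : ℕ, HasSum (fun l : ℕ => F1 (r + 1) 1 (k, l) + F0 (r + 1) 1 (k, l))
      (1 / (((k : ℝ) + 1) ^ (r + 1)) * ∑ l ∈ range (k + 1), 1 / ((l : ℝ) + 1)) := by
    intro k
    have e : (1 / (((k : ℝ) + 1) ^ (r + 1)) * ∑ l ∈ range (k + 1), 1 / ((l : ℝ) + 1)) =
        ∑ l ∈ range (k + 1), (F1 (r + 1) 1 (k, l) + F0 (r + 1) 1 (k, l)) := by
      rw [mul_sum]
      refine sum_congr rfl fun l hl => ?_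
      have hl' : l ≤ k := by
        have := mem_range.1 hl
        omega
      unfold F1 F0 pt
      simp only [pow_one]
      rcases hl'.lt_or_eq with h | h
      · rw [if_pos h, if_neg (by omega), add_zero]
      · rw [if_neg (by omega), if_pos h.symm, zero_add]
    rw [e]
    refine hasSum_sum_of_ne_finset_zero fun l hl => ?_
    have hl' : ¬ l < k + 1 := fun h => hl (mem_range.2 h)
    unfold F1 F0
    simp only
    rw [if_neg (by omega), if_neg (by omega), add_zero]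
  have h3 := h1.prod_fiberwise h2
  set G : ℕ × ℕ → ℝ := fun p : ℕ × ℕ => 1 / (((p.1 : ℝ) + 1) ^ (r + 1)) *
    (1 / ((p.2 : ℝ) + 1) - 1 / (((p.1 : ℝ) + 1) + ((p.2 : ℝ) + 1))) with hG
  have h4 : ∀ k : ℕ, HasSum (fun l : ℕ => G (k, l))
      (1 / (((k : ℝ) + 1) ^ (r + 1)) * ∑ l ∈ range (k + 1), 1 / ((l : ℝ) + 1)) :=
    fun k => (harm k).mul_left _
  have h5 : 0 ≤ G := by
    intro p
    have h6 := pp p.1
    have h7 := pp p.2
    have h8 : 1 / (((p.1 : ℝ) + 1) + ((p.2 : ℝ) + 1)) ≤ 1 / ((p.2 : ℝ) + 1) :=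
      one_div_le_one_div_of_le h7 (by linarith)
    exact mul_nonneg (by positivity) (sub_nonneg.2 h8)
  have h6 : Summable G := by
    rw [summable_prod_of_nonneg h5]
    refine ⟨fun k => (h4 k).summable, ?_⟩
    have : (fun k : ℕ => ∑' l : ℕ, G (k, l)) = fun k : ℕ =>
        (1 / (((k : ℝ) + 1) ^ (r + 1)) * ∑ l ∈ range (k + 1), 1 / ((l : ℝ) + 1)) :=
      funext fun k => (h4 k).tsum_eq
    rw [this]
    exact h3.summable
  have h7 := h6.hasSum.prod_fiberwise h4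
  have h8 : ∑' p, G p = dz (r + 1) 1 + zt (r + 2) := h7.unique h3
  rw [← h8]
  exact h6.hasSum

/-- the sum of the three ranges -/
noncomputable def w (r a b : ℕ) (p : ℕ × ℕ) : ℝ :=
  1 / ((((p.1 : ℝ) + 1) + ((p.2 : ℝ) + 1)) ^ r * ((p.2 : ℝ) + 1) ^ b * ((p.1 : ℝ) + 1) ^ a) +
  1 / (((p.1 : ℝ) + 1) ^ r * (-((p.2 : ℝ) + 1)) ^ b * (((p.1 : ℝ) + 1) + ((p.2 : ℝ) + 1)) ^ a) +
  1 / (((p.1 : ℝ) + 1) ^ r * (((p.1 : ℝ) + 1) + ((p.2 : ℝ) + 1)) ^ b * (-((p.2 : ℝ) + 1)) ^ a)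

theorem core {k l m : ℝ} (hk : k ≠ 0) (hl : l ≠ 0) (hm : m ≠ 0) (h : l + m = k) (r a b : ℕ) :
    1 / (k ^ r * l ^ (b + 1) * m ^ (a + 1)) =
      1 / (k ^ (r + 1) * l ^ (b + 1) * m ^ a) + 1 / (k ^ (r + 1) * l ^ b * m ^ (a + 1)) := by
  have e1 : 1 / (k ^ (r + 1) * l ^ (b + 1) * m ^ a) = m / (k ^ (r + 1) * l ^ (b + 1) * m ^ (a + 1)) := by
    rw [div_eq_div_iff (by positivity) (by positivity)]
    ring
  have e2 : 1 / (k ^ (r + 1) * l ^ b * m ^ (a + 1)) = l / (k ^ (r + 1) * l ^ (b + 1) * m ^ (a + 1)) := by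
    rw [div_eq_div_iff (by positivity) (by positivity)]
    ring
  rw [e1, e2, ← add_div, add_comm m l, h, div_eq_div_iff (by positivity) (by positivity)]
  ring

theorem w_rec (r a b : ℕ) (p : ℕ × ℕ) :
    w r (a + 1) (b + 1) p = w (r + 1) a (b + 1) p + w (r + 1) (a + 1) b p := by
  have h1 := (pp p.1).ne'
  have h2 := (pp p.2).ne'
  have h3 : ((p.1 : ℝ) + 1) + ((p.2 : ℝ) + 1) ≠ 0 := (add_pos (pp p.1) (pp p.2)).ne'
  unfold w
  rw [core h3 h2 h1 (by ring) r a b, core h1 (neg_ne_zero.2 h2) h3 (by ring) r a b,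
    core h1 h3 (neg_ne_zero.2 h2) (by ring) r a b]
  ring

theorem neg_pow_inv (x : ℝ) (a : ℕ) : 1 / (-x) ^ a = (-1) ^ a * (1 / x ^ a) := by
  rw [neg_pow, one_div, mul_inv, one_div]
  congr 1
  rcases Nat.even_or_odd a with h | h
  · rw [h.neg_one_pow, inv_one]
  · rw [h.neg_one_pow]
    norm_num

/-- the remainder terms -/
def Rem (n : ℕ) (v : ℝ) : Prop :=
  ∃ q : ℕ → ℚ, v = ∑ j ∈ Icc 1 ((n - 3) / 2), (q j : ℝ) * Real.pi ^ (2 * j) * zt (n - 2 * j)

theorem Rem.add {n : ℕ} {u v : ℝ} (hu : Rem n u) (hv : Rem n v) : Rem n (u + v) := by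
  obtain ⟨q, rfl⟩ := hu
  obtain ⟨q', rfl⟩ := hv
  refine ⟨fun j => q j + q' j, ?_⟩
  rw [← sum_add_distrib]
  refine sum_congr rfl fun j _ => ?_
  push_cast
  ring

theorem Rem.smul {n : ℕ} {u : ℝ} (c : ℚ) (hu : Rem n u) : Rem n (c * u) := by
  obtain ⟨q, rfl⟩ := hu
  refine ⟨fun j => c * q j, ?_⟩
  rw [mul_sum]
  refine sum_congr rfl fun j _ => ?_
  push_cast
  ring

theorem Rem.zero (n : ℕ) : Rem n 0 := ⟨fun _ => 0, by simp⟩

theorem zev (j : ℕ) (hj : j ≠ 0) : ∃ q : ℚ, zt (2 * j) = q * Real.pi ^ (2 * j) := by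
  have h := hasSum_zeta_nat hj
  have h1 := (hasSum_nat_add_iff' 1).2 h
  have h2 : HasSum (fun p : ℕ => 1 / ((p : ℝ) + 1) ^ (2 * j))
      ((-1) ^ (j + 1) * (2 : ℝ) ^ (2 * j - 1) * Real.pi ^ (2 * j) * bernoulli (2 * j) /
        (2 * j).factorial - ∑ i ∈ range 1, 1 / ((i : ℕ) : ℝ) ^ (2 * j)) := by
    have e : (fun p : ℕ => 1 / ((p : ℝ) + 1) ^ (2 * j)) = fun p : ℕ => 1 / ((p + 1 : ℕ) : ℝ) ^ (2 * j) :=
      funext fun p => by push_cast; rfl
    rw [e]
    exact h1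
  refine ⟨(-1) ^ (j + 1) * 2 ^ (2 * j - 1) * bernoulli (2 * j) / (2 * j).factorial, ?_⟩
  have h3 : zt (2 * j) = _ := h2.tsum_eq
  rw [h3]
  rw [range_one, sum_singleton, Nat.cast_zero, zero_pow (by omega), div_zero, sub_zero]
  push_cast
  ring

theorem Rem.prod {n e : ℕ} (hn : Odd n) (he : Even e) (h2 : 2 ≤ e) (h3 : e + 2 ≤ n) :
    Rem n (zt e * zt (n - e)) := by
  obtain ⟨j, hj⟩ := he
  obtain ⟨m, hm⟩ := hn
  have hj2 : e = 2 * j := by omega
  obtain ⟨q, hq⟩ := zev j (by omega)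
  refine ⟨fun i => if i = j then q else 0, ?_⟩
  have hmem : j ∈ Icc 1 ((n - 3) / 2) := mem_Icc.2 ⟨by omega, by omega⟩
  rw [sum_eq_single j]
  · simp only [if_true]
    rw [hj2, hq]
  · intro i _ hi
    simp only [if_neg hi]
    simp
  · intro h
    exact absurd hmem h

theorem rem_leaf {r a : ℕ} (hr : 2 ≤ r) (ha : 2 ≤ a) (hn : Odd (r + a)) :
    Rem (r + a) (dz r a + dz a r + (-1 : ℝ) ^ a * (zt r * zt a) + zt (r + a)) := by
  have e : dz r a + dz a r + (-1 : ℝ) ^ a * (zt r * zt a) + zt (r + a) =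
      (1 + (-1 : ℝ) ^ a) * (zt a * zt (r + a - a)) := by
    rw [Nat.add_sub_cancel]
    have := stuf hr ha
    linear_combination -this
  rw [e]
  rcases Nat.even_or_odd a with h | h
  · rw [h.neg_one_pow]
    have := (Rem.prod hn h ha (by omega)).smul 2
    convert this using 1
    push_cast
    ring
  · rw [h.neg_one_pow]
    simpa using Rem.zero (r + a)

theorem leafA {r a : ℕ} (hr : 2 ≤ r) (ha : 2 ≤ a) (hn : Odd (r + a)) :
    ∃ v, HasSum (w r a 0) v ∧ Rem (r + a) (v + zt (r + a)) := by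
  have h1 := dz_swap (a := r) (b := a) hr (by omega) (by omega)
  have h2 := dz_swap (a := a) (b := r) ha (by omega) (by omega)
  have h3 := (pt_has hr ha).mul_left ((-1 : ℝ) ^ a)
  refine ⟨dz r a + dz a r + (-1 : ℝ) ^ a * (zt r * zt a), ?_, rem_leaf hr ha hn⟩
  have h4 := (h1.add h2).add h3
  have e : w r a 0 = fun p : ℕ × ℕ => dt r a p.swap + dt a r p.swap + (-1 : ℝ) ^ a * pt r a p := by
    funext p
    unfold w dt pt
    simp only [Prod.fst_swap, Prod.snd_swap, pow_zero, mul_one]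
    rw [← one_div_mul_one_div (((p.1 : ℝ) + 1) ^ r) ((-((p.2 : ℝ) + 1)) ^ a), neg_pow_inv,
      add_comm ((p.2 : ℝ) + 1) ((p.1 : ℝ) + 1),
      mul_comm (((p.1 : ℝ) + 1) ^ r) ((((p.1 : ℝ) + 1) + ((p.2 : ℝ) + 1)) ^ a)]
    ring
  rw [e]
  exact h4

theorem leafB {r b : ℕ} (hr : 2 ≤ r) (hb : 2 ≤ b) (hn : Odd (r + b)) :
    ∃ v, HasSum (w r 0 b) v ∧ Rem (r + b) (v + zt (r + b)) := by
  have h1 := dz_has (a := r) (b := b) hr (by omega) (by omega)
  have h2 := dz_swap (a := b) (b := r) hb (by omega) (by omega)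
  have h3 := (pt_has hr hb).mul_left ((-1 : ℝ) ^ b)
  refine ⟨dz r b + dz b r + (-1 : ℝ) ^ b * (zt r * zt b), ?_, rem_leaf hr hb hn⟩
  have h4 := (h1.add h2).add h3
  have e : w r 0 b = fun p : ℕ × ℕ => dt r b p + dt b r p.swap + (-1 : ℝ) ^ b * pt r b p := by
    funext p
    unfold w dt pt
    simp only [Prod.fst_swap, Prod.snd_swap, pow_zero, mul_one]
    rw [← one_div_mul_one_div (((p.1 : ℝ) + 1) ^ r) ((-((p.2 : ℝ) + 1)) ^ b), neg_pow_inv,
      add_comm ((p.2 : ℝ) + 1) ((p.1 : ℝ) + 1),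
      mul_comm (((p.1 : ℝ) + 1) ^ r) ((((p.1 : ℝ) + 1) + ((p.2 : ℝ) + 1)) ^ b)]
    ring
  rw [e]
  exact h4

theorem leafC {r : ℕ} (hr : 2 ≤ r) : ∃ v, HasSum (w r 1 1) v ∧ Rem (r + 2) (v + 2 * zt (r + 2)) := by
  have h1 := dz_has (a := r + 1) (b := 1) (by omega) le_rfl (by omega)
  have h2 := dz_swap (a := r + 1) (b := 1) (by omega) le_rfl (by omega)
  have h3 := (G_has hr).mul_left (-2 : ℝ)
  refine ⟨dz (r + 1) 1 + dz (r + 1) 1 + -2 * (dz (r + 1) 1 + zt (r + 2)), ?_, ?_⟩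
  · have h4 := (h1.add h2).add h3
    convert h4 using 1
    funext p
    have h5 := pp p.1
    have h6 := pp p.2
    have h7 := add_pos h5 h6
    unfold w dt
    rw [Prod.fst_swap, Prod.snd_swap, add_comm ((p.2 : ℝ) + 1) ((p.1 : ℝ) + 1)]
    generalize (p.1 : ℝ) + 1 = x at *
    generalize (p.2 : ℝ) + 1 = y at *
    have h8 := h5.ne'
    have h9 := h6.ne'
    have h10 := h7.ne'
    simp only [pow_one]
    have e1 : 1 / ((x + y) ^ r * y * x) = 1 / ((x + y) ^ (r + 1) * y) + 1 / ((x + y) ^ (r + 1) * x) := by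
      rw [div_add_div _ _ (by positivity) (by positivity), div_eq_div_iff (by positivity) (by positivity)]
      ring
    have e2 : 1 / (x ^ r * -y * (x + y)) = -(1 / (x ^ (r + 1)) * (1 / y - 1 / (x + y))) := by
      rw [div_sub_div _ _ h9 h10, div_mul_div_comm, ← neg_div, div_eq_div_iff
        (mul_ne_zero (mul_ne_zero (by positivity) (neg_ne_zero.2 h9)) h10) (by positivity)]
      ring
    have e3 : 1 / (x ^ r * (x + y) * -y) = -(1 / (x ^ (r + 1)) * (1 / y - 1 / (x + y))) := by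
      rw [← e2]
      congr 1
      ring
    rw [e1, e2, e3]
    ring
  · have e : dz (r + 1) 1 + dz (r + 1) 1 + -2 * (dz (r + 1) 1 + zt (r + 2)) + 2 * zt (r + 2) = 0 := by
      ring
    rw [e]
    exact Rem.zero _

theorem main (s : ℕ) : ∀ r a b : ℕ, a + b = s → 1 ≤ a → 1 ≤ b → 2 ≤ r + a → 2 ≤ r + b → 4 ≤ r + a + b →
    Odd (r + a + b) → ∃ v, HasSum (w r a b) v ∧
      Rem (r + a + b) (v + ((a + b).choose a : ℝ) * zt (r + a + b)) := by
  induction s with
  | zero => intro r a b h ha; omega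
  | succ s ih =>
    intro r a b hs ha hb hra hrb h4 hn
    obtain ⟨a, rfl⟩ : ∃ c, a = c + 1 := ⟨a - 1, by omega⟩
    obtain ⟨b, rfl⟩ : ∃ c, b = c + 1 := ⟨b - 1, by omega⟩
    by_cases h0 : a = 0 ∧ b = 0
    · obtain ⟨rfl, rfl⟩ := h0
      obtain ⟨v, hv, hR⟩ := leafC (r := r) (by omega)
      refine ⟨v, hv, ?_⟩
      have e : ((0 + 1 + (0 + 1)).choose (0 + 1) : ℝ) = 2 := by norm_num
      rw [e]
      exact hR
    · have hA : ∃ v, HasSum (w (r + 1) a (b + 1)) v ∧ Rem (r + (a + 1) + (b + 1))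
          (v + ((a + b + 1).choose a : ℝ) * zt (r + (a + 1) + (b + 1))) := by
        rcases Nat.eq_zero_or_pos a with h | h
        · subst h
          obtain ⟨v, hv, hR⟩ := leafB (r := r + 1) (b := b + 1) (by omega) (by omega)
            (by convert hn using 1)
          refine ⟨v, hv, ?_⟩
          rw [Nat.choose_zero_right, Nat.cast_one, one_mul]
          have e : r + (0 + 1) + (b + 1) = r + 1 + (b + 1) := by ring
          rw [e]
          exact hR
        · obtain ⟨v, hv, hR⟩ := ih (r + 1) a (b + 1) (by omega) h (by omega) (by omega) (by omega)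
            (by omega) (by convert hn using 1; ring)
          refine ⟨v, hv, ?_⟩
          have e : r + (a + 1) + (b + 1) = r + 1 + a + (b + 1) := by ring
          rw [e]
          exact hR
      have hB : ∃ v, HasSum (w (r + 1) (a + 1) b) v ∧ Rem (r + (a + 1) + (b + 1))
          (v + ((a + b + 1).choose (a + 1) : ℝ) * zt (r + (a + 1) + (b + 1))) := by
        rcases Nat.eq_zero_or_pos b with h | h
        · subst h
          obtain ⟨v, hv, hR⟩ := leafA (r := r + 1) (a := a + 1) (by omega) (by omega)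
            (by convert hn using 1; ring)
          refine ⟨v, hv, ?_⟩
          rw [add_zero, Nat.choose_self, Nat.cast_one, one_mul]
          have e : r + (a + 1) + (0 + 1) = r + 1 + (a + 1) := by ring
          rw [e]
          exact hR
        · obtain ⟨v, hv, hR⟩ := ih (r + 1) (a + 1) b (by omega) (by omega) h (by omega) (by omega)
            (by omega) (by convert hn using 1; ring)
          refine ⟨v, hv, ?_⟩
          have e : r + (a + 1) + (b + 1) = r + 1 + (a + 1) + b := by ring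
          have e2 : a + b + 1 = a + 1 + b := by ring
          rw [e, e2]
          exact hR
      obtain ⟨v, hv, hR⟩ := hA
      obtain ⟨v', hv', hR'⟩ := hB
      refine ⟨v + v', ?_, ?_⟩
      · convert hv.add hv' using 1
        funext p
        exact w_rec r a b p
      · have e : ((a + 1 + (b + 1)).choose (a + 1) : ℝ) =
            ((a + b + 1).choose a : ℝ) + ((a + b + 1).choose (a + 1) : ℝ) := by
          have : a + 1 + (b + 1) = (a + b + 1) + 1 := by ring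
          rw [this, Nat.choose_succ_succ]
          push_cast
          ring
        rw [e]
        convert hR.add hR' using 1
        ring

/-- EUL.  Euler's formula. -/
theorem EUL : St_EUL := by
  intro a b ha hb hn
  obtain ⟨v, hv, hR⟩ := main (a + b) 0 a b rfl (by omega) (by omega) (by omega) (by omega) (by omega)
    (by rwa [zero_add])
  rw [zero_add] at hR
  have h1 := pt_has ha hb
  have h2 := (dz_has (a := a) (b := b) ha (by omega) (by omega)).mul_left ((-1 : ℝ) ^ b)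
  have h3 := (dz_has (a := b) (b := a) hb (by omega) (by omega)).mul_left ((-1 : ℝ) ^ a)
  have h4 : HasSum (w 0 a b) (zt a * zt b + (-1 : ℝ) ^ b * dz a b + (-1 : ℝ) ^ a * dz b a) := by
    convert (h1.add h2).add h3 using 1
    funext p
    unfold w dt pt
    rw [pow_zero, pow_zero, one_mul, one_mul, one_mul,
      ← one_div_mul_one_div ((-((p.2 : ℝ) + 1)) ^ b) _, neg_pow_inv,
      ← one_div_mul_one_div _ ((-((p.2 : ℝ) + 1)) ^ a), neg_pow_inv,
      ← one_div_mul_one_div _ (((p.1 : ℝ) + 1) ^ a)]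
    rw [← one_div_mul_one_div _ (((p.2 : ℝ) + 1) ^ b), ← one_div_mul_one_div _ (((p.2 : ℝ) + 1) ^ a)]
    ring
  have h5 : v = _ := hv.unique h4
  have h6 := stuf ha hb
  have hpar : (-1 : ℝ) ^ a = -(-1 : ℝ) ^ b := by
    have h7 : (-1 : ℝ) ^ a * (-1 : ℝ) ^ b = -1 := by rw [← pow_add, hn.neg_one_pow]
    have h8 : (-1 : ℝ) ^ b * (-1 : ℝ) ^ b = 1 := by rw [← mul_pow]; norm_num
    linear_combination (-1 : ℝ) ^ b * h7 - (-1 : ℝ) ^ a * h8
  have h8 : (-1 : ℝ) ^ b * (-1 : ℝ) ^ b = 1 := by rw [← mul_pow]; norm_num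
  have hZ : Rem (a + b) (zt a * zt b) := by
    rcases Nat.even_or_odd a with h | h
    · have := Rem.prod hn h ha (by omega)
      rwa [Nat.add_sub_cancel_left] at this
    · have hb' : Even b := by
        rcases Nat.even_or_odd b with h' | h'
        · exact h'
        · exact absurd (h.add_odd h') (Nat.not_even_iff_odd.2 hn)
      have := Rem.prod hn hb' hb (by omega)
      rwa [Nat.add_sub_cancel, mul_comm] at this
  have hs : (-1 : ℝ) ^ b = (((-1) ^ b : ℚ) : ℝ) := by push_cast; rfl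
  have hfin := (hR.smul ((-1) ^ b)).add (hZ.smul (1 - (-1) ^ b))
  obtain ⟨q, hq⟩ := hfin
  refine ⟨q, ?_⟩
  rw [← hq]
  push_cast
  rw [h5, hpar]
  linear_combination (dz b a - dz a b) * h8 - h6

end Pool.Agent.OWD
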