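import Pool.Agent.OWD.EUL
import Pool.Agent.OWD.St1

/-!
# OWD: Euler's formula for `ζ(n - 1, 1)`
-/

set_option autoImplicit false

namespace Pool.Agent.OWD

open Finset

theorem EUL1_w {m : ℕ} (hm : Odd m) (p : ℕ × ℕ) :
    w 1 1 m p = -(dt (m + 1) 1 p + dt (m + 1) 1 p.swap) := by
  have h5 := pp p.1
  have h6 := pp p.2
  unfold w dt
  rw [Prod.fst_swap, Prod.snd_swap, add_comm ((p.2 : ℝ) + 1) ((p.1 : ℝ) + 1), hm.neg_pow]
  generalize (p.1 : ℝ) + 1 = x at *
  generalize (p.2 : ℝ) + 1 = y at *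
  have h7 := add_pos h5 h6
  have e1 : 1 / (x ^ 1 * -y ^ m * (x + y) ^ 1) = -(1 / ((x + y) ^ 1 * y ^ m * x ^ 1)) := by
    rw [pow_one, pow_one, ← one_div_neg_eq_neg_one_div]
    congr 1
    ring
  have e2 : 1 / (x ^ 1 * (x + y) ^ m * (-y) ^ 1) =
      -(1 / ((x + y) ^ (m + 1) * y ^ 1) + 1 / ((x + y) ^ (m + 1) * x ^ 1)) := by
    have e3 : 1 / (x ^ 1 * (x + y) ^ m * (-y) ^ 1) = -(1 / (x * (x + y) ^ m * y)) := by
      rw [← one_div_neg_eq_neg_one_div]
      congr 1
      ring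
    rw [e3, pow_one, pow_one, div_add_div _ _ (by positivity) (by positivity)]
    congr 1
    rw [div_eq_div_iff (by positivity) (by positivity)]
    ring
  rw [e1, e2]
  ring

theorem EUL1 : St_EUL1 := by
  intro a b ha hb hn h5
  rcases Nat.lt_or_ge 1 b with h | h
  · exact EUL a b ha h hn
  · have hb1 : b = 1 := by omega
    subst hb1
    obtain ⟨m, rfl⟩ : ∃ m, a = m + 1 := ⟨a - 1, by omega⟩
    have hm : Odd m := by
      obtain ⟨k, hk⟩ := hn
      exact ⟨k - 1, by omega⟩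
    have e : 1 + 1 + m = m + 1 + 1 := by ring
    obtain ⟨v, hv, hR⟩ := main (1 + m) 1 1 m rfl le_rfl (by omega) le_rfl (by omega) (by omega)
      (by rw [e]; exact hn)
    have h1 := dz_has (a := m + 1) (b := 1) (by omega) le_rfl (by omega)
    have h2 := dz_swap (a := m + 1) (b := 1) (by omega) le_rfl (by omega)
    have h3 := (h1.add h2).neg
    have h4 : HasSum (w 1 1 m) (-(dz (m + 1) 1 + dz (m + 1) 1)) := by
      have e5 : w 1 1 m = fun p => -(dt (m + 1) 1 p + dt (m + 1) 1 p.swap) :=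
        funext (EUL1_w hm)
      rw [e5]
      exact h3
    have h6 : v = _ := hv.unique h4
    rw [e, h6] at hR
    obtain ⟨q, hq⟩ := hR.smul (-1)
    refine ⟨q, ?_⟩
    rw [← hq]
    have e2 : (m + 1 + 1).choose (m + 1) = m + 2 := by
      rw [Nat.choose_succ_self_right]
    have e3 : (1 + m).choose 1 = m + 1 := by
      rw [Nat.choose_one_right]
      ring
    rw [e2, e3]
    push_cast
    ring

end Pool.Agent.OWD
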