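import Pool.Agent.OWD.ASMC

/-!
# OWD: halving
-/

set_option autoImplicit false

namespace Pool.Agent.OWD

open Pool.Agent.MZA (mz Idx)

/-- if the bad odd numbers are in both sets, at least half of the odd numbers are good -/
theorem HALF (M : ℕ) (S T : Set ℕ) (P : ℕ → Prop)
    (hS : S ⊆ {n : ℕ | Odd n ∧ 3 ≤ n ∧ n ≤ M}) (hT : T ⊆ {n : ℕ | Odd n ∧ 3 ≤ n ∧ n ≤ M})
    (h : S.ncard + T.ncard ≤ (M - 1) / 2)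
    (hP : ∀ n, Odd n → 3 ≤ n → n ≤ M → ¬ P n → n ∈ S ∧ n ∈ T) :
    (M - 1) / 2 ≤ 2 * {n : ℕ | Odd n ∧ 3 ≤ n ∧ n ≤ M ∧ P n}.ncard := by
  have hf : {n : ℕ | Odd n ∧ 3 ≤ n ∧ n ≤ M}.Finite :=
    (Set.finite_Iic M).subset (fun n hn => hn.2.2)
  have hb1 : {n : ℕ | Odd n ∧ 3 ≤ n ∧ n ≤ M ∧ ¬ P n}.ncard ≤ S.ncard :=
    Set.ncard_le_ncard (fun n hn => (hP n hn.1 hn.2.1 hn.2.2.1 hn.2.2.2).1) (hf.subset hS)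
  have hb2 : {n : ℕ | Odd n ∧ 3 ≤ n ∧ n ≤ M ∧ ¬ P n}.ncard ≤ T.ncard :=
    Set.ncard_le_ncard (fun n hn => (hP n hn.1 hn.2.1 hn.2.2.1 hn.2.2.2).2) (hf.subset hT)
  have h2 : {n : ℕ | Odd n ∧ 3 ≤ n ∧ n ≤ M}.ncard ≤
      {n : ℕ | Odd n ∧ 3 ≤ n ∧ n ≤ M ∧ ¬ P n}.ncard +
        {n : ℕ | Odd n ∧ 3 ≤ n ∧ n ≤ M ∧ P n}.ncard := by
    refine le_trans (Set.ncard_le_ncard ?_ ((hf.subset ?_).union (hf.subset ?_)))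
      (Set.ncard_union_le _ _)
    · rintro n ⟨a, b, c⟩
      by_cases h5 : P n
      · exact Or.inr ⟨a, b, c, h5⟩
      · exact Or.inl ⟨a, b, c, h5⟩
    · rintro n ⟨a, b, c, _⟩; exact ⟨a, b, c⟩
    · rintro n ⟨a, b, c, _⟩; exact ⟨a, b, c⟩
  rw [ASM_odd] at h2
  omega

end Pool.Agent.OWD
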