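import Pool.Agent.OWD.St

/-!
# OWD: LIN, the dimension count
-/

set_option autoImplicit false

namespace Pool.Agent.OWD

open Finset

/-- `ζ(n) / π ^ n` -/
noncomputable def LIN_Y (n : ℕ) : ℝ := zt n / Real.pi ^ n

/-- the span of the `ζ(m) / π ^ m`, `m ≤ n` odd, `m ≥ 3` -/
noncomputable def LIN_D (K : Subfield ℝ) (n : ℕ) : Submodule K ℝ :=
  Submodule.span K (LIN_Y '' {m | Odd m ∧ 3 ≤ m ∧ m ≤ n})

theorem LIN_mono (K : Subfield ℝ) {m n : ℕ} (h : m ≤ n) : LIN_D K m ≤ LIN_D K n := by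
  apply Submodule.span_mono
  apply Set.image_mono
  rintro i ⟨h1, h2, h3⟩
  exact ⟨h1, h2, h3.trans h⟩

theorem LIN_mem (K : Subfield ℝ) {m n : ℕ} (h1 : Odd m) (h2 : 3 ≤ m) (h3 : m ≤ n) :
    LIN_Y m ∈ LIN_D K n :=
  Submodule.subset_span ⟨m, ⟨h1, h2, h3⟩, rfl⟩

theorem LIN_fin (K : Subfield ℝ) (n : ℕ) : Module.Finite K (LIN_D K n) := by
  unfold LIN_D
  apply FiniteDimensional.span_of_finite
  apply Set.Finite.image
  exact (Set.finite_Iic n).subset (fun i hi => hi.2.2)

/-- the new indices -/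
def LIN_G (K : Subfield ℝ) (n : ℕ) : Set ℕ :=
  {m | Odd m ∧ 3 ≤ m ∧ m ≤ n ∧ LIN_Y m ∉ LIN_D K (m - 1)}

theorem LIN_Gfin (K : Subfield ℝ) (n : ℕ) : (LIN_G K n).Finite :=
  (Set.finite_Iic n).subset (fun _ hi => hi.2.2.1)

theorem LIN_dim (K : Subfield ℝ) (n : ℕ) :
    Module.finrank K (LIN_D K n) ≤ (LIN_G K n).ncard := by
  classical
  -- the span of the new values is everything
  have key : ∀ k ≤ n, LIN_D K k ≤ Submodule.span K (LIN_Y '' LIN_G K n) := by
    intro k
    induction k with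
    | zero =>
      intro _
      unfold LIN_D
      rw [Submodule.span_le]
      rintro _ ⟨m, ⟨_, h2, h3⟩, rfl⟩
      omega
    | succ k ih =>
      intro hk
      have ih' := ih (by omega)
      unfold LIN_D
      rw [Submodule.span_le]
      rintro _ ⟨m, ⟨h1, h2, h3⟩, rfl⟩
      rcases Nat.lt_or_ge m (k + 1) with h | h
      · exact ih' (LIN_mem K h1 h2 (by omega))
      · have hm : m = k + 1 := by omega
        by_cases hY : LIN_Y m ∈ LIN_D K (m - 1)
        · have e : m - 1 = k := by omega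
          rw [e] at hY
          exact ih' hY
        · exact Submodule.subset_span ⟨m, ⟨h1, h2, by omega, hY⟩, rfl⟩
  have hfin : (LIN_Y '' LIN_G K n).Finite := (LIN_Gfin K n).image _
  have h1 : Module.finrank K (LIN_D K n) ≤
      Module.finrank K (Submodule.span K (LIN_Y '' LIN_G K n)) := by
    have : Module.Finite K (Submodule.span K (LIN_Y '' LIN_G K n)) :=
      FiniteDimensional.span_of_finite K hfin
    exact Submodule.finrank_mono (key n le_rfl)
  have : Fintype (LIN_Y '' LIN_G K n) := hfin.fintype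
  have h2 := finrank_span_le_card (R := K) (LIN_Y '' LIN_G K n)
  have h3 : (LIN_Y '' LIN_G K n).toFinset.card ≤ (LIN_G K n).ncard := by
    rw [← Set.ncard_eq_toFinset_card']
    exact Set.ncard_image_le (LIN_Gfin K n)
  omega

theorem LIN_pow (K : Subfield ℝ) (h : Transcendental K Real.pi) :
    LinearIndependent K (fun i : ℕ => Real.pi ^ i) := by
  have h1 : LinearIndependent K (fun i : ℕ => (Polynomial.X ^ i : Polynomial K)) := by
    have := (Polynomial.basisMonomials K).linearIndependent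
    rw [Polynomial.coe_basisMonomials] at this
    have e : (fun i : ℕ => (Polynomial.monomial i) (1 : K)) =
        (fun i : ℕ => (Polynomial.X ^ i : Polynomial K)) := by
      funext i
      exact Polynomial.monomial_one_right_eq_X_pow i
    rw [e] at this
    exact this
  have h2 := h1.map' (Polynomial.aeval Real.pi).toLinearMap (by
    rw [LinearMap.ker_eq_bot]
    exact transcendental_iff_injective.1 h)
  have e : ((Polynomial.aeval Real.pi).toLinearMap ∘
      (fun i : ℕ => (Polynomial.X ^ i : Polynomial K))) = (fun i : ℕ => Real.pi ^ i) := by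
    funext i
    simp
  rw [e] at h2
  exact h2

/-- independent elements -/
theorem LIN_card (K : Subfield ℝ) (h : Transcendental K Real.pi) (x : ℝ) (hx : x ≠ 0) (M : ℕ)
    (T : Set ℕ) (hT : ∀ n ∈ T, n ≤ M ∧ x / Real.pi ^ n ∈ LIN_D K M) :
    T.ncard ≤ Module.finrank K (LIN_D K M) := by
  classical
  have hfin : T.Finite := (Set.finite_Iic M).subset (fun n hn => (hT n hn).1)
  have hpi : (Real.pi : ℝ) ≠ 0 := Real.pi_ne_zero
  have h1 : LinearIndependent K (fun n : T => x / Real.pi ^ (n : ℕ)) := by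
    have h2 : LinearIndependent K (fun n : T => Real.pi ^ (M - (n : ℕ))) := by
      apply (LIN_pow K h).comp (fun n : T => M - (n : ℕ))
      rintro ⟨a, ha⟩ ⟨b, hb⟩ hab
      have h3 := (hT a ha).1
      have h4 := (hT b hb).1
      simp only at hab
      apply Subtype.ext
      change a = b
      omega
    have h3 := h2.map' (LinearMap.mulLeft K (x / Real.pi ^ M)) (by
      rw [LinearMap.ker_eq_bot]
      intro a b hab
      simp only [LinearMap.mulLeft_apply] at hab
      exact mul_left_cancel₀ (div_ne_zero hx (pow_ne_zero _ hpi)) hab)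
    have e : ((LinearMap.mulLeft K (x / Real.pi ^ M)) ∘ (fun n : T => Real.pi ^ (M - (n : ℕ)))) =
        (fun n : T => x / Real.pi ^ (n : ℕ)) := by
      funext n
      have h4 := (hT n n.2).1
      simp only [Function.comp_apply, LinearMap.mulLeft_apply]
      rw [div_mul_eq_mul_div, div_eq_div_iff (pow_ne_zero _ hpi) (pow_ne_zero _ hpi), mul_assoc,
        ← pow_add, Nat.sub_add_cancel h4]
    rw [e] at h3
    exact h3
  have h2 : LinearIndependent K (fun n : T => (⟨x / Real.pi ^ (n : ℕ), (hT n n.2).2⟩ :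
      LIN_D K M)) := by
    apply LinearIndependent.of_comp (LIN_D K M).subtype
    exact h1
  have := LIN_fin K M
  have : Fintype T := hfin.fintype
  have h3 := h2.fintype_card_le_finrank
  rw [Set.ncard_eq_toFinset_card', Set.toFinset_card]
  exact h3

theorem LIN_odd (M : ℕ) : {n : ℕ | Odd n ∧ 3 ≤ n ∧ n ≤ M}.ncard ≤ (M - 1) / 2 := by
  have h : {n : ℕ | Odd n ∧ 3 ≤ n ∧ n ≤ M} ⊆
      (((Finset.range ((M - 1) / 2)).image (fun i => 2 * i + 3) : Finset ℕ) : Set ℕ) := by
    rintro n ⟨⟨k, hk⟩, h3, hM⟩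
    rw [Finset.mem_coe, Finset.mem_image]
    exact ⟨k - 1, Finset.mem_range.2 (by omega), by omega⟩
  refine (Set.ncard_le_ncard h (Finset.finite_toSet _)).trans ?_
  rw [Set.ncard_coe_finset]
  exact Finset.card_image_le.trans (by rw [Finset.card_range])

/-- Euler's formula divided by the power of `π` -/
theorem LIN_eul (hE : St_EUL) (K : Subfield ℝ) {n a : ℕ} (hn : Odd n) (ha : 2 ≤ a)
    (ha2 : a + 2 ≤ n) : ∃ d ∈ LIN_D K (n - 1), 2 * dz a (n - a) / Real.pi ^ n =
      -(1 + (-1) ^ (n - a) * (n.choose a : ℝ)) * LIN_Y n + d := by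
  have hn' : a + (n - a) = n := by omega
  obtain ⟨q, hq⟩ := hE a (n - a) ha (by omega) (by rw [hn']; exact hn)
  rw [hn'] at hq
  have hpi : (Real.pi : ℝ) ≠ 0 := Real.pi_ne_zero
  refine ⟨∑ j ∈ Finset.Icc 1 ((n - 3) / 2), (q j : ℝ) * LIN_Y (n - 2 * j), ?_, ?_⟩
  · apply Submodule.sum_mem
    intro j hj
    rw [Finset.mem_Icc] at hj
    have h1 : LIN_Y (n - 2 * j) ∈ LIN_D K (n - 1) := by
      apply LIN_mem
      · obtain ⟨k, hk⟩ := hn
        exact ⟨k - j, by omega⟩
      · obtain ⟨k, hk⟩ := hn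
        omega
      · omega
    have h2 := (LIN_D K (n - 1)).smul_mem (q j : K) h1
    have h3 : ((q j : K) : ℝ) = (q j : ℝ) := by norm_cast
    rw [Subfield.smul_def, h3, smul_eq_mul] at h2
    exact h2
  · rw [hq, add_div, Finset.sum_div]
    congr 1
    · unfold LIN_Y
      ring
    · apply Finset.sum_congr rfl
      intro j hj
      rw [Finset.mem_Icc] at hj
      unfold LIN_Y
      have hj2 : 2 * j ≤ n := by omega
      rw [mul_assoc, mul_div_assoc]
      congr 1
      rw [div_eq_div_iff (pow_ne_zero _ hpi) (pow_ne_zero _ hpi)]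
      have : Real.pi ^ n = Real.pi ^ (2 * j) * Real.pi ^ (n - 2 * j) := by
        rw [← pow_add]
        congr 1
        omega
      rw [this]
      ring

theorem LIN_ne (hP : St_POS) {n a : ℕ} (ha : 2 ≤ a) (ha2 : a + 2 ≤ n) {c x : ℝ}
    (h : dz a (n - a) = c * x) : c ≠ 0 := by
  intro h0
  have h1 := hP a (n - a) ha (by omega)
  rw [h, h0] at h1
  simp at h1

theorem LIN_ex (hE : St_EUL) (hP : St_POS) (K : Subfield ℝ) (x : ℝ) {n a : ℕ} (hn : Odd n)
    (h3 : 3 ≤ n) (ha : a ∈ SS K x n) : x / Real.pi ^ n ∈ LIN_D K n := by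
  obtain ⟨h1, h2, c, hc, h4⟩ := ha
  obtain ⟨d, hd, h5⟩ := LIN_eul hE K hn h1 h2
  have hc0 := LIN_ne hP h1 h2 h4
  have h6 : x / Real.pi ^ n = ((⟨c, hc⟩ : K)⁻¹ * (2 : K)⁻¹) • (2 * dz a (n - a) / Real.pi ^ n) := by
    have h20 : ((2 : K) : ℝ) = 2 := rfl
    rw [Subfield.smul_def, h4, smul_eq_mul, Subfield.coe_mul, Subfield.coe_inv, Subfield.coe_inv,
      h20]
    change x / Real.pi ^ n = c⁻¹ * 2⁻¹ * (2 * (c * x) / Real.pi ^ n)
    field_simp
  rw [h6, h5]
  apply Submodule.smul_mem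
  apply Submodule.add_mem
  · have h7 : -(1 + (-1) ^ (n - a) * (n.choose a : ℝ)) * LIN_Y n =
        (-(1 + (-1) ^ (n - a) * (n.choose a : K)) : K) • LIN_Y n := by
      rw [Subfield.smul_def, smul_eq_mul]
      push_cast
      rfl
    rw [h7]
    exact Submodule.smul_mem _ _ (LIN_mem K hn h3 le_rfl)
  · exact LIN_mono K (Nat.sub_le n 1) hd

/-- the coefficients are proportional -/
theorem LIN_prop (hE : St_EUL) (K : Subfield ℝ) (x : ℝ) {n a b : ℕ} (hn : Odd n)
    (hY : LIN_Y n ∉ LIN_D K (n - 1)) (ha : 2 ≤ a) (ha2 : a + 2 ≤ n) (hb : 2 ≤ b)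
    (hb2 : b + 2 ≤ n) (c c' : K) (hc : dz a (n - a) = c * x) (hc' : dz b (n - b) = c' * x) :
    (c' : ℝ) * (1 + (-1) ^ (n - a) * (n.choose a : ℝ)) =
      c * (1 + (-1) ^ (n - b) * (n.choose b : ℝ)) := by
  obtain ⟨d, hd, h5⟩ := LIN_eul hE K hn ha ha2
  obtain ⟨e, he, h6⟩ := LIN_eul hE K hn hb hb2
  by_contra hne
  apply hY
  set u : K := 1 + (-1) ^ (n - a) * (n.choose a : K) with hu
  set v : K := 1 + (-1) ^ (n - b) * (n.choose b : K) with hv
  have hu' : (1 + (-1) ^ (n - a) * (n.choose a : ℝ)) = (u : ℝ) := by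
    rw [hu]; push_cast; rfl
  have hv' : (1 + (-1) ^ (n - b) * (n.choose b : ℝ)) = (v : ℝ) := by
    rw [hv]; push_cast; rfl
  rw [hu'] at hne h5
  rw [hv'] at hne h6
  have h7 : ((c' : ℝ) * u - c * v) * LIN_Y n = c' * d - c * e := by
    have h8 : (c' : ℝ) * (2 * dz a (n - a) / Real.pi ^ n) -
        c * (2 * dz b (n - b) / Real.pi ^ n) = 0 := by
      rw [hc, hc']
      ring
    rw [h5, h6] at h8
    linear_combination -h8
  have h9 : (c' * u - c * v : K) ≠ 0 := by
    intro h0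
    apply hne
    have h12 : ((c' * u - c * v : K) : ℝ) = ((0 : K) : ℝ) := by rw [h0]
    change (c' : ℝ) * u - c * v = 0 at h12
    linarith
  have h10 : LIN_Y n = (c' * u - c * v : K)⁻¹ • (c' • d - c • e) := by
    rw [Subfield.smul_def, Subfield.smul_def, Subfield.smul_def, smul_eq_mul, smul_eq_mul,
      smul_eq_mul]
    have h11 : ((c' * u - c * v : K) : ℝ) ≠ 0 := by
      intro h0
      exact h9 (Subtype.ext h0)
    rw [Subfield.coe_inv, eq_inv_mul_iff_mul_eq₀ h11]
    push_cast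
    exact h7
  rw [h10]
  exact Submodule.smul_mem _ _ (Submodule.sub_mem _ (Submodule.smul_mem _ _ hd)
    (Submodule.smul_mem _ _ he))

theorem LIN_two (hE : St_EUL) (hP : St_POS) (hC : St_CVX) (K : Subfield ℝ) (x : ℝ) {n : ℕ}
    (hn : Odd n) (hY : LIN_Y n ∉ LIN_D K (n - 1)) : ¬ 3 ≤ (SS K x n).ncard := by
  classical
  intro h3
  have hfin : (SS K x n).Finite := (Set.finite_Iic n).subset (fun a ha => by
    have := ha.2.1
    rw [Set.mem_Iic]
    omega)
  rw [Set.ncard_eq_toFinset_card _ hfin] at h3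
  obtain ⟨t, ht, htc⟩ := Finset.exists_subset_card_eq h3
  let f := t.orderEmbOfFin htc
  have hf : ∀ i, f i ∈ SS K x n := fun i => hfin.mem_toFinset.1 (ht (t.orderEmbOfFin_mem htc i))
  have h01 : f 0 < f 1 := f.strictMono (by decide)
  have h12 : f 1 < f 2 := f.strictMono (by decide)
  obtain ⟨p0, q0, c0, k0, e0⟩ := hf 0
  obtain ⟨p1, q1, c1, k1, e1⟩ := hf 1
  obtain ⟨p2, q2, c2, k2, e2⟩ := hf 2
  have n0 := LIN_ne hP p0 q0 e0
  have g := hP (f 0) (n - f 0) p0 (by omega)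
  have hx : x ≠ 0 := by
    intro h0
    rw [e0, h0] at g
    simp at g
  set w : ℝ := (1 + (-1) ^ (n - f 0) * (n.choose (f 0) : ℝ)) / (c0 * x) with hw
  have r1 := LIN_prop hE K x hn hY p0 q0 p1 q1 ⟨c0, k0⟩ ⟨c1, k1⟩ e0 e1
  have r2 := LIN_prop hE K x hn hY p0 q0 p2 q2 ⟨c0, k0⟩ ⟨c2, k2⟩ e0 e2
  simp only at r1 r2
  refine hC n hn w (f 0) (f 1) (f 2) p0 h01 h12 q2 ?_ ?_ ?_
  · rw [e0, hw]
    field_simp
  · rw [e1, hw]
    have : w = w := rfl
    rw [div_mul_eq_mul_div, eq_div_iff (mul_ne_zero n0 hx)]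
    linear_combination (-x) * r1
  · rw [e2, hw]
    rw [div_mul_eq_mul_div, eq_div_iff (mul_ne_zero n0 hx)]
    linear_combination (-x) * r2

theorem LIN : St_LIN := by
  intro hE hP hC K hK x hx M
  have h1 : (TT K x 1 M).ncard ≤ Module.finrank K (LIN_D K M) := by
    apply LIN_card K hK x hx M
    rintro n ⟨ho, h3, hM, h4⟩
    refine ⟨hM, ?_⟩
    have h5 : (SS K x n).Nonempty := by
      rw [← Set.ncard_pos ((Set.finite_Iic n).subset (fun a ha => by
        have := ha.2.1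
        rw [Set.mem_Iic]
        omega))]
      exact h4
    obtain ⟨a, ha⟩ := h5
    exact LIN_mono K hM (LIN_ex hE hP K x ho h3 ha)
  have h2 := LIN_dim K M
  have h3 : (LIN_G K M).ncard + (TT K x 3 M).ncard ≤ (M - 1) / 2 := by
    have hfT : (TT K x 3 M).Finite := (Set.finite_Iic M).subset (fun n hn => hn.2.2.1)
    rw [← Set.ncard_union_eq ?_ (LIN_Gfin K M) hfT]
    · refine (Set.ncard_le_ncard ?_ ?_).trans (LIN_odd M)
      · rintro n (⟨a, b, c, -⟩ | ⟨a, b, c, -⟩)
        · exact ⟨a, b, c⟩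
        · exact ⟨a, b, c⟩
      · exact (Set.finite_Iic M).subset (fun n hn => hn.2.2)
    · rw [Set.disjoint_left]
      rintro n ⟨a, -, -, hY⟩ ⟨-, -, -, h⟩
      exact LIN_two hE hP hC K x a hY h
  omega

end Pool.Agent.OWD
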