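import Pool.Agent.OWD.LIN
import Pool.Agent.OWD.EUL1

/-!
# OWD: the dimension count with `b = 1` included
-/

set_option autoImplicit false

namespace Pool.Agent.OWD

open Finset

/-- the `a` with `ζ(a, n - a)`, `a ≥ 2`, `n - a ≥ 1`, in the line `K x` -/
def SB (K : Subfield ℝ) (x : ℝ) (n : ℕ) : Set ℕ :=
  {a | 2 ≤ a ∧ a + 1 ≤ n ∧ ∃ c ∈ K, dz a (n - a) = c * x}

/-- the odd weights `n ≤ M`, `n ≥ 5`, with at least `j` such values -/
def TB (K : Subfield ℝ) (x : ℝ) (j M : ℕ) : Set ℕ :=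
  {n | Odd n ∧ 5 ≤ n ∧ n ≤ M ∧ j ≤ (SB K x n).ncard}

/-- Euler's formula divided by the power of `π` -/
theorem LINB_eul (K : Subfield ℝ) {n a : ℕ} (hn : Odd n) (hn5 : 5 ≤ n) (ha : 2 ≤ a)
    (ha2 : a + 1 ≤ n) : ∃ d ∈ LIN_D K (n - 1), 2 * dz a (n - a) / Real.pi ^ n =
      -(1 + (-1) ^ (n - a) * (n.choose a : ℝ)) * LIN_Y n + d := by
  have hn' : a + (n - a) = n := by omega
  obtain ⟨q, hq⟩ := EUL1 a (n - a) ha (by omega) (by rw [hn']; exact hn) (by omega)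
  rw [hn'] at hq
  have hpi : (Real.pi : ℝ) ≠ 0 := Real.pi_ne_zero
  refine ⟨∑ j ∈ Finset.Icc 1 ((n - 3) / 2), (q j : ℝ) * LIN_Y (n - 2 * j), ?_, ?_⟩
  · apply Submodule.sum_mem
    intro j hj
    rw [Finset.mem_Icc] at hj
    have h1 : LIN_Y (n - 2 * j) ∈ LIN_D K (n - 1) := by
      apply LIN_mem
      · obtain ⟨k, hk⟩ := hn
        exact ⟨k - j, by omega⟩
      · obtain ⟨k, hk⟩ := hn
        omega
      · omega
    have h2 := (LIN_D K (n - 1)).smul_mem (q j : K) h1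
    have h3 : ((q j : K) : ℝ) = (q j : ℝ) := by norm_cast
    rw [Subfield.smul_def, h3, smul_eq_mul] at h2
    exact h2
  · rw [hq, add_div, Finset.sum_div]
    congr 1
    · unfold LIN_Y
      ring
    · apply Finset.sum_congr rfl
      intro j hj
      rw [Finset.mem_Icc] at hj
      unfold LIN_Y
      have hj2 : 2 * j ≤ n := by omega
      rw [mul_assoc, mul_div_assoc]
      congr 1
      rw [div_eq_div_iff (pow_ne_zero _ hpi) (pow_ne_zero _ hpi)]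
      have : Real.pi ^ n = Real.pi ^ (2 * j) * Real.pi ^ (n - 2 * j) := by
        rw [← pow_add]
        congr 1
        omega
      rw [this]
      ring

theorem LINB_pos {n a : ℕ} (hn5 : 5 ≤ n) (ha : 2 ≤ a) (ha2 : a + 1 ≤ n) : 0 < dz a (n - a) :=
  (dt_sum ha (by omega : 1 ≤ n - a) (by omega)).tsum_pos (dt_nonneg a (n - a)) (0, 0)
    (by unfold dt; positivity)

theorem LINB_ne {n a : ℕ} (hn5 : 5 ≤ n) (ha : 2 ≤ a) (ha2 : a + 1 ≤ n) {c x : ℝ}
    (h : dz a (n - a) = c * x) : c ≠ 0 := by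
  intro h0
  have h1 := LINB_pos hn5 ha ha2
  rw [h, h0] at h1
  simp at h1

theorem LINB_ex (K : Subfield ℝ) (x : ℝ) {n a : ℕ} (hn : Odd n)
    (hn5 : 5 ≤ n) (ha : a ∈ SB K x n) : x / Real.pi ^ n ∈ LIN_D K n := by
  obtain ⟨h1, h2, c, hc, h4⟩ := ha
  obtain ⟨d, hd, h5⟩ := LINB_eul K hn hn5 h1 h2
  have hc0 := LINB_ne hn5 h1 h2 h4
  have h6 : x / Real.pi ^ n = ((⟨c, hc⟩ : K)⁻¹ * (2 : K)⁻¹) • (2 * dz a (n - a) / Real.pi ^ n) := by
    have h20 : ((2 : K) : ℝ) = 2 := rfl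
    rw [Subfield.smul_def, h4, smul_eq_mul, Subfield.coe_mul, Subfield.coe_inv, Subfield.coe_inv,
      h20]
    change x / Real.pi ^ n = c⁻¹ * 2⁻¹ * (2 * (c * x) / Real.pi ^ n)
    field_simp
  rw [h6, h5]
  apply Submodule.smul_mem
  apply Submodule.add_mem
  · have h7 : -(1 + (-1) ^ (n - a) * (n.choose a : ℝ)) * LIN_Y n =
        (-(1 + (-1) ^ (n - a) * (n.choose a : K)) : K) • LIN_Y n := by
      rw [Subfield.smul_def, smul_eq_mul]
      push_cast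
      rfl
    rw [h7]
    exact Submodule.smul_mem _ _ (LIN_mem K hn (by omega) le_rfl)
  · exact LIN_mono K (Nat.sub_le n 1) hd

/-- the coefficients are proportional -/
theorem LINB_prop (K : Subfield ℝ) (x : ℝ) {n a b : ℕ} (hn : Odd n) (hn5 : 5 ≤ n)
    (hY : LIN_Y n ∉ LIN_D K (n - 1)) (ha : 2 ≤ a) (ha2 : a + 1 ≤ n) (hb : 2 ≤ b)
    (hb2 : b + 1 ≤ n) (c c' : K) (hc : dz a (n - a) = c * x) (hc' : dz b (n - b) = c' * x) :
    (c' : ℝ) * (1 + (-1) ^ (n - a) * (n.choose a : ℝ)) =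
      c * (1 + (-1) ^ (n - b) * (n.choose b : ℝ)) := by
  obtain ⟨d, hd, h5⟩ := LINB_eul K hn hn5 ha ha2
  obtain ⟨e, he, h6⟩ := LINB_eul K hn hn5 hb hb2
  by_contra hne
  apply hY
  set u : K := 1 + (-1) ^ (n - a) * (n.choose a : K) with hu
  set v : K := 1 + (-1) ^ (n - b) * (n.choose b : K) with hv
  have hu' : (1 + (-1) ^ (n - a) * (n.choose a : ℝ)) = (u : ℝ) := by
    rw [hu]; push_cast; rfl
  have hv' : (1 + (-1) ^ (n - b) * (n.choose b : ℝ)) = (v : ℝ) := by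
    rw [hv]; push_cast; rfl
  rw [hu'] at hne h5
  rw [hv'] at hne h6
  have h7 : ((c' : ℝ) * u - c * v) * LIN_Y n = c' * d - c * e := by
    have h8 : (c' : ℝ) * (2 * dz a (n - a) / Real.pi ^ n) -
        c * (2 * dz b (n - b) / Real.pi ^ n) = 0 := by
      rw [hc, hc']
      ring
    rw [h5, h6] at h8
    linear_combination -h8
  have h9 : (c' * u - c * v : K) ≠ 0 := by
    intro h0
    apply hne
    have h12 : ((c' * u - c * v : K) : ℝ) = ((0 : K) : ℝ) := by rw [h0]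
    change (c' : ℝ) * u - c * v = 0 at h12
    linarith
  have h10 : LIN_Y n = (c' * u - c * v : K)⁻¹ • (c' • d - c • e) := by
    rw [Subfield.smul_def, Subfield.smul_def, Subfield.smul_def, smul_eq_mul, smul_eq_mul,
      smul_eq_mul]
    have h11 : ((c' * u - c * v : K) : ℝ) ≠ 0 := by
      intro h0
      exact h9 (Subtype.ext h0)
    rw [Subfield.coe_inv, eq_inv_mul_iff_mul_eq₀ h11]
    push_cast
    exact h7
  rw [h10]
  exact Submodule.smul_mem _ _ (Submodule.sub_mem _ (Submodule.smul_mem _ _ hd)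
    (Submodule.smul_mem _ _ he))

theorem LINB_two (hC : St_CVX1) (K : Subfield ℝ) (x : ℝ) {n : ℕ}
    (hn : Odd n) (hn5 : 5 ≤ n) (hY : LIN_Y n ∉ LIN_D K (n - 1)) : ¬ 3 ≤ (SB K x n).ncard := by
  classical
  intro h3
  have hfin : (SB K x n).Finite := (Set.finite_Iic n).subset (fun a ha => by
    have := ha.2.1
    rw [Set.mem_Iic]
    omega)
  rw [Set.ncard_eq_toFinset_card _ hfin] at h3
  obtain ⟨t, ht, htc⟩ := Finset.exists_subset_card_eq h3
  let f := t.orderEmbOfFin htc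
  have hf : ∀ i, f i ∈ SB K x n := fun i => hfin.mem_toFinset.1 (ht (t.orderEmbOfFin_mem htc i))
  have h01 : f 0 < f 1 := f.strictMono (by decide)
  have h12 : f 1 < f 2 := f.strictMono (by decide)
  obtain ⟨p0, q0, c0, k0, e0⟩ := hf 0
  obtain ⟨p1, q1, c1, k1, e1⟩ := hf 1
  obtain ⟨p2, q2, c2, k2, e2⟩ := hf 2
  have n0 := LINB_ne hn5 p0 q0 e0
  have g := LINB_pos hn5 p0 q0
  have hx : x ≠ 0 := by
    intro h0
    rw [e0, h0] at g
    simp at g
  set w : ℝ := (1 + (-1) ^ (n - f 0) * (n.choose (f 0) : ℝ)) / (c0 * x) with hw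
  have r1 := LINB_prop K x hn hn5 hY p0 q0 p1 q1 ⟨c0, k0⟩ ⟨c1, k1⟩ e0 e1
  have r2 := LINB_prop K x hn hn5 hY p0 q0 p2 q2 ⟨c0, k0⟩ ⟨c2, k2⟩ e0 e2
  simp only at r1 r2
  refine hC n hn hn5 w (f 0) (f 1) (f 2) p0 h01 h12 q2 ?_ ?_ ?_
  · rw [e0, hw]
    field_simp
  · rw [e1, hw]
    have : w = w := rfl
    rw [div_mul_eq_mul_div, eq_div_iff (mul_ne_zero n0 hx)]
    linear_combination (-x) * r1
  · rw [e2, hw]
    rw [div_mul_eq_mul_div, eq_div_iff (mul_ne_zero n0 hx)]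
    linear_combination (-x) * r2

theorem LINB (hC : St_CVX1) (K : Subfield ℝ) (hK : Transcendental K Real.pi) (x : ℝ)
    (hx : x ≠ 0) (M : ℕ) : (TB K x 1 M).ncard + (TB K x 3 M).ncard ≤ (M - 1) / 2 := by
  have h1 : (TB K x 1 M).ncard ≤ Module.finrank K (LIN_D K M) := by
    apply LIN_card K hK x hx M
    rintro n ⟨ho, h3, hM, h4⟩
    refine ⟨hM, ?_⟩
    have h5 : (SB K x n).Nonempty := by
      rw [← Set.ncard_pos ((Set.finite_Iic n).subset (fun a ha => by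
        have := ha.2.1
        rw [Set.mem_Iic]
        omega))]
      exact h4
    obtain ⟨a, ha⟩ := h5
    exact LIN_mono K hM (LINB_ex K x ho h3 ha)
  have h2 := LIN_dim K M
  have h3 : (LIN_G K M).ncard + (TB K x 3 M).ncard ≤ (M - 1) / 2 := by
    have hfT : (TB K x 3 M).Finite := (Set.finite_Iic M).subset (fun n hn => hn.2.2.1)
    rw [← Set.ncard_union_eq ?_ (LIN_Gfin K M) hfT]
    · refine (Set.ncard_le_ncard ?_ ?_).trans (LIN_odd M)
      · rintro n (⟨a, b, c, -⟩ | ⟨a, b, c, -⟩)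
        · exact ⟨a, b, c⟩
        · exact ⟨a, by omega, c⟩
      · exact (Set.finite_Iic M).subset (fun n hn => hn.2.2)
    · rw [Set.disjoint_left]
      rintro n ⟨a, -, -, hY⟩ ⟨-, h5, -, h⟩
      exact LINB_two hC K x a h5 hY h
  omega

end Pool.Agent.OWD
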