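import Pool.Agent.OWD.LINC
import Pool.Agent.OWD.E3
import Pool.Agent.OWD.ASMC

/-!
# OWD MIX: `ζ(n)` and pairs of double zeta values of weight `n` in one line
-/

set_option autoImplicit false

namespace Pool.Agent.OWD

open Finset

theorem MIX_zt_ge {n : ℕ} (hn : 2 ≤ n) : 1 ≤ zt n := by
  have h := (zt_sum hn).le_tsum 0 (fun p _ => by positivity)
  have h1 : (1 : ℝ) / (((0 : ℕ) : ℝ) + 1) ^ n = 1 := by simp
  rw [h1] at h
  exact h

theorem MIX_zt3 : zt 3 < 2 := by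
  have h1 : zt 3 ≤ zt 2 := by
    unfold zt
    apply Summable.tsum_le_tsum (fun p => ?_) (zt_sum (by norm_num)) (zt_sum (by norm_num))
    apply one_div_le_one_div_of_le (by positivity)
    exact pow_le_pow_right₀ (by
      have := Nat.cast_nonneg (α := ℝ) p
      linarith) (by norm_num)
  have h2 : zt 2 = Real.pi ^ 2 / 6 := by
    have h := (hasSum_nat_add_iff' 1).2 hasSum_zeta_two
    have h3 : HasSum (fun p : ℕ => 1 / ((p : ℝ) + 1) ^ 2) (Real.pi ^ 2 / 6) := by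
      simpa using h
    exact h3.tsum_eq
  have h3 := Real.pi_lt_d2
  have h4 := Real.pi_pos
  rw [h2] at h1
  nlinarith

theorem MIX_dz_le {a b : ℕ} (ha : 2 ≤ a) (hb : 1 ≤ b) (hab : 4 ≤ a + b) : dz a b ≤ zt 3 := by
  rw [← E3]
  change (∑' p, dt a b p) ≤ ∑' p, dt 2 1 p
  apply Summable.tsum_le_tsum (fun p => ?_) (dt_sum ha hb hab) dt21_sum
  unfold dt
  have h1 := Nat.cast_nonneg (α := ℝ) p.1
  have h2 := Nat.cast_nonneg (α := ℝ) p.2
  apply one_div_le_one_div_of_le (by positivity)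
  exact mul_le_mul (pow_le_pow_right₀ (by linarith) ha) (pow_le_pow_right₀ (by linarith) hb)
    (by positivity) (by positivity)

theorem MIX_choose {n a : ℕ} (hn : 5 ≤ n) (ha : 2 ≤ a) (ha2 : a + 1 ≤ n) : 5 ≤ n.choose a := by
  rcases Nat.lt_or_ge a 4 with h | h
  · have h1 : (5 : ℕ).choose a ≤ n.choose a := Nat.choose_le_choose a hn
    have h2 : 5 ≤ (5 : ℕ).choose a := by
      have : a = 2 ∨ a = 3 := by omega
      rcases this with rfl | rfl <;> decide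
    exact h2.trans h1
  · have h1 : (a + 1).choose a ≤ n.choose a := Nat.choose_le_choose a ha2
    rw [Nat.choose_succ_self_right] at h1
    omega

theorem MIX_choose2 {n a : ℕ} (ha : 2 ≤ a) (ha2 : a + 1 ≤ n) : 2 ≤ n.choose a := by
  have h1 : (a + 1).choose a ≤ n.choose a := Nat.choose_le_choose a ha2
  rw [Nat.choose_succ_self_right] at h1
  omega

/-- the coefficients of `ζ(n)` and of a double zeta value are proportional -/
theorem MIX_prop (K : Subfield ℝ) (y : ℝ) {n a : ℕ} (hn : Odd n)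
    (hY : LIN_Y n ∉ LIN_D K (n - 1)) (ha : 2 ≤ a) (ha2 : a + 1 ≤ n)
    (c c' : K) (hc : zt n = c * y) (hc' : dz a (n - a) = c' * y) :
    2 * (c' : ℝ) + c * (1 + (-1) ^ (n - a) * (n.choose a : ℝ)) = 0 := by
  obtain ⟨d, hd, h5⟩ := LINC_eul E3 K hn ha ha2
  by_contra hne
  apply hY
  set u : K := 1 + (-1) ^ (n - a) * (n.choose a : K) with hu
  have hu' : (1 + (-1) ^ (n - a) * (n.choose a : ℝ)) = (u : ℝ) := by
    rw [hu]; push_cast; rfl
  rw [hu'] at hne h5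
  have h7 : (2 * (c' : ℝ) + c * u) * LIN_Y n = c * d := by
    have h8 : (c : ℝ) * (2 * dz a (n - a) / Real.pi ^ n) = 2 * c' * LIN_Y n := by
      unfold LIN_Y
      rw [hc, hc']
      ring
    rw [h5] at h8
    linear_combination -h8
  have h9 : (2 * c' + c * u : K) ≠ 0 := by
    intro h0
    apply hne
    have h12 : ((2 * c' + c * u : K) : ℝ) = ((0 : K) : ℝ) := by rw [h0]
    exact h12
  have h10 : LIN_Y n = (2 * c' + c * u : K)⁻¹ • (c • d) := by
    rw [Subfield.smul_def, Subfield.smul_def, smul_eq_mul, smul_eq_mul]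
    have h11 : ((2 * c' + c * u : K) : ℝ) ≠ 0 := by
      intro h0
      exact h9 (Subtype.ext h0)
    rw [Subfield.coe_inv, eq_inv_mul_iff_mul_eq₀ h11]
    exact h7
  rw [h10]
  exact Submodule.smul_mem _ _ (Submodule.smul_mem _ _ hd)

/-- some line contains three double zeta values, or `ζ(n)` and one, or two of different parity -/
def Mixed (K : Subfield ℝ) (n : ℕ) : Prop :=
  ∃ y : ℝ, 3 ≤ (SC K y n).ncard ∨ (5 ≤ n ∧ (∃ c ∈ K, zt n = c * y) ∧ (SC K y n).Nonempty) ∨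
    ∃ a ∈ SC K y n, ∃ a' ∈ SC K y n, Odd (a + a')

theorem MIX_not (hC : St_CVX1) (K : Subfield ℝ) {n : ℕ} (hn : Odd n)
    (hY : LIN_Y n ∉ LIN_D K (n - 1)) : ¬ Mixed K n := by
  rintro ⟨y, h | ⟨h5, ⟨c, hc, hz⟩, a, ha, ha2, c', hc', hd⟩ | ⟨a, ⟨ha, ha2, c, hc, hd⟩, a',
    ⟨ha', ha2', c', hc', hd'⟩, hodd⟩⟩
  · exact LINC_two E3 hC K y hn hY h
  · have h1 := MIX_prop K y hn hY ha ha2 ⟨c, hc⟩ ⟨c', hc'⟩ hz hd
    simp only at h1
    have h2 : 2 * dz a (n - a) + zt n * (1 + (-1) ^ (n - a) * (n.choose a : ℝ)) = 0 := by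
      rw [hd, hz]
      linear_combination y * h1
    have h3 := LINC_pos E3 hn ha ha2
    have h4 := MIX_zt_ge (by omega : 2 ≤ n)
    have h6 := MIX_dz_le ha (by omega : 1 ≤ n - a) (by omega)
    have h7 := MIX_zt3
    have h8 : (5 : ℝ) ≤ (n.choose a : ℝ) := by exact_mod_cast MIX_choose h5 ha ha2
    rcases Nat.even_or_odd (n - a) with h9 | h9
    · rw [h9.neg_one_pow] at h2
      nlinarith
    · rw [h9.neg_one_pow] at h2
      nlinarith
  · have h1 := LINC_prop E3 K y hn hY ha ha2 ha' ha2' ⟨c, hc⟩ ⟨c', hc'⟩ hd hd'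
    simp only at h1
    have h2 : dz a' (n - a') * (1 + (-1) ^ (n - a) * (n.choose a : ℝ)) =
        dz a (n - a) * (1 + (-1) ^ (n - a') * (n.choose a' : ℝ)) := by
      rw [hd, hd']
      linear_combination y * h1
    have h3 := LINC_pos E3 hn ha ha2
    have h4 := LINC_pos E3 hn ha' ha2'
    have h5 : (2 : ℝ) ≤ (n.choose a : ℝ) := by exact_mod_cast MIX_choose2 ha ha2
    have h6 : (2 : ℝ) ≤ (n.choose a' : ℝ) := by exact_mod_cast MIX_choose2 ha' ha2'
    rcases Nat.even_or_odd (n - a) with h9 | h9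
    · have h10 : Odd (n - a') := by
        rw [Nat.odd_iff]
        obtain ⟨u, hu⟩ := h9
        obtain ⟨v, hv⟩ := hodd
        obtain ⟨w, hw⟩ := hn
        omega
      rw [h9.neg_one_pow, h10.neg_one_pow] at h2
      nlinarith
    · have h10 : Even (n - a') := by
        rw [Nat.even_iff]
        obtain ⟨u, hu⟩ := h9
        obtain ⟨v, hv⟩ := hodd
        omega
      rw [h9.neg_one_pow, h10.neg_one_pow] at h2
      nlinarith

theorem MIX_ex (K : Subfield ℝ) (x : ℝ) {n : ℕ} (hn : Odd n) (hn3 : 3 ≤ n) {c : ℝ} (hc : c ∈ K)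
    (h : zt n = c * x) : x / Real.pi ^ n ∈ LIN_D K n := by
  have hc0 : c ≠ 0 := by
    intro h0
    have := MIX_zt_ge (by omega : 2 ≤ n)
    rw [h, h0] at this
    linarith
  have h6 : x / Real.pi ^ n = (⟨c, hc⟩ : K)⁻¹ • LIN_Y n := by
    rw [Subfield.smul_def, smul_eq_mul, Subfield.coe_inv]
    unfold LIN_Y
    rw [h]
    change x / Real.pi ^ n = c⁻¹ * (c * x / Real.pi ^ n)
    field_simp
  rw [h6]
  exact Submodule.smul_mem _ _ (LIN_mem K hn hn3 le_rfl)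

theorem MIX (hC : St_CVX1) (K : Subfield ℝ) (hK : Transcendental K Real.pi) (x : ℝ)
    (hx : x ≠ 0) (M : ℕ) :
    {n : ℕ | Odd n ∧ 3 ≤ n ∧ n ≤ M ∧ ((∃ c ∈ K, zt n = c * x) ∨ (SC K x n).Nonempty)}.ncard +
      {n : ℕ | Odd n ∧ 3 ≤ n ∧ n ≤ M ∧ Mixed K n}.ncard ≤ (M - 1) / 2 := by
  have h1 : {n : ℕ | Odd n ∧ 3 ≤ n ∧ n ≤ M ∧ ((∃ c ∈ K, zt n = c * x) ∨
      (SC K x n).Nonempty)}.ncard ≤ Module.finrank K (LIN_D K M) := by
    apply LIN_card K hK x hx M
    rintro n ⟨ho, h3, hM, ⟨c, hc, h4⟩ | ⟨a, ha⟩⟩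
    · exact ⟨hM, LIN_mono K hM (MIX_ex K x ho h3 hc h4)⟩
    · exact ⟨hM, LIN_mono K hM (LINC_ex E3 K x ho h3 ha)⟩
  have h2 := LIN_dim K M
  have h3 : (LIN_G K M).ncard + {n : ℕ | Odd n ∧ 3 ≤ n ∧ n ≤ M ∧ Mixed K n}.ncard ≤
      (M - 1) / 2 := by
    have hfT : {n : ℕ | Odd n ∧ 3 ≤ n ∧ n ≤ M ∧ Mixed K n}.Finite :=
      (Set.finite_Iic M).subset (fun n hn => hn.2.2.1)
    rw [← Set.ncard_union_eq ?_ (LIN_Gfin K M) hfT]
    · refine (Set.ncard_le_ncard ?_ ?_).trans (LIN_odd M)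
      · rintro n (⟨a, b, c, -⟩ | ⟨a, b, c, -⟩)
        · exact ⟨a, b, c⟩
        · exact ⟨a, b, c⟩
      · exact (Set.finite_Iic M).subset (fun n hn => hn.2.2)
    · rw [Set.disjoint_left]
      rintro n ⟨a, -, -, hY⟩ ⟨-, -, -, h⟩
      exact MIX_not hC K a hY h
  omega

end Pool.Agent.OWD
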