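import Pool.Agent.OWD.MIX

/-!
# OWD MIXR: the theorem in the language of indices
-/

set_option autoImplicit false

namespace Pool.Agent.OWD

open Finset Filter
open Pool.Agent.Helper21 (mzv H zl Adm tendsto_zl)
open Pool.Agent.MZA (mz Idx)

theorem MIX_mz1 {n : ℕ} (hn : 2 ≤ n) : mz [n] = zt n := by
  have hadm : Adm [n] := by
    refine ⟨?_, ?_⟩
    · intro b hb
      have : b = n := by simpa using hb
      omega
    · intro b t hb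
      have := (List.cons.inj hb).1
      omega
  have h1 : mz [n] = zl [n] := Pool.Agent.MZA.main_mzv [n] hadm
  have h2 := tendsto_zl [n] hadm
  have h3 := (zt_sum hn).hasSum.tendsto_sum_nat
  have h4 : H [n] = fun N => ∑ p ∈ Finset.range N, 1 / ((p : ℝ) + 1) ^ n := by
    funext N
    rw [Pool.Agent.Helper21.H_cons]
    apply Finset.sum_congr rfl
    intro m _
    rw [Pool.Agent.Helper21.H_nil, mul_one, div_pow, one_pow]
    push_cast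
    rfl
  rw [h4] at h2
  rw [h1]
  exact tendsto_nhds_unique h2 h3

/-- the indices of depth at most two -/
theorem MIX_idx {n : ℕ} (hn : 3 ≤ n) {w : List ℕ} (hw : w ∈ Idx n) (hl : w.length ≤ 2) :
    w = [n] ∨ ∃ a, 2 ≤ a ∧ a + 1 ≤ n ∧ w = [a, n - a] := by
  obtain ⟨h1, h2, h3⟩ := hw
  match w, hl, h1, h2, h3 with
  | [], _, _, _, h3 =>
    have : (0 : ℕ) = n := by simpa using h3
    omega
  | [a], _, _, _, h3 =>
    have : a = n := by simpa using h3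
    exact Or.inl (by rw [this])
  | [a, b], _, h1, h2, h3 =>
    right
    have ha := h2 a [b] rfl
    have hb := h1 b (by simp)
    have hab : a + b = n := by simpa using h3
    exact ⟨a, ha, by omega, by rw [show n - a = b by omega]⟩

/-- mixed weights in the language of indices -/
def MixedW (K : Subfield ℝ) (n : ℕ) : Prop :=
  ∃ y : ℝ, 3 ≤ {w : List ℕ | w.length = 2 ∧ w ∈ Idx n ∧ ∃ c ∈ K, mz w = c * y}.ncard ∨
    (5 ≤ n ∧ (∃ c ∈ K, mz [n] = c * y) ∧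
      ∃ w : List ℕ, w.length = 2 ∧ w ∈ Idx n ∧ ∃ c ∈ K, mz w = c * y) ∨
    ∃ a b a' b' : ℕ, Odd (a + a') ∧ [a, b] ∈ Idx n ∧ [a', b'] ∈ Idx n ∧
      (∃ c ∈ K, mz [a, b] = c * y) ∧ ∃ c ∈ K, mz [a', b'] = c * y

theorem MIX_SC {K : Subfield ℝ} {y : ℝ} {n a b : ℕ} (h : [a, b] ∈ Idx n)
    (h' : ∃ c ∈ K, mz [a, b] = c * y) : a ∈ SC K y n := by
  obtain ⟨h1, h2, h3⟩ := h
  have ha := h2 a [b] rfl
  have hb := h1 b (by simp)
  have hab : a + b = n := by simpa using h3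
  obtain ⟨c, hc, h4⟩ := h'
  refine ⟨ha, by omega, c, hc, ?_⟩
  rw [← Br_mz, show n - a = b by omega]
  exact h4

theorem MIX_of {K : Subfield ℝ} {n : ℕ} (h : MixedW K n) : Mixed K n := by
  obtain ⟨y, h | ⟨h5, h6, w, hw, h7, h8⟩ | ⟨a, b, a', b', h1, h2, h3, h4, h5⟩⟩ := h
  · exact ⟨y, Or.inl (h.trans (ASMC_BB K y n))⟩
  · refine ⟨y, Or.inr (Or.inl ⟨h5, ?_, ?_⟩)⟩
    · rw [← MIX_mz1 (by omega)]
      exact h6
    · obtain ⟨a, b, rfl⟩ := List.length_eq_two.1 hw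
      exact ⟨a, MIX_SC h7 h8⟩
  · exact ⟨y, Or.inr (Or.inr ⟨a, MIX_SC h2 h4, a', MIX_SC h3 h5, h1⟩)⟩

theorem MIXR (hC : St_CVX1) (K : Subfield ℝ) (hK : Transcendental K Real.pi) (x : ℝ)
    (hx : x ≠ 0) (M : ℕ) :
    {n : ℕ | Odd n ∧ 3 ≤ n ∧ n ≤ M ∧
        ∃ w : List ℕ, w.length ≤ 2 ∧ w ∈ Idx n ∧ ∃ c ∈ K, mz w = c * x}.ncard +
      {n : ℕ | Odd n ∧ 3 ≤ n ∧ n ≤ M ∧ MixedW K n}.ncard ≤ (M - 1) / 2 := by
  refine le_trans (Nat.add_le_add ?_ ?_) (MIX hC K hK x hx M)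
  · refine Set.ncard_le_ncard ?_ ((Set.finite_Iic M).subset (fun n hn => hn.2.2.1))
    rintro n ⟨h1, h2, h3, w, hl, hw, h4⟩
    refine ⟨h1, h2, h3, ?_⟩
    rcases MIX_idx h2 hw hl with rfl | ⟨a, ha, ha2, rfl⟩
    · left
      rw [← MIX_mz1 (by omega)]
      exact h4
    · right
      exact ⟨a, MIX_SC hw h4⟩
  · refine Set.ncard_le_ncard ?_ ((Set.finite_Iic M).subset (fun n hn => hn.2.2.1))
    rintro n ⟨h1, h2, h3, h4⟩
    exact ⟨h1, h2, h3, MIX_of h4⟩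

theorem MIX_alg (x : ℝ) (hx : x ≠ 0) (w : List ℕ) :
    IsAlgebraic ℚ (mz w / x) ↔ ∃ c ∈ (algebraicClosure ℚ ℝ).toSubfield, mz w = c * x := by
  constructor
  · intro h3
    exact ⟨mz w / x, mem_algebraicClosure_iff.2 h3, (div_mul_cancel₀ _ hx).symm⟩
  · rintro ⟨c, hc, h3⟩
    rw [h3, mul_div_assoc, div_self hx, mul_one]
    exact mem_algebraicClosure_iff.1 hc

/-- the good weights -/
def GoodW (x : ℝ) (n : ℕ) : Prop :=
  {w : List ℕ | w.length ≤ 2 ∧ w ∈ Idx n ∧ IsAlgebraic ℚ (mz w / x)}.ncard ≤ 2 ∧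
  (5 ≤ n → IsAlgebraic ℚ (mz [n] / x) → ∀ w : List ℕ, w.length = 2 → w ∈ Idx n →
    ¬ IsAlgebraic ℚ (mz w / x)) ∧
  ∀ a b a' b' : ℕ, Odd (a + a') → [a, b] ∈ Idx n → [a', b'] ∈ Idx n →
    IsAlgebraic ℚ (mz [a, b] / x) → ¬ IsAlgebraic ℚ (mz [a', b'] / x)

theorem MIX_bad (x : ℝ) (hx : x ≠ 0) {n : ℕ} (hn : Odd n) (hn3 : 3 ≤ n) (h : ¬ GoodW x n) :
    (∃ w : List ℕ, w.length ≤ 2 ∧ w ∈ Idx n ∧
      ∃ c ∈ (algebraicClosure ℚ ℝ).toSubfield, mz w = c * x) ∧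
    MixedW (algebraicClosure ℚ ℝ).toSubfield n := by
  classical
  by_cases h1 : {w : List ℕ | w.length ≤ 2 ∧ w ∈ Idx n ∧ IsAlgebraic ℚ (mz w / x)}.ncard ≤ 2
  · by_cases h2 : 5 ≤ n → IsAlgebraic ℚ (mz [n] / x) → ∀ w : List ℕ, w.length = 2 → w ∈ Idx n →
        ¬ IsAlgebraic ℚ (mz w / x)
    · have h3 : ¬ ∀ a b a' b' : ℕ, Odd (a + a') → [a, b] ∈ Idx n → [a', b'] ∈ Idx n →
          IsAlgebraic ℚ (mz [a, b] / x) → ¬ IsAlgebraic ℚ (mz [a', b'] / x) :=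
        fun h4 => h ⟨h1, h2, h4⟩
      push Not at h3
      obtain ⟨a, b, a', b', k1, k2, k3, k4, k5⟩ := h3
      exact ⟨⟨[a, b], by simp, k2, (MIX_alg x hx _).1 k4⟩, x, Or.inr (Or.inr ⟨a, b, a', b', k1, k2,
        k3, (MIX_alg x hx _).1 k4, (MIX_alg x hx _).1 k5⟩)⟩
    · push Not at h2
      obtain ⟨h5, h6, w, h7, h8, h9⟩ := h2
      exact ⟨⟨w, by omega, h8, (MIX_alg x hx _).1 h9⟩, x, Or.inr (Or.inl ⟨h5,
        (MIX_alg x hx _).1 h6, w, h7, h8, (MIX_alg x hx _).1 h9⟩)⟩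
  · -- at least three values
    have hsub : {w : List ℕ | w.length ≤ 2 ∧ w ∈ Idx n ∧ IsAlgebraic ℚ (mz w / x)} ⊆
        insert [n] {w : List ℕ | w.length = 2 ∧ w ∈ Idx n ∧
          ∃ c ∈ (algebraicClosure ℚ ℝ).toSubfield, mz w = c * x} := by
      rintro w ⟨k1, k2, k3⟩
      rcases MIX_idx hn3 k2 k1 with rfl | ⟨a, ha, ha2, rfl⟩
      · exact Set.mem_insert _ _
      · exact Set.mem_insert_of_mem _ ⟨rfl, k2, (MIX_alg x hx _).1 k3⟩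
    have hfin : {w : List ℕ | w.length = 2 ∧ w ∈ Idx n ∧
        ∃ c ∈ (algebraicClosure ℚ ℝ).toSubfield, mz w = c * x}.Finite :=
      ASMC_BBfin (algebraicClosure ℚ ℝ).toSubfield x n
    by_cases h4 : IsAlgebraic ℚ (mz [n] / x)
    · -- `ζ(n)` is one of them
      have h5 : {w : List ℕ | w.length ≤ 2 ∧ w ∈ Idx n ∧ IsAlgebraic ℚ (mz w / x)}.ncard ≤
          {w : List ℕ | w.length = 2 ∧ w ∈ Idx n ∧
          ∃ c ∈ (algebraicClosure ℚ ℝ).toSubfield, mz w = c * x}.ncard + 1 :=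
        (Set.ncard_le_ncard hsub (hfin.insert _)).trans (Set.ncard_insert_le _ _)
      have h6 : {w : List ℕ | w.length = 2 ∧ w ∈ Idx n ∧
          ∃ c ∈ (algebraicClosure ℚ ℝ).toSubfield, mz w = c * x}.ncard ≤ n - 2 := by
        rw [← ASM_total n]
        apply Set.ncard_le_ncard
        · rintro w ⟨k1, k2, -⟩
          exact ⟨k1, k2⟩
        · refine ((Set.finite_Iic n).image (fun a : ℕ => [a, n - a])).subset ?_
          rintro w ⟨k1, k2⟩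
          rcases MIX_idx hn3 k2 (by omega) with rfl | ⟨a, ha, ha2, rfl⟩
          · simp at k1
          · exact ⟨a, by rw [Set.mem_Iic]; omega, rfl⟩
      have hn5 : 5 ≤ n := by
        obtain ⟨m, hm⟩ := hn
        omega
      have h7 : {w : List ℕ | w.length = 2 ∧ w ∈ Idx n ∧
          ∃ c ∈ (algebraicClosure ℚ ℝ).toSubfield, mz w = c * x}.Nonempty := by
        apply Set.nonempty_of_ncard_ne_zero
        omega
      obtain ⟨w, k1, k2, k3⟩ := h7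
      exact ⟨⟨w, by omega, k2, k3⟩, x, Or.inr (Or.inl ⟨hn5, (MIX_alg x hx _).1 h4, w, k1, k2, k3⟩)⟩
    · have hsub2 : {w : List ℕ | w.length ≤ 2 ∧ w ∈ Idx n ∧ IsAlgebraic ℚ (mz w / x)} ⊆
          {w : List ℕ | w.length = 2 ∧ w ∈ Idx n ∧
          ∃ c ∈ (algebraicClosure ℚ ℝ).toSubfield, mz w = c * x} := by
        intro w hw
        rcases hsub hw with h5 | h5
        · exact absurd (h5 ▸ hw.2.2) h4
        · exact h5
      have h5 := Set.ncard_le_ncard hsub2 hfin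
      have h7 : {w : List ℕ | w.length = 2 ∧ w ∈ Idx n ∧
          ∃ c ∈ (algebraicClosure ℚ ℝ).toSubfield, mz w = c * x}.Nonempty := by
        apply Set.nonempty_of_ncard_ne_zero
        omega
      obtain ⟨w, k1, k2, k3⟩ := h7
      exact ⟨⟨w, by omega, k2, k3⟩, x, Or.inl (by omega)⟩

theorem MIXR_half (hC : St_CVX1) (x : ℝ) (hx : x ≠ 0) (M : ℕ) :
    (M - 1) / 2 ≤ 2 * {n : ℕ | Odd n ∧ 3 ≤ n ∧ n ≤ M ∧ GoodW x n}.ncard := by
  have h := MIXR hC _ Br_pi x hx M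
  have hf : ∀ P : ℕ → Prop, {n : ℕ | Odd n ∧ 3 ≤ n ∧ n ≤ M ∧ P n}.Finite := fun P =>
    (Set.finite_Iic M).subset (fun n hn => hn.2.2.1)
  have h1 : {n : ℕ | Odd n ∧ 3 ≤ n ∧ n ≤ M ∧ ¬ GoodW x n}.ncard ≤
      {n : ℕ | Odd n ∧ 3 ≤ n ∧ n ≤ M ∧ ∃ w : List ℕ, w.length ≤ 2 ∧ w ∈ Idx n ∧
        ∃ c ∈ (algebraicClosure ℚ ℝ).toSubfield, mz w = c * x}.ncard := by
    apply Set.ncard_le_ncard _ (hf _)
    rintro n ⟨a, b, c, d⟩
    exact ⟨a, b, c, (MIX_bad x hx a b d).1⟩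
  have h2 : {n : ℕ | Odd n ∧ 3 ≤ n ∧ n ≤ M ∧ ¬ GoodW x n}.ncard ≤
      {n : ℕ | Odd n ∧ 3 ≤ n ∧ n ≤ M ∧ MixedW (algebraicClosure ℚ ℝ).toSubfield n}.ncard := by
    apply Set.ncard_le_ncard _ (hf _)
    rintro n ⟨a, b, c, d⟩
    exact ⟨a, b, c, (MIX_bad x hx a b d).2⟩
  have h3 : {n : ℕ | Odd n ∧ 3 ≤ n ∧ n ≤ M}.ncard ≤
      {n : ℕ | Odd n ∧ 3 ≤ n ∧ n ≤ M ∧ ¬ GoodW x n}.ncard +
        {n : ℕ | Odd n ∧ 3 ≤ n ∧ n ≤ M ∧ GoodW x n}.ncard := by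
    refine le_trans (Set.ncard_le_ncard ?_ ((hf _).union (hf _))) (Set.ncard_union_le _ _)
    rintro n ⟨a, b, c⟩
    by_cases h5 : GoodW x n
    · exact Or.inr ⟨a, b, c, h5⟩
    · exact Or.inl ⟨a, b, c, h5⟩
  rw [ASM_odd] at h3
  omega

end Pool.Agent.OWD
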