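import Pool.Agent.OWD.MIXR

/-!
# OWD MIXS: the span of the multiple zeta values of weight `n` and depth at most two
-/

set_option autoImplicit false

namespace Pool.Agent.OWD

open Finset
open Pool.Agent.MZA (mz Idx)

/-- the `K`-span of the multiple zeta values of weight `n` and depth at most two -/
noncomputable def Z2 (K : Subfield ℝ) (n : ℕ) : Submodule K ℝ :=
  Submodule.span K {y : ℝ | ∃ w : List ℕ, w.length ≤ 2 ∧ w ∈ Idx n ∧ y = mz w}

theorem MIX_gen (K : Subfield ℝ) {n : ℕ} (hn : Odd n) (hn3 : 3 ≤ n) {w : List ℕ}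
    (hl : w.length ≤ 2) (hw : w ∈ Idx n) : mz w / Real.pi ^ n ∈ LIN_D K n := by
  rcases MIX_idx hn3 hw hl with rfl | ⟨a, ha, ha2, rfl⟩
  · rw [MIX_mz1 (by omega)]
    exact LIN_mem K hn hn3 le_rfl
  · rw [Br_mz]
    obtain ⟨d, hd, h5⟩ := LINC_eul E3 K hn ha ha2
    have h20 : ((2 : K) : ℝ) = 2 := rfl
    have h6 : dz a (n - a) / Real.pi ^ n = (2 : K)⁻¹ • (2 * dz a (n - a) / Real.pi ^ n) := by
      rw [Subfield.smul_def, smul_eq_mul, Subfield.coe_inv, h20]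
      ring
    rw [h6, h5]
    apply Submodule.smul_mem
    apply Submodule.add_mem
    · have h7 : -(1 + (-1) ^ (n - a) * (n.choose a : ℝ)) * LIN_Y n =
          (-(1 + (-1) ^ (n - a) * (n.choose a : K)) : K) • LIN_Y n := by
        rw [Subfield.smul_def, smul_eq_mul]
        push_cast
        rfl
      rw [h7]
      exact Submodule.smul_mem _ _ (LIN_mem K hn hn3 le_rfl)
    · exact LIN_mono K (Nat.sub_le n 1) hd

theorem MIX_span (K : Subfield ℝ) {n : ℕ} (hn : Odd n) (hn3 : 3 ≤ n) {x : ℝ} (h : x ∈ Z2 K n) :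
    x / Real.pi ^ n ∈ LIN_D K n := by
  unfold Z2 at h
  induction h using Submodule.span_induction with
  | mem y hy =>
    obtain ⟨w, hl, hw, rfl⟩ := hy
    exact MIX_gen K hn hn3 hl hw
  | zero => rw [zero_div]; exact Submodule.zero_mem _
  | add y z _ _ hy hz => rw [add_div]; exact Submodule.add_mem _ hy hz
  | smul c y _ hy =>
    have : (c • y) / Real.pi ^ n = c • (y / Real.pi ^ n) := by
      rw [Subfield.smul_def, Subfield.smul_def, smul_eq_mul, smul_eq_mul, mul_div_assoc]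
    rw [this]
    exact Submodule.smul_mem _ _ hy

/-- `x` is in the span if one value is in the line `K x` -/
theorem MIX_in (K : Subfield ℝ) {n : ℕ} (hn : Odd n) (hn3 : 3 ≤ n) {x : ℝ} {w : List ℕ}
    (hl : w.length ≤ 2) (hw : w ∈ Idx n) {c : ℝ} (hc : c ∈ K) (h : mz w = c * x) :
    x ∈ Z2 K n := by
  have h0 : 0 < mz w := by
    rcases MIX_idx hn3 hw hl with rfl | ⟨a, ha, ha2, rfl⟩
    · rw [MIX_mz1 (by omega)]
      have := MIX_zt_ge (by omega : 2 ≤ n)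
      linarith
    · rw [Br_mz]
      exact LINC_pos E3 hn ha ha2
  have hc0 : c ≠ 0 := by
    intro h1
    rw [h, h1, zero_mul] at h0
    exact lt_irrefl _ h0
  have h1 : x = (⟨c, hc⟩ : K)⁻¹ • mz w := by
    rw [Subfield.smul_def, smul_eq_mul, Subfield.coe_inv, h]
    change x = c⁻¹ * (c * x)
    field_simp
  rw [h1]
  exact Submodule.smul_mem _ _ (Submodule.subset_span ⟨w, hl, hw, rfl⟩)

/-- **the general theorem** -/
theorem MIXS (hC : St_CVX1) (K : Subfield ℝ) (hK : Transcendental K Real.pi) (x : ℝ)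
    (hx : x ≠ 0) (M : ℕ) :
    {n : ℕ | Odd n ∧ 3 ≤ n ∧ n ≤ M ∧ x ∈ Z2 K n}.ncard +
      {n : ℕ | Odd n ∧ 3 ≤ n ∧ n ≤ M ∧ MixedW K n}.ncard ≤ (M - 1) / 2 := by
  have h1 : {n : ℕ | Odd n ∧ 3 ≤ n ∧ n ≤ M ∧ x ∈ Z2 K n}.ncard ≤
      Module.finrank K (LIN_D K M) := by
    apply LIN_card K hK x hx M
    rintro n ⟨ho, h3, hM, h4⟩
    exact ⟨hM, LIN_mono K hM (MIX_span K ho h3 h4)⟩
  have h2 := LIN_dim K M
  have h3 : (LIN_G K M).ncard + {n : ℕ | Odd n ∧ 3 ≤ n ∧ n ≤ M ∧ MixedW K n}.ncard ≤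
      (M - 1) / 2 := by
    have hfT : {n : ℕ | Odd n ∧ 3 ≤ n ∧ n ≤ M ∧ MixedW K n}.Finite :=
      (Set.finite_Iic M).subset (fun n hn => hn.2.2.1)
    rw [← Set.ncard_union_eq ?_ (LIN_Gfin K M) hfT]
    · refine (Set.ncard_le_ncard ?_ ?_).trans (LIN_odd M)
      · rintro n (⟨a, b, c, -⟩ | ⟨a, b, c, -⟩)
        · exact ⟨a, b, c⟩
        · exact ⟨a, b, c⟩
      · exact (Set.finite_Iic M).subset (fun n hn => hn.2.2)
    · rw [Set.disjoint_left]
      rintro n ⟨a, -, -, hY⟩ ⟨-, -, -, h⟩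
      exact MIX_not hC K a hY (MIX_of h)
  omega

end Pool.Agent.OWD
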