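import Pool.Agent.OWD.ASMC
import Pool.Agent.OWD.E3
import Pool.Agent.OWD.CVX

set_option autoImplicit false

/-!
# OWD: the value of depth one and pairs of different parity (second copy)
-/

namespace Pool.Agent.OWD.PB

open Finset
open Pool.Agent.OWD
open Pool.Agent.MZA (mz Idx)

theorem dz_le {a b : ℕ} (ha : 2 ≤ a) (hb : 1 ≤ b) (hab : 4 ≤ a + b) : dz a b ≤ dz 2 1 := by
  refine (dt_sum ha hb hab).tsum_le_tsum (fun p => ?_) dt21_sum
  change 1 / ((((p.1 : ℝ) + 1) + ((p.2 : ℝ) + 1)) ^ a * ((p.2 : ℝ) + 1) ^ b) ≤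
    1 / ((((p.1 : ℝ) + 1) + ((p.2 : ℝ) + 1)) ^ 2 * ((p.2 : ℝ) + 1) ^ 1)
  have h1 : (1 : ℝ) ≤ ((p.1 : ℝ) + 1) + ((p.2 : ℝ) + 1) := by
    have h2 : (0 : ℝ) ≤ p.1 := Nat.cast_nonneg _
    have h3 : (0 : ℝ) ≤ p.2 := Nat.cast_nonneg _
    linarith
  have h4 : (1 : ℝ) ≤ (p.2 : ℝ) + 1 := by
    have h3 : (0 : ℝ) ≤ p.2 := Nat.cast_nonneg _
    linarith
  apply one_div_le_one_div_of_le (by positivity)
  exact mul_le_mul (pow_le_pow_right₀ h1 ha) (pow_le_pow_right₀ h4 hb) (by positivity)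
    (by positivity)

theorem zt_two : zt 2 = Real.pi ^ 2 / 6 := by
  have h := hasSum_zeta_two
  have h2 : HasSum (fun n : ℕ => 1 / ((n : ℝ) + 1) ^ 2) (Real.pi ^ 2 / 6) := by
    have h3 := (hasSum_nat_add_iff' (f := fun n : ℕ => (1 : ℝ) / (n : ℝ) ^ 2) 1).2 h
    simp only [Finset.sum_range_one, Nat.cast_zero, ne_eq, OfNat.ofNat_ne_zero, not_false_eq_true,
      zero_pow, div_zero, sub_zero] at h3
    refine h3.congr_fun ?_
    intro n
    push_cast
    rfl
  exact h2.tsum_eq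

theorem zt_three_lt : zt 3 < 2 := by
  have h1 : zt 3 ≤ zt 2 := by
    refine (zt_sum (by norm_num : 2 ≤ 3)).tsum_le_tsum (fun p => ?_) (zt_sum le_rfl)
    have h2 : (1 : ℝ) ≤ (p : ℝ) + 1 := by
      have h3 : (0 : ℝ) ≤ p := Nat.cast_nonneg _
      linarith
    apply one_div_le_one_div_of_le (by positivity)
    exact pow_le_pow_right₀ h2 (by norm_num)
  have h3 := Real.pi_lt_d2
  have h4 := Real.pi_pos
  rw [zt_two] at h1
  nlinarith

theorem zt_ge_one {n : ℕ} (hn : 2 ≤ n) : 1 ≤ zt n := by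
  have h := (zt_sum hn).le_tsum 0 (fun p _ => by positivity)
  unfold zt
  simpa using h

/-- the coefficient of the new value vanishes -/
theorem coef {K : Subfield ℝ} {n : ℕ} (hY : LIN_Y n ∉ LIN_D K (n - 1)) (u : K) {d : ℝ}
    (hd : d ∈ LIN_D K (n - 1)) (h : (u : ℝ) * LIN_Y n = d) : u = 0 := by
  by_contra hu
  apply hY
  have hu' : (u : ℝ) ≠ 0 := by
    intro h0
    exact hu (Subtype.ext h0)
  have h1 : LIN_Y n = u⁻¹ • d := by
    rw [Subfield.smul_def, smul_eq_mul, Subfield.coe_inv, eq_inv_mul_iff_mul_eq₀ hu']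
    exact h
  rw [h1]
  exact Submodule.smul_mem _ _ hd

theorem choose_ge {n a : ℕ} (ha : 1 ≤ a) (ha2 : a + 1 ≤ n) : n ≤ n.choose a := by
  induction n generalizing a with
  | zero => omega
  | succ n ih =>
    obtain ⟨a, rfl⟩ : ∃ b, a = b + 1 := ⟨a - 1, by omega⟩
    rw [Nat.choose_succ_succ']
    rcases Nat.eq_zero_or_pos a with h0 | h0
    · subst h0
      simp
    · rcases Nat.lt_or_ge (a + 1) n with h | h
      · have h1 := ih (a := a + 1) (by omega) (by omega)
        have h2 : 0 < n.choose a := Nat.choose_pos (by omega)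
        omega
      · have h1 := ih (a := a) h0 (by omega)
        have h2 : 0 < n.choose (a + 1) := Nat.choose_pos (by omega)
        omega

/-- two double zeta values with first entries of different parity -/
theorem pair {K : Subfield ℝ} {y : ℝ} {n a b : ℕ} (hn : Odd n)
    (hY : LIN_Y n ∉ LIN_D K (n - 1)) (ha : 2 ≤ a) (ha2 : a + 1 ≤ n) (hb : 2 ≤ b)
    (hb2 : b + 1 ≤ n) (hab : Odd (a + b)) (c c' : K) (hc : dz a (n - a) = c * y)
    (hc' : dz b (n - b) = c' * y) : False := by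
  wlog hev : Even (n - a) generalizing a b c c' with H
  · refine H hb hb2 ha ha2 (by rwa [add_comm]) c' c hc' hc ?_
    rw [Nat.not_even_iff_odd] at hev
    obtain ⟨i, hi⟩ := hev
    obtain ⟨j, hj⟩ := hab
    obtain ⟨k, hk⟩ := hn
    exact ⟨2 * k - j - i, by omega⟩
  have hod : Odd (n - b) := by
    obtain ⟨i, hi⟩ := hev
    obtain ⟨j, hj⟩ := hab
    obtain ⟨k, hk⟩ := hn
    rw [← Nat.not_even_iff_odd]
    rintro ⟨l, hl⟩
    omega
  have h := LINC_prop E3 K y hn hY ha ha2 hb hb2 c c' hc hc'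
  have p1 := LINC_pos E3 hn ha ha2
  have p2 := LINC_pos E3 hn hb hb2
  rw [hev.neg_one_pow, hod.neg_one_pow] at h
  have h1 : (1 : ℝ) ≤ n.choose a := by
    exact_mod_cast Nat.choose_pos (by omega : a ≤ n)
  have h2 : (3 : ℝ) ≤ n.choose b := by
    have := choose_ge (n := n) (a := b) (by omega) hb2
    exact_mod_cast (by omega : 3 ≤ n.choose b)
  have h3 : dz b (n - b) * (1 + 1 * (n.choose a : ℝ)) =
      dz a (n - a) * (1 + -1 * (n.choose b : ℝ)) := by
    rw [hc, hc']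
    linear_combination y * h
  have h4 : 0 < dz b (n - b) * (1 + 1 * (n.choose a : ℝ)) := mul_pos p2 (by linarith)
  have h5 : 0 < dz a (n - a) * (-(1 + -1 * (n.choose b : ℝ))) := mul_pos p1 (by linarith)
  rw [h3] at h4
  linarith

/-- the value of depth one and a double zeta value -/
theorem single {K : Subfield ℝ} {y : ℝ} {n a : ℕ} (hn : Odd n) (hn5 : 5 ≤ n)
    (hY : LIN_Y n ∉ LIN_D K (n - 1)) (ha : 2 ≤ a) (ha2 : a + 1 ≤ n) (c c' : K)
    (hc : zt n = c * y) (hc' : dz a (n - a) = c' * y) : False := by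
  obtain ⟨d, hd, h5⟩ := LINC_eul E3 K hn ha ha2
  have hz := zt_ge_one (n := n) (by omega)
  have hc0 : (c : ℝ) ≠ 0 := by
    intro h0
    rw [hc, h0, zero_mul] at hz
    linarith
  have hpi : (0 : ℝ) < Real.pi ^ n := pow_pos Real.pi_pos n
  have h6 : (((2 * c' + c * (1 + (-1) ^ (n - a) * (n.choose a : K)) : K)) : ℝ) * LIN_Y n =
      c * d := by
    have h7 : (c : ℝ) * (2 * dz a (n - a) / Real.pi ^ n) = 2 * c' * (zt n / Real.pi ^ n) := by
      rw [hc, hc']
      ring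
    rw [h5] at h7
    push_cast
    change (2 * (c' : ℝ) + c * (1 + (-1) ^ (n - a) * (n.choose a : ℝ))) * LIN_Y n = c * d
    unfold LIN_Y at *
    linear_combination -h7
  have h8 := coef hY _ ((LIN_D K (n - 1)).smul_mem c hd) (by
    rw [Subfield.smul_def, smul_eq_mul]
    exact h6)
  have h9 : 2 * (c' : ℝ) + c * (1 + (-1) ^ (n - a) * (n.choose a : ℝ)) = 0 := by
    have := congrArg (Subtype.val : K → ℝ) h8
    push_cast at this
    exact this
  have h10 : 2 * dz a (n - a) = -(1 + (-1) ^ (n - a) * (n.choose a : ℝ)) * zt n := by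
    rw [hc, hc']
    linear_combination y * h9
  have p1 := LINC_pos E3 hn ha ha2
  have h11 := dz_le (a := a) (b := n - a) ha (by omega) (by omega)
  have h12 : dz 2 1 < 2 := E3 ▸ zt_three_lt
  have hC : (5 : ℝ) ≤ n.choose a := by
    have := choose_ge (n := n) (a := a) (by omega) ha2
    exact_mod_cast (by omega : 5 ≤ n.choose a)
  rcases Nat.even_or_odd (n - a) with he | ho
  · rw [he.neg_one_pow] at h10
    nlinarith
  · rw [ho.neg_one_pow] at h10
    nlinarith

end Pool.Agent.OWD.PB
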