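import Pool.Agent.OWD.SPN
import Pool.Agent.OWD.MIX
import Pool.Agent.MZF.Flg

/-!
# OWD: the space form of the first number
-/

set_option autoImplicit false

namespace Pool.Agent.OWD

open Finset
open Pool.Agent.MZA (mz Idx)

/-- the `K`-span of the multiple zeta values of weight `n` and depth at most two -/
noncomputable def SpanTwo (K : Subfield ℝ) (n : ℕ) : Submodule K ℝ :=
  Submodule.span K {y : ℝ | ∃ w : List ℕ, w ∈ Idx n ∧ w.length ≤ 2 ∧ mz w = y}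

/-- the space form of the first number -/
theorem SPV (h21 : dz 2 1 = zt 3) (K : Subfield ℝ) (hK : Transcendental K Real.pi)
    (V : Submodule K ℝ) [Module.Finite K V] (M : ℕ) :
    {n : ℕ | Odd n ∧ 3 ≤ n ∧ n ≤ M ∧ ∃ v ∈ V, v ≠ 0 ∧
      v ∈ Submodule.span K {y : ℝ | ∃ w : List ℕ, w ∈ Idx n ∧ w.length ≤ 2 ∧ mz w = y}}.ncard ≤
      Module.finrank K (LIN_D K M) * Module.finrank K V := by
  classical
  have := LIN_fin K M
  have hfin : {n : ℕ | Odd n ∧ 3 ≤ n ∧ n ≤ M ∧ ∃ v ∈ V, v ≠ 0 ∧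
      v ∈ Submodule.span K {y : ℝ | ∃ w : List ℕ, w ∈ Idx n ∧ w.length ≤ 2 ∧ mz w = y}}.Finite :=
    (Set.finite_Iic M).subset (fun n hn => hn.2.2.1)
  rw [Set.ncard_eq_toFinset_card _ hfin]
  apply Pool.Agent.MZF.thm_Flg K ℝ Real.pi hK (LIN_D K M) V
  intro n hn
  obtain ⟨h1, h2, h3, v, hv, hv0, hs⟩ := hfin.mem_toFinset.1 hn
  have hpi : (Real.pi : ℝ) ^ n ≠ 0 := pow_ne_zero _ Real.pi_ne_zero
  refine ⟨v / Real.pi ^ n, LIN_mono K h3 (SPN_span h21 K h1 h2 hs), div_ne_zero hv0 hpi, ?_⟩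
  rw [mul_div_cancel₀ _ hpi]
  exact hv

/-- the weights which are not mixed -/
theorem MIXD (hC : St_CVX1) (K : Subfield ℝ) (M : ℕ) :
    Module.finrank K (LIN_D K M) + {n : ℕ | Odd n ∧ 3 ≤ n ∧ n ≤ M ∧ Mixed K n}.ncard ≤
      (M - 1) / 2 := by
  have h2 := LIN_dim K M
  have h3 : (LIN_G K M).ncard + {n : ℕ | Odd n ∧ 3 ≤ n ∧ n ≤ M ∧ Mixed K n}.ncard ≤
      (M - 1) / 2 := by
    have hfT : {n : ℕ | Odd n ∧ 3 ≤ n ∧ n ≤ M ∧ Mixed K n}.Finite :=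
      (Set.finite_Iic M).subset (fun n hn => hn.2.2.1)
    rw [← Set.ncard_union_eq ?_ (LIN_Gfin K M) hfT]
    · refine (Set.ncard_le_ncard ?_ ?_).trans (LIN_odd M)
      · rintro n (⟨a, b, c, -⟩ | ⟨a, b, c, -⟩)
        · exact ⟨a, b, c⟩
        · exact ⟨a, b, c⟩
      · exact (Set.finite_Iic M).subset (fun n hn => hn.2.2)
    · rw [Set.disjoint_left]
      rintro n ⟨a, -, -, hY⟩ ⟨-, -, -, h⟩
      exact MIX_not hC K a hY h
  omega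

/-- **the main clause, space form** -/
theorem SPVM (h21 : dz 2 1 = zt 3) (hC : St_CVX1) (K : Subfield ℝ) (hK : Transcendental K Real.pi)
    (V : Submodule K ℝ) [Module.Finite K V] (M : ℕ) :
    {n : ℕ | Odd n ∧ 3 ≤ n ∧ n ≤ M ∧ ∃ v ∈ V, v ≠ 0 ∧
      v ∈ Submodule.span K {y : ℝ | ∃ w : List ℕ, w ∈ Idx n ∧ w.length ≤ 2 ∧ mz w = y}}.ncard +
      Module.finrank K V * {n : ℕ | Odd n ∧ 3 ≤ n ∧ n ≤ M ∧ Mixed K n}.ncard ≤
      Module.finrank K V * ((M - 1) / 2) := by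
  have h1 := SPV h21 K hK V M
  have h2 := MIXD hC K M
  have h3 := Nat.mul_le_mul_left (Module.finrank K V) h2
  rw [Nat.mul_add] at h3
  rw [Nat.mul_comm] at h1
  omega

/-- the share `1 / (k + 1)` -/
theorem SPVC (h21 : dz 2 1 = zt 3) (hC : St_CVX1) (K : Subfield ℝ) (hK : Transcendental K Real.pi)
    (V : Submodule K ℝ) [Module.Finite K V] (M : ℕ) :
    (M - 1) / 2 ≤ (Module.finrank K V + 1) * {n : ℕ | Odd n ∧ 3 ≤ n ∧ n ≤ M ∧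
      ((∀ v ∈ V, v ∈ Submodule.span K {y : ℝ | ∃ w : List ℕ, w ∈ Idx n ∧ w.length ≤ 2 ∧ mz w = y} →
        v = 0) ∨ ¬ Mixed K n)}.ncard := by
  classical
  obtain ⟨k, hk⟩ : ∃ k, k = Module.finrank K V := ⟨_, rfl⟩
  have h := SPVM h21 hC K hK V M
  rw [← hk] at h ⊢
  set S1 : Set ℕ := {n : ℕ | Odd n ∧ 3 ≤ n ∧ n ≤ M ∧ ∃ v ∈ V, v ≠ 0 ∧
      v ∈ Submodule.span K {y : ℝ | ∃ w : List ℕ, w ∈ Idx n ∧ w.length ≤ 2 ∧ mz w = y}} with hS1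
  set S2 : Set ℕ := {n : ℕ | Odd n ∧ 3 ≤ n ∧ n ≤ M ∧ Mixed K n} with hS2
  set G : Set ℕ := {n : ℕ | Odd n ∧ 3 ≤ n ∧ n ≤ M ∧
      ((∀ v ∈ V, v ∈ Submodule.span K {y : ℝ | ∃ w : List ℕ, w ∈ Idx n ∧ w.length ≤ 2 ∧ mz w = y} →
        v = 0) ∨ ¬ Mixed K n)} with hG
  have f1 : S1.Finite := (Set.finite_Iic M).subset (fun n hn => hn.2.2.1)
  have f2 : S2.Finite := (Set.finite_Iic M).subset (fun n hn => hn.2.2.1)
  have fG : G.Finite := (Set.finite_Iic M).subset (fun n hn => hn.2.2.1)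
  have h1 : (S1 ∩ S2).ncard ≤ S1.ncard := Set.ncard_le_ncard Set.inter_subset_left f1
  have h2 : (S1 ∩ S2).ncard ≤ S2.ncard := Set.ncard_le_ncard Set.inter_subset_right f2
  have h3 : (M - 1) / 2 ≤ (S1 ∩ S2).ncard + G.ncard := by
    rw [← ASM_odd M]
    refine le_trans (Set.ncard_le_ncard ?_ ((f1.inter_of_left _).union fG))
      (Set.ncard_union_le _ _)
    rintro n ⟨a, b, c⟩
    by_cases hm : Mixed K n
    · by_cases hv : ∀ v ∈ V, v ∈ Submodule.span K {y : ℝ | ∃ w : List ℕ, w ∈ Idx n ∧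
          w.length ≤ 2 ∧ mz w = y} → v = 0
      · exact Or.inr ⟨a, b, c, Or.inl hv⟩
      · push Not at hv
        obtain ⟨v, hv1, hv2, hv3⟩ := hv
        exact Or.inl ⟨⟨a, b, c, v, hv1, hv3, hv2⟩, a, b, c, hm⟩
    · exact Or.inr ⟨a, b, c, Or.inr hm⟩
  obtain ⟨N, hN⟩ : ∃ N, N = (M - 1) / 2 := ⟨_, rfl⟩
  obtain ⟨b, hb⟩ : ∃ b, b = (S1 ∩ S2).ncard := ⟨_, rfl⟩
  rw [← hN] at h h3 ⊢
  rw [← hb] at h1 h2 h3
  have h4 : k * b ≤ k * S2.ncard := Nat.mul_le_mul_left k h2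
  have h5 : b + k * b ≤ k * N := by omega
  have h6 : k * N ≤ k * b + k * G.ncard := by
    rw [← Nat.mul_add]
    exact Nat.mul_le_mul_left k h3
  have h7 : b ≤ k * G.ncard := by omega
  rw [Nat.add_mul, Nat.one_mul]
  omega

end Pool.Agent.OWD
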