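import Pool.Agent.OWD.LINC
import Pool.Agent.OWD.Br

/-!
# OWD: the span of the multiple zeta values of depth at most two
-/

set_option autoImplicit false

namespace Pool.Agent.OWD

open Finset
open Pool.Agent.MZA (mz Idx)
open Pool.Agent.Helper21 (mzv)

/-- natural numbers and sequences of one positive integer -/
def SPN_equiv : ℕ ≃ {n : Fin 1 → ℕ // StrictAnti n ∧ ∀ i, 1 ≤ n i} where
  toFun p := ⟨![p + 1], by
    constructor
    · intro i j hij
      fin_cases i
      fin_cases j
      simp at hij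
    · intro i
      fin_cases i
      simp⟩
  invFun n := n.1 0 - 1
  left_inv p := by
    simp
  right_inv n := by
    rcases n with ⟨n, h1, h2⟩
    have h4 := h2 0
    apply Subtype.ext
    funext i
    fin_cases i
    change n 0 - 1 + 1 = n 0
    omega

theorem mz_one (a : ℕ) : mz [a] = zt a := by
  unfold Pool.Agent.MZA.mz mzv zt
  change (∑' n : {n : Fin 1 → ℕ // StrictAnti n ∧ ∀ i, 1 ≤ n i},
    ∏ i : Fin 1, (1 / (n.1 i : ℝ)) ^ ([a].get i)) = _
  rw [← SPN_equiv.tsum_eq]
  apply tsum_congr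
  intro p
  rw [Fin.prod_univ_one]
  change (1 / ((p + 1 : ℕ) : ℝ)) ^ a = _
  push_cast
  rw [one_div_pow]

/-- the generators -/
theorem SPN_gen (h21 : dz 2 1 = zt 3) (K : Subfield ℝ) {n : ℕ} (hn : Odd n) (hn3 : 3 ≤ n)
    {w : List ℕ} (hw : w ∈ Idx n) (hl : w.length ≤ 2) : mz w / Real.pi ^ n ∈ LIN_D K n := by
  obtain ⟨h1, h2, h3⟩ := hw
  have h2K : (2 : K) ≠ 0 := two_ne_zero
  rcases Nat.lt_or_ge w.length 1 with h | h
  · have h0 : w = [] := List.length_eq_zero_iff.1 (by omega)
    rw [h0] at h3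
    simp at h3
    omega
  · rcases Nat.lt_or_ge w.length 2 with h' | h'
    · obtain ⟨a, rfl⟩ := List.length_eq_one_iff.1 (by omega : w.length = 1)
      have ha : a = n := by simpa using h3
      subst ha
      rw [mz_one]
      exact LIN_mem K hn hn3 le_rfl
    · obtain ⟨a, b, rfl⟩ := List.length_eq_two.1 (by omega : w.length = 2)
      have ha := h2 a [b] rfl
      have hb := h1 b (by simp)
      have hab : a + b = n := by simpa using h3
      have hba : n - a = b := by omega
      rw [Br_mz, ← hba]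
      obtain ⟨d, hd, h5⟩ := LINC_eul h21 K hn ha (by omega : a + 1 ≤ n)
      have h6 : dz a (n - a) / Real.pi ^ n = (2 : K)⁻¹ • (2 * dz a (n - a) / Real.pi ^ n) := by
        have h20 : ((2 : K) : ℝ) = 2 := rfl
        rw [Subfield.smul_def, smul_eq_mul, Subfield.coe_inv, h20]
        ring
      rw [h6, h5]
      apply Submodule.smul_mem
      apply Submodule.add_mem
      · have h7 : -(1 + (-1) ^ (n - a) * (n.choose a : ℝ)) * LIN_Y n =
            (-(1 + (-1) ^ (n - a) * (n.choose a : K)) : K) • LIN_Y n := by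
          rw [Subfield.smul_def, smul_eq_mul]
          push_cast
          rfl
        rw [h7]
        exact Submodule.smul_mem _ _ (LIN_mem K hn hn3 le_rfl)
      · exact LIN_mono K (Nat.sub_le n 1) hd

/-- the span -/
theorem SPN_span (h21 : dz 2 1 = zt 3) (K : Subfield ℝ) {n : ℕ} (hn : Odd n) (hn3 : 3 ≤ n) {x : ℝ}
    (hx : x ∈ Submodule.span K {y : ℝ | ∃ w : List ℕ, w ∈ Idx n ∧ w.length ≤ 2 ∧ mz w = y}) :
    x / Real.pi ^ n ∈ LIN_D K n := by
  induction hx using Submodule.span_induction with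
  | mem y hy =>
    obtain ⟨w, hw, hl, rfl⟩ := hy
    exact SPN_gen h21 K hn hn3 hw hl
  | zero =>
    rw [zero_div]
    exact Submodule.zero_mem _
  | add y z _ _ h1 h2 =>
    rw [add_div]
    exact Submodule.add_mem _ h1 h2
  | smul c y _ h1 =>
    have e : (c • y) / Real.pi ^ n = c • (y / Real.pi ^ n) := by
      rw [Subfield.smul_def, Subfield.smul_def, smul_eq_mul, smul_eq_mul, mul_div_assoc]
    rw [e]
    exact Submodule.smul_mem _ _ h1

/-- **the first number**: `x` is a combination of the multiple zeta values of weight `n` and depth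
at most two for at most `dim D_M` odd `n ≤ M` -/
theorem SPN (h21 : dz 2 1 = zt 3) (K : Subfield ℝ) (hK : Transcendental K Real.pi) (x : ℝ)
    (hx : x ≠ 0) (M : ℕ) :
    {n : ℕ | Odd n ∧ 3 ≤ n ∧ n ≤ M ∧
      x ∈ Submodule.span K {y : ℝ | ∃ w : List ℕ, w ∈ Idx n ∧ w.length ≤ 2 ∧ mz w = y}}.ncard ≤
      Module.finrank K (LIN_D K M) := by
  apply LIN_card K hK x hx M
  rintro n ⟨h1, h2, h3, h4⟩
  exact ⟨h3, LIN_mono K h3 (SPN_span h21 K h1 h2 h4)⟩

end Pool.Agent.OWD
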