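import Pool.Agent.OWD.MIX
import Pool.Agent.OWD.CVX
import Pool.Agent.OWD.ASMC
import Pool.Agent.OWD.SPN
import Pool.Agent.OWD.HALF

/-!
# OWD: words, the general form and the corollary
-/

set_option autoImplicit false

namespace Pool.Agent.OWD

open Finset
open Pool.Agent.MZA (mz Idx)

/-- some line `K y` contains three double zeta values of weight `n`, or `ζ(n)`, `n ≥ 5`, and a double zeta
value of weight `n`, or `ζ(a, b)` and `ζ(a', b')` of weight `n` with `a + a'` odd -/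
def MixW (K : Subfield ℝ) (n : ℕ) : Prop :=
  ∃ y : ℝ, 3 ≤ {w : List ℕ | w.length = 2 ∧ w ∈ Idx n ∧ ∃ c ∈ K, mz w = c * y}.ncard ∨
    (5 ≤ n ∧ (∃ c ∈ K, mz [n] = c * y) ∧
      ∃ w : List ℕ, w.length = 2 ∧ w ∈ Idx n ∧ ∃ c ∈ K, mz w = c * y) ∨
    ∃ a b a' b' : ℕ, [a, b] ∈ Idx n ∧ [a', b'] ∈ Idx n ∧ Odd (a + a') ∧
      (∃ c ∈ K, mz [a, b] = c * y) ∧ ∃ c ∈ K, mz [a', b'] = c * y

theorem WRD_Idx {a b n : ℕ} (h : [a, b] ∈ Idx n) : 2 ≤ a ∧ 1 ≤ b ∧ a + b = n := by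
  obtain ⟨h1, h2, h3⟩ := h
  exact ⟨h2 a [b] rfl, h1 b (by simp), by simpa using h3⟩

theorem WRD_SC {K : Subfield ℝ} {y : ℝ} {n a b : ℕ} (h : [a, b] ∈ Idx n)
    (hc : ∃ c ∈ K, mz [a, b] = c * y) : a ∈ SC K y n := by
  obtain ⟨h1, h2, h3⟩ := WRD_Idx h
  obtain ⟨c, hc, h4⟩ := hc
  have hb : n - a = b := by omega
  refine ⟨h1, by omega, c, hc, ?_⟩
  rw [← Br_mz, hb]
  exact h4

theorem WRD_mix {K : Subfield ℝ} {n : ℕ} (h : MixW K n) : Mixed K n := by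
  obtain ⟨y, h | ⟨h5, ⟨c, hc, hz⟩, w, hw2, hw, hc'⟩ | ⟨a, b, a', b', h1, h2, h3, h4, h5⟩⟩ := h
  · exact ⟨y, Or.inl (h.trans (ASMC_BB K y n))⟩
  · obtain ⟨a, b, rfl⟩ := List.length_eq_two.1 hw2
    refine ⟨y, Or.inr (Or.inl ⟨h5, ⟨c, hc, ?_⟩, a, WRD_SC hw hc'⟩)⟩
    rw [← mz_one n]
    exact hz
  · exact ⟨y, Or.inr (Or.inr ⟨a, WRD_SC h1 h4, a', WRD_SC h2 h5, h3⟩)⟩

theorem WRD_cnt (K : Subfield ℝ) (M : ℕ) : Module.finrank K (LIN_D K M) +
    {n : ℕ | Odd n ∧ 3 ≤ n ∧ n ≤ M ∧ MixW K n}.ncard ≤ (M - 1) / 2 := by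
  have h2 := LIN_dim K M
  have h3 : (LIN_G K M).ncard + {n : ℕ | Odd n ∧ 3 ≤ n ∧ n ≤ M ∧ MixW K n}.ncard ≤
      (M - 1) / 2 := by
    have hfT : {n : ℕ | Odd n ∧ 3 ≤ n ∧ n ≤ M ∧ MixW K n}.Finite :=
      (Set.finite_Iic M).subset (fun n hn => hn.2.2.1)
    rw [← Set.ncard_union_eq ?_ (LIN_Gfin K M) hfT]
    · refine (Set.ncard_le_ncard ?_ ?_).trans (LIN_odd M)
      · rintro n (⟨a, b, c, -⟩ | ⟨a, b, c, -⟩)
        · exact ⟨a, b, c⟩
        · exact ⟨a, b, c⟩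
      · exact (Set.finite_Iic M).subset (fun n hn => hn.2.2)
    · rw [Set.disjoint_left]
      rintro n ⟨a, -, -, hY⟩ ⟨-, -, -, h⟩
      exact MIX_not CVX1 K a hY (WRD_mix h)
  omega

/-- the general form -/
theorem WRD (K : Subfield ℝ) (hK : Transcendental K Real.pi) (x : ℝ) (hx : x ≠ 0) (M : ℕ) :
    {n : ℕ | Odd n ∧ 3 ≤ n ∧ n ≤ M ∧
        x ∈ Submodule.span K {y : ℝ | ∃ w, w ∈ Idx n ∧ w.length ≤ 2 ∧ mz w = y}}.ncard +
      {n : ℕ | Odd n ∧ 3 ≤ n ∧ n ≤ M ∧ MixW K n}.ncard ≤ (M - 1) / 2 := by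
  have h1 := SPN E3 K hK x hx M
  have h2 := WRD_cnt K M
  omega

theorem WRD_alg {x : ℝ} (hx : x ≠ 0) {w : List ℕ} :
    IsAlgebraic ℚ (mz w / x) ↔ ∃ c ∈ (algebraicClosure ℚ ℝ).toSubfield, mz w = c * x := by
  constructor
  · intro h3
    exact ⟨mz w / x, mem_algebraicClosure_iff.2 h3, (div_mul_cancel₀ _ hx).symm⟩
  · rintro ⟨c, hc, h⟩
    rw [h, mul_div_cancel_right₀ _ hx]
    exact mem_algebraicClosure_iff.1 hc

theorem WRD_ne {n : ℕ} (hn : Odd n) (h3 : 3 ≤ n) {w : List ℕ} (hw : w ∈ Idx n)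
    (hl : w.length ≤ 2) : mz w ≠ 0 := by
  match w, hw, hl with
  | [], hw, _ => exact absurd hw.2.2 (by simp; omega)
  | [a], hw, _ =>
    have h : a = n := by simpa using hw.2.2
    subst h
    rw [mz_one]
    have := MIX_zt_ge (by omega : 2 ≤ a)
    linarith
  | [a, b], hw, _ =>
    obtain ⟨h1, h2, h3⟩ := WRD_Idx hw
    have h4 := LINC_pos E3 hn h1 (by omega)
    have hb : n - a = b := by omega
    rw [hb] at h4
    rw [Br_mz]
    exact h4.ne'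

/-- the corollary for the real algebraic numbers -/
theorem WRD_half (x : ℝ) (hx : x ≠ 0) (M : ℕ) :
    (M - 1) / 2 ≤ 2 * {n : ℕ | Odd n ∧ 3 ≤ n ∧ n ≤ M ∧
      ({w : List ℕ | w.length ≤ 2 ∧ w ∈ Idx n ∧ IsAlgebraic ℚ (mz w / x)}.ncard ≤ 2 ∧
        ((∀ a b : ℕ, [a, b] ∈ Idx n → Even a → Transcendental ℚ (mz [a, b] / x)) ∨
          (∀ a b : ℕ, [a, b] ∈ Idx n → Odd a → Transcendental ℚ (mz [a, b] / x))) ∧
        (5 ≤ n → Transcendental ℚ (mz [n] / x) ∨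
          ∀ a b : ℕ, [a, b] ∈ Idx n → Transcendental ℚ (mz [a, b] / x)))}.ncard := by
  set A := (algebraicClosure ℚ ℝ).toSubfield with hA
  refine HALF M _ _ _ ?_ ?_ (WRD A Br_pi x hx M) ?_
  · rintro n ⟨h1, h2, h3, _⟩; exact ⟨h1, h2, h3⟩
  · rintro n ⟨h1, h2, h3, _⟩; exact ⟨h1, h2, h3⟩
  intro n ho h3 hM hP
  -- an algebraic value gives the span
  have span : ∀ w : List ℕ, w ∈ Idx n → w.length ≤ 2 → IsAlgebraic ℚ (mz w / x) →
      x ∈ Submodule.span A {y : ℝ | ∃ w, w ∈ Idx n ∧ w.length ≤ 2 ∧ mz w = y} := by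
    intro w hw hl halg
    obtain ⟨c, hc, h⟩ := (WRD_alg hx).1 halg
    have hne := WRD_ne ho h3 hw hl
    have hc0 : c ≠ 0 := by
      intro h0
      rw [h, h0, zero_mul] at hne
      exact hne rfl
    have e : x = (⟨c, hc⟩ : A)⁻¹ • mz w := by
      rw [Subfield.smul_def, smul_eq_mul, Subfield.coe_inv, h]
      change x = c⁻¹ * (c * x)
      field_simp
    have h5 : mz w ∈ Submodule.span A {y : ℝ | ∃ w, w ∈ Idx n ∧ w.length ≤ 2 ∧ mz w = y} :=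
      Submodule.subset_span ⟨w, hw, hl, rfl⟩
    have h6 := Submodule.smul_mem _ ((⟨c, hc⟩ : A)⁻¹) h5
    rw [← e] at h6
    exact h6
  suffices h : (∃ w : List ℕ, w ∈ Idx n ∧ w.length ≤ 2 ∧ IsAlgebraic ℚ (mz w / x)) ∧
      MixW A n by
    obtain ⟨⟨w, hw, hl, halg⟩, hm⟩ := h
    exact ⟨⟨ho, h3, hM, span w hw hl halg⟩, ⟨ho, h3, hM, hm⟩⟩
  by_contra hcon
  apply hP
  refine ⟨?_, ?_, ?_⟩
  · by_contra h2
    push Not at h2
    apply hcon
    set S : Set (List ℕ) := {w : List ℕ | w.length ≤ 2 ∧ w ∈ Idx n ∧ IsAlgebraic ℚ (mz w / x)}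
      with hS
    set B : Set (List ℕ) := {w : List ℕ | w.length = 2 ∧ w ∈ Idx n ∧ ∃ c ∈ A, mz w = c * x}
      with hB
    have hBfin : B.Finite := ASMC_BBfin A x n
    have hsub : S ⊆ insert [n] B := by
      rintro w ⟨hl, hw, halg⟩
      match w, hw, hl with
      | [], hw, _ => exact absurd hw.2.2 (by simp; omega)
      | [a], hw, _ =>
        have h : a = n := by simpa using hw.2.2
        rw [h]
        exact Set.mem_insert _ _
      | [a, b], hw, _ =>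
        exact Set.mem_insert_of_mem _ ⟨rfl, hw, (WRD_alg hx).1 halg⟩
    by_cases hn1 : [n] ∈ S
    · have h5 : S.ncard ≤ B.ncard + 1 :=
        (Set.ncard_le_ncard hsub (hBfin.insert _)).trans (Set.ncard_insert_le _ _)
      have h6 : B.Nonempty := (Set.ncard_pos hBfin).1 (by omega)
      obtain ⟨w, hw2, hw, hc⟩ := h6
      refine ⟨⟨w, hw, hw2.le, (WRD_alg hx).2 hc⟩, x, Or.inr (Or.inl ⟨?_, ?_, w, hw2, hw, hc⟩)⟩
      · by_contra h7
        have hn3 : n = 3 := by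
          obtain ⟨k, hk⟩ := ho
          omega
        have h8 : B.ncard ≤ n - 2 := by
          rw [← ASM_total n]
          refine Set.ncard_le_ncard (fun w hw => ⟨hw.1, hw.2.1⟩) ?_
          refine ((Set.finite_Iic n).image (fun a : ℕ => [a, n - a])).subset ?_
          rintro w ⟨hw, hw'⟩
          obtain ⟨a, b, rfl⟩ := List.length_eq_two.1 hw
          obtain ⟨k1, k2, k3⟩ := WRD_Idx hw'
          have hba : n - a = b := by omega
          refine ⟨a, by rw [Set.mem_Iic]; omega, ?_⟩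
          change [a, n - a] = [a, b]
          rw [hba]
        omega
      · exact (WRD_alg hx).1 hn1.2.2
    · have h5 : S ⊆ B := by
        intro w hw
        rcases hsub hw with h | h
        · rw [h] at hw
          exact absurd hw hn1
        · exact h
      have h6 : 3 ≤ B.ncard := (show 3 ≤ S.ncard by omega).trans (Set.ncard_le_ncard h5 hBfin)
      have h7 : B.Nonempty := (Set.ncard_pos hBfin).1 (by omega)
      obtain ⟨w, hw2, hw, hc⟩ := h7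
      exact ⟨⟨w, hw, hw2.le, (WRD_alg hx).2 hc⟩, x, Or.inl h6⟩
  · by_contra h2
    push Not at h2
    obtain ⟨⟨a, b, hab, ha, h5⟩, a', b', hab', ha', h6⟩ := h2
    rw [Transcendental, not_not] at h5 h6
    apply hcon
    exact ⟨⟨[a, b], hab, le_rfl, h5⟩, x, Or.inr (Or.inr ⟨a, b, a', b', hab, hab',
      ha.add_odd ha', (WRD_alg hx).1 h5, (WRD_alg hx).1 h6⟩)⟩
  · intro h5
    by_contra h2
    push Not at h2
    obtain ⟨h6, a, b, hab, h7⟩ := h2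
    rw [Transcendental, not_not] at h6 h7
    apply hcon
    exact ⟨⟨[a, b], hab, le_rfl, h7⟩, x, Or.inr (Or.inl ⟨h5, (WRD_alg hx).1 h6, [a, b], rfl, hab,
      (WRD_alg hx).1 h7⟩)⟩

end Pool.Agent.OWD
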