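import Pool.Agent.OWD.SGN
import Pool.Agent.OWD.WRD
import Pool.Agent.OWD.SPV

/-!
# OWD: signs in all depths, count and corollary
-/

set_option autoImplicit false

namespace Pool.Agent.OWD

open Finset
open Pool.Agent.Helper21 (mzv H zl Adm)
open Pool.Agent.MZA (mz Idx)
open Pool.Agent.MZG (J JL St_JL St_PERM)

/-- the line `K y` contains `ζ(a, b)` with `a` even, or all orderings of a word of odd length with entries `≥ 2`
and exactly one odd entry -/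
def PlusW (K : Subfield ℝ) (y : ℝ) (n : ℕ) : Prop :=
  (∃ a b : ℕ, [a, b] ∈ Idx n ∧ Even a ∧ ∃ c ∈ K, mz [a, b] = c * y) ∨
    ∃ w : List ℕ, w.sum = n ∧ (∀ a ∈ w, 2 ≤ a) ∧ w.countP (fun a => Odd a) = 1 ∧ Odd w.length ∧
      ∀ w' : List ℕ, w'.Perm w → ∃ c ∈ K, mz w' = c * y

/-- the same with `a` odd and even length -/
def MinusW (K : Subfield ℝ) (y : ℝ) (n : ℕ) : Prop :=
  (∃ a b : ℕ, [a, b] ∈ Idx n ∧ Odd a ∧ ∃ c ∈ K, mz [a, b] = c * y) ∨
    ∃ w : List ℕ, w.sum = n ∧ (∀ a ∈ w, 2 ≤ a) ∧ w.countP (fun a => Odd a) = 1 ∧ Even w.length ∧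
      ∀ w' : List ℕ, w'.Perm w → ∃ c ∈ K, mz w' = c * y

def MixS (K : Subfield ℝ) (n : ℕ) : Prop :=
  ∃ y : ℝ, 3 ≤ {w : List ℕ | w.length = 2 ∧ w ∈ Idx n ∧ ∃ c ∈ K, mz w = c * y}.ncard ∨
    (5 ≤ n ∧ (∃ c ∈ K, mz [n] = c * y) ∧
      ∃ w : List ℕ, w.length = 2 ∧ w ∈ Idx n ∧ ∃ c ∈ K, mz w = c * y) ∨
    (PlusW K y n ∧ MinusW K y n)

/-- an element with a coefficient -/
def El (K : Subfield ℝ) (y : ℝ) (n : ℕ) (k : ℚ) : Prop :=
  ∃ (v : ℝ) (c : K), 0 < v ∧ v = c * y ∧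
    ∃ e ∈ LIN_D K (n - 1), v / Real.pi ^ n = (k : ℝ) * LIN_Y n + e

theorem El_word {K : Subfield ℝ} {y : ℝ} {n : ℕ} {w : List ℕ} (hs : w.sum = n)
    (hw : ∀ a ∈ w, 2 ≤ a) (h1 : w.countP (fun a => Odd a) = 1)
    (h : ∀ w' : List ℕ, w'.Perm w → ∃ c ∈ K, mz w' = c * y) :
    El K y n ((-1) ^ (w.length - 1) * (w.length - 1).factorial) ∧ 1 ≤ w.length := by
  obtain ⟨x, d, hp, hdo, hd, hx⟩ := SGN_split hw h1
  have hl : w.length = x.length + 1 := by rw [hp.length_eq]; simp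
  obtain ⟨c, hc, h2⟩ := SGN_Jline hw h
  have h3 : JL w = JL (x ++ [d]) := Pool.Agent.MZG.PERM.1 _ _ hp
  have h4 := SGN_coef K hd hdo hx (n := n) (by rw [← hs, hp.sum_eq]; simp)
  rw [← h3] at h4
  refine ⟨⟨JL w, ⟨c, hc⟩, SGN_Jpos hw, h2, ?_⟩, by omega⟩
  rw [show w.length - 1 = x.length by omega]
  exact h4

theorem El_dz {K : Subfield ℝ} {y : ℝ} {n a b : ℕ} (hn : Odd n) (h : [a, b] ∈ Idx n)
    (hc : ∃ c ∈ K, mz [a, b] = c * y) :
    El K y n (-(1 + (-1) ^ b * (n.choose a : ℚ)) / 2) ∧ 3 ≤ n.choose a ∧ a + b = n := by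
  obtain ⟨h1, h2, h3⟩ := WRD_Idx h
  obtain ⟨c, hc, h4⟩ := hc
  have hb : n - a = b := by omega
  have h5 := LINC_pos E3 hn h1 (by omega)
  have h6 := SGN_dz K hn h1 (by omega : a + 1 ≤ n)
  have h7 := PB.choose_ge (by omega : 1 ≤ a) (by omega : a + 1 ≤ n)
  rw [Br_mz] at h4
  rw [hb] at h5 h6
  exact ⟨⟨dz a b, ⟨c, hc⟩, h5, h4, h6⟩, by omega, h3⟩

theorem Plus_el {K : Subfield ℝ} {y : ℝ} {n : ℕ} (hn : Odd n) (h : PlusW K y n) :
    ∃ k : ℚ, 0 < k ∧ El K y n k := by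
  rcases h with ⟨a, b, hab, ha, hc⟩ | ⟨w, hs, hw, h1, hl, h2⟩
  · obtain ⟨h3, h4, h5⟩ := El_dz hn hab hc
    have hb : Odd b := by
      rw [← h5] at hn
      exact (Nat.odd_add.1 hn).not.1 (by simpa using ha) |> Nat.not_even_iff_odd.1
    refine ⟨_, ?_, h3⟩
    rw [hb.neg_one_pow]
    have h6 : (3 : ℚ) ≤ (n.choose a : ℚ) := by exact_mod_cast h4
    linarith
  · obtain ⟨h3, h4⟩ := El_word hs hw h1 h2
    refine ⟨_, ?_, h3⟩
    have he : Even (w.length - 1) := by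
      obtain ⟨m, hm⟩ := hl
      exact ⟨m, by omega⟩
    rw [he.neg_one_pow, one_mul]
    exact_mod_cast Nat.factorial_pos _

theorem Minus_el {K : Subfield ℝ} {y : ℝ} {n : ℕ} (hn : Odd n) (h : MinusW K y n) :
    ∃ k : ℚ, k < 0 ∧ El K y n k := by
  rcases h with ⟨a, b, hab, ha, hc⟩ | ⟨w, hs, hw, h1, hl, h2⟩
  · obtain ⟨h3, h4, h5⟩ := El_dz hn hab hc
    have hb : Even b := by
      obtain ⟨i, hi⟩ := ha
      obtain ⟨j, hj⟩ := hn
      exact ⟨j - i, by omega⟩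
    refine ⟨_, ?_, h3⟩
    rw [hb.neg_one_pow]
    have h6 : (3 : ℚ) ≤ (n.choose a : ℚ) := by exact_mod_cast h4
    linarith
  · obtain ⟨h3, h4⟩ := El_word hs hw h1 h2
    refine ⟨_, ?_, h3⟩
    have he : Odd (w.length - 1) := by
      obtain ⟨m, hm⟩ := hl
      exact ⟨m - 1, by omega⟩
    rw [he.neg_one_pow]
    have : (0 : ℚ) < ((w.length - 1).factorial : ℚ) := by exact_mod_cast Nat.factorial_pos _
    linarith

theorem El_ne {K : Subfield ℝ} {y : ℝ} {n : ℕ} (hY : LIN_Y n ∉ LIN_D K (n - 1)) {k k' : ℚ}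
    (h : El K y n k) (h' : El K y n k') (hk : 0 < k) (hk' : k' < 0) : False := by
  obtain ⟨v, c, h1, h2, h3⟩ := h
  obtain ⟨v', c', h1', h2', h3'⟩ := h'
  exact SGN_ne hY c c' h2 h2' h1 h1' h3 h3' hk hk'

theorem El_in {K : Subfield ℝ} {x : ℝ} {n : ℕ} (hn : Odd n) (hn3 : 3 ≤ n) {k : ℚ}
    (h : El K x n k) : x / Real.pi ^ n ∈ LIN_D K n := by
  obtain ⟨v, c, h1, h2, e, he, h3⟩ := h
  have hc0 : (c : ℝ) ≠ 0 := by
    intro h0
    rw [h0, zero_mul] at h2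
    rw [h2] at h1
    exact lt_irrefl _ h1
  have h4 : v / Real.pi ^ n ∈ LIN_D K n := by
    rw [h3]
    have h5 : ((k : K) : ℝ) = (k : ℝ) := by norm_cast
    have h6 := (LIN_D K n).smul_mem (k : K) (LIN_mem K hn hn3 le_rfl)
    rw [Subfield.smul_def, h5, smul_eq_mul] at h6
    exact Submodule.add_mem _ h6 (LIN_mono K (by omega) he)
  have h7 := (LIN_D K n).smul_mem c⁻¹ h4
  rw [Subfield.smul_def, smul_eq_mul, Subfield.coe_inv, h2] at h7
  have e : (c : ℝ)⁻¹ * ((c : ℝ) * x / Real.pi ^ n) = x / Real.pi ^ n := by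
    field_simp
  rw [e] at h7
  exact h7

theorem SG2_mix {K : Subfield ℝ} {n : ℕ} (hn : Odd n) (hY : LIN_Y n ∉ LIN_D K (n - 1)) :
    ¬ MixS K n := by
  rintro ⟨y, h | h | ⟨h1, h2⟩⟩
  · exact MIX_not CVX1 K hn hY (WRD_mix ⟨y, Or.inl h⟩)
  · exact MIX_not CVX1 K hn hY (WRD_mix ⟨y, Or.inr (Or.inl h)⟩)
  · obtain ⟨k, hk, h3⟩ := Plus_el hn h1
    obtain ⟨k', hk', h4⟩ := Minus_el hn h2
    exact El_ne hY h3 h4 hk hk'

theorem SG2_cnt (K : Subfield ℝ) (M : ℕ) : Module.finrank K (LIN_D K M) +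
    {n : ℕ | Odd n ∧ 3 ≤ n ∧ n ≤ M ∧ MixS K n}.ncard ≤ (M - 1) / 2 := by
  have h2 := LIN_dim K M
  have h3 : (LIN_G K M).ncard + {n : ℕ | Odd n ∧ 3 ≤ n ∧ n ≤ M ∧ MixS K n}.ncard ≤
      (M - 1) / 2 := by
    have hfT : {n : ℕ | Odd n ∧ 3 ≤ n ∧ n ≤ M ∧ MixS K n}.Finite :=
      (Set.finite_Iic M).subset (fun n hn => hn.2.2.1)
    rw [← Set.ncard_union_eq ?_ (LIN_Gfin K M) hfT]
    · refine (Set.ncard_le_ncard ?_ ?_).trans (LIN_odd M)
      · rintro n (⟨a, b, c, -⟩ | ⟨a, b, c, -⟩)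
        · exact ⟨a, b, c⟩
        · exact ⟨a, b, c⟩
      · exact (Set.finite_Iic M).subset (fun n hn => hn.2.2)
    · rw [Set.disjoint_left]
      rintro n ⟨a, -, -, hY⟩ ⟨-, -, -, h⟩
      exact SG2_mix a hY h
  omega

/-- the corollary for the real algebraic numbers -/
theorem SG2_half (x : ℝ) (hx : x ≠ 0) (M : ℕ) :
    (M - 1) / 2 ≤ 2 * {n : ℕ | Odd n ∧ 3 ≤ n ∧ n ≤ M ∧
      ({w : List ℕ | w.length ≤ 2 ∧ w ∈ Idx n ∧ IsAlgebraic ℚ (mz w / x)}.ncard ≤ 2 ∧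
        (((∀ a b : ℕ, [a, b] ∈ Idx n → Even a → Transcendental ℚ (mz [a, b] / x)) ∧
            ∀ w : List ℕ, w.sum = n → (∀ a ∈ w, 2 ≤ a) → w.countP (fun a => Odd a) = 1 →
              Odd w.length → ∃ w' : List ℕ, w'.Perm w ∧ Transcendental ℚ (mz w' / x)) ∨
          ((∀ a b : ℕ, [a, b] ∈ Idx n → Odd a → Transcendental ℚ (mz [a, b] / x)) ∧
            ∀ w : List ℕ, w.sum = n → (∀ a ∈ w, 2 ≤ a) → w.countP (fun a => Odd a) = 1 →
              Even w.length → ∃ w' : List ℕ, w'.Perm w ∧ Transcendental ℚ (mz w' / x))) ∧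
        (5 ≤ n → Transcendental ℚ (mz [n] / x) ∨
          ∀ a b : ℕ, [a, b] ∈ Idx n → Transcendental ℚ (mz [a, b] / x)))}.ncard := by
  set A := (algebraicClosure ℚ ℝ).toSubfield with hA
  have hcard : {n : ℕ | Odd n ∧ 3 ≤ n ∧ n ≤ M ∧ x / Real.pi ^ n ∈ LIN_D A n}.ncard +
      {n : ℕ | Odd n ∧ 3 ≤ n ∧ n ≤ M ∧ MixS A n}.ncard ≤ (M - 1) / 2 := by
    have h1 := LIN_card A Br_pi x hx M
      {n : ℕ | Odd n ∧ 3 ≤ n ∧ n ≤ M ∧ x / Real.pi ^ n ∈ LIN_D A n}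
      (fun n hn => ⟨hn.2.2.1, LIN_mono A hn.2.2.1 hn.2.2.2⟩)
    have h2 := SG2_cnt A M
    omega
  refine HALF M _ _ _ ?_ ?_ hcard ?_
  · rintro n ⟨h1, h2, h3, _⟩; exact ⟨h1, h2, h3⟩
  · rintro n ⟨h1, h2, h3, _⟩; exact ⟨h1, h2, h3⟩
  intro n ho h3 hM hP
  have small : ∀ w : List ℕ, w ∈ Idx n → w.length ≤ 2 → IsAlgebraic ℚ (mz w / x) →
      x / Real.pi ^ n ∈ LIN_D A n := by
    intro w hw hl halg
    obtain ⟨c, hc, h⟩ := (WRD_alg hx).1 halg
    have hne := WRD_ne ho h3 hw hl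
    have hc0 : c ≠ 0 := by
      intro h0
      rw [h, h0, zero_mul] at hne
      exact hne rfl
    have h4 := SPN_gen E3 A ho h3 hw hl
    have h7 := (LIN_D A n).smul_mem (⟨c, hc⟩ : A)⁻¹ h4
    rw [Subfield.smul_def, smul_eq_mul, Subfield.coe_inv, h] at h7
    have e : (c : ℝ)⁻¹ * (c * x / Real.pi ^ n) = x / Real.pi ^ n := by
      field_simp
    change (c : ℝ)⁻¹ * (c * x / Real.pi ^ n) ∈ LIN_D A n at h7
    rw [e] at h7
    exact h7
  suffices h : x / Real.pi ^ n ∈ LIN_D A n ∧ MixS A n from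
    ⟨⟨ho, h3, hM, h.1⟩, ⟨ho, h3, hM, h.2⟩⟩
  by_contra hcon
  apply hP
  refine ⟨?_, ?_, ?_⟩
  · by_contra h2
    push Not at h2
    apply hcon
    set S : Set (List ℕ) := {w : List ℕ | w.length ≤ 2 ∧ w ∈ Idx n ∧ IsAlgebraic ℚ (mz w / x)}
      with hS
    set B : Set (List ℕ) := {w : List ℕ | w.length = 2 ∧ w ∈ Idx n ∧ ∃ c ∈ A, mz w = c * x}
      with hB
    have hBfin : B.Finite := ASMC_BBfin A x n
    have hsub : S ⊆ insert [n] B := by
      rintro w ⟨hl, hw, halg⟩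
      match w, hw, hl with
      | [], hw, _ => exact absurd hw.2.2 (by simp; omega)
      | [a], hw, _ =>
        have h : a = n := by simpa using hw.2.2
        rw [h]
        exact Set.mem_insert _ _
      | [a, b], hw, _ =>
        exact Set.mem_insert_of_mem _ ⟨rfl, hw, (WRD_alg hx).1 halg⟩
    by_cases hn1 : [n] ∈ S
    · have h5 : S.ncard ≤ B.ncard + 1 :=
        (Set.ncard_le_ncard hsub (hBfin.insert _)).trans (Set.ncard_insert_le _ _)
      have h6 : B.Nonempty := (Set.ncard_pos hBfin).1 (by omega)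
      obtain ⟨w, hw2, hw, hc⟩ := h6
      refine ⟨small w hw hw2.le ((WRD_alg hx).2 hc), x,
        Or.inr (Or.inl ⟨?_, ?_, w, hw2, hw, hc⟩)⟩
      · by_contra h7
        have hn3 : n = 3 := by
          obtain ⟨k, hk⟩ := ho
          omega
        have h8 : B.ncard ≤ n - 2 := by
          rw [← ASM_total n]
          refine Set.ncard_le_ncard (fun w hw => ⟨hw.1, hw.2.1⟩) ?_
          refine ((Set.finite_Iic n).image (fun a : ℕ => [a, n - a])).subset ?_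
          rintro w ⟨hw, hw'⟩
          obtain ⟨a, b, rfl⟩ := List.length_eq_two.1 hw
          obtain ⟨k1, k2, k3⟩ := WRD_Idx hw'
          have hba : n - a = b := by omega
          refine ⟨a, by rw [Set.mem_Iic]; omega, ?_⟩
          change [a, n - a] = [a, b]
          rw [hba]
        omega
      · exact (WRD_alg hx).1 hn1.2.2
    · have h5 : S ⊆ B := by
        intro w hw
        rcases hsub hw with h | h
        · rw [h] at hw
          exact absurd hw hn1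
        · exact h
      have h6 : 3 ≤ B.ncard := (show 3 ≤ S.ncard by omega).trans (Set.ncard_le_ncard h5 hBfin)
      have h7 : B.Nonempty := (Set.ncard_pos hBfin).1 (by omega)
      obtain ⟨w, hw2, hw, hc⟩ := h7
      exact ⟨small w hw hw2.le ((WRD_alg hx).2 hc), x, Or.inl h6⟩
  · by_contra h2
    rw [not_or] at h2
    obtain ⟨hp, hm⟩ := h2
    have hP' : PlusW A x n := by
      by_contra hno
      apply hp
      refine ⟨fun a b hab ha halg => ?_, fun w hs hw h1 hl => ?_⟩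
      · exact hno (Or.inl ⟨a, b, hab, ha, (WRD_alg hx).1 halg⟩)
      · by_contra hex
        push Not at hex
        refine hno (Or.inr ⟨w, hs, hw, h1, hl, fun w' hw' => ?_⟩)
        have := hex w' hw'
        rw [Transcendental, not_not] at this
        exact (WRD_alg hx).1 this
    have hM' : MinusW A x n := by
      by_contra hno
      apply hm
      refine ⟨fun a b hab ha halg => ?_, fun w hs hw h1 hl => ?_⟩
      · exact hno (Or.inl ⟨a, b, hab, ha, (WRD_alg hx).1 halg⟩)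
      · by_contra hex
        push Not at hex
        refine hno (Or.inr ⟨w, hs, hw, h1, hl, fun w' hw' => ?_⟩)
        have := hex w' hw'
        rw [Transcendental, not_not] at this
        exact (WRD_alg hx).1 this
    obtain ⟨k, _, h4⟩ := Plus_el ho hP'
    exact hcon ⟨El_in ho h3 h4, x, Or.inr (Or.inr ⟨hP', hM'⟩)⟩
  · intro h5
    by_contra h2
    push Not at h2
    obtain ⟨h6, a, b, hab, h7⟩ := h2
    rw [Transcendental, not_not] at h6 h7
    apply hcon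
    exact ⟨small [a, b] hab le_rfl h7, x, Or.inr (Or.inl ⟨h5, (WRD_alg hx).1 h6, [a, b], rfl, hab,
      (WRD_alg hx).1 h7⟩)⟩

end Pool.Agent.OWD
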