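import Pool.Agent.OWD.LINC
import Pool.Agent.OWD.E3
import Pool.Agent.OWD.SPN
import Pool.Agent.OWD.PairsB
import Pool.Agent.MZG.ZN
import Pool.Agent.MZG.J0
import Pool.Agent.MZG.J1
import Pool.Agent.MZG.J2
import Pool.Agent.MZG.JL
import Pool.Agent.MZG.PERM

/-!
# OWD: signs in all depths
-/

set_option autoImplicit false

namespace Pool.Agent.OWD

open Finset
open Pool.Agent.Helper21 (mzv H zl Adm)
open Pool.Agent.MZA (mz Idx)
open Pool.Agent.MZG (J JL St_JL St_PERM)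

theorem SGN_JL : St_JL := Pool.Agent.MZG.thm_JL Pool.Agent.MZG.J2

theorem SGN_zl {w : List ℕ} (hw : ∀ a ∈ w, 2 ≤ a) : zl w = mz w := by
  have hadm : Adm w := ⟨fun a ha => by have := hw a ha; omega, fun a t h => hw a (by rw [h]; simp)⟩
  exact (Pool.Agent.MZA.main_mzv w hadm).symm

theorem SGN_z {a : ℕ} (ha : 2 ≤ a) : Pool.Agent.MZG.z a = zt a := by
  unfold Pool.Agent.MZG.z
  rw [SGN_zl (by intro b hb; have : b = a := by simpa using hb
                 omega), mz_one]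

/-- the values divisible as above, as a rational space -/
def SGN_V (K : Subfield ℝ) (n : ℕ) : Submodule ℚ ℝ where
  carrier := {v | v / Real.pi ^ n ∈ LIN_D K (n - 1)}
  add_mem' := by
    intro a b ha hb
    change (a + b) / Real.pi ^ n ∈ LIN_D K (n - 1)
    rw [add_div]
    exact Submodule.add_mem _ ha hb
  zero_mem' := by
    change (0 : ℝ) / Real.pi ^ n ∈ LIN_D K (n - 1)
    rw [zero_div]
    exact Submodule.zero_mem _
  smul_mem' := by
    intro q v hv
    change (q • v) / Real.pi ^ n ∈ LIN_D K (n - 1)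
    have h2 := (LIN_D K (n - 1)).smul_mem (q : K) hv
    have h3 : ((q : K) : ℝ) = (q : ℝ) := by norm_cast
    rw [Subfield.smul_def, h3, smul_eq_mul] at h2
    rw [Rat.smul_def, mul_div_assoc]
    exact h2

theorem SGN_even_sum {x : List ℕ} (h : ∀ y ∈ x, 2 ≤ y ∧ Even y) : Even x.sum := by
  induction x with
  | nil => simp
  | cons a x ih =>
    rw [List.sum_cons]
    exact (h a (by simp)).2.add (ih (fun y hy => h y (by simp [hy])))

/-- the coefficient of a symmetric sum with exactly one odd entry -/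
theorem SGN_coef (K : Subfield ℝ) {n d : ℕ} {x : List ℕ} (hd : 2 ≤ d) (hdo : Odd d)
    (hx : ∀ y ∈ x, 2 ≤ y ∧ Even y) (hs : x.sum + d = n) : ∃ e ∈ LIN_D K (n - 1),
    JL (x ++ [d]) / Real.pi ^ n =
      (((-1) ^ x.length * x.length.factorial : ℚ) : ℝ) * LIN_Y n + e := by
  have hpi : (Real.pi : ℝ) ≠ 0 := Real.pi_ne_zero
  have h1 := Pool.Agent.MZG.ZNp.main SGN_JL (SGN_V K n) x.length x d 0 rfl hd hx (by
    intro l c hl hc hc0
    change (Pool.Agent.MZG.z (d + l.sum) * Real.pi ^ (0 + c)) / Real.pi ^ n ∈ LIN_D K (n - 1)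
    have hle : ∀ y ∈ l, 2 ≤ y ∧ Even y := fun y hy => hx y (hl.subset hy)
    have he := SGN_even_sum hle
    have he2 := SGN_even_sum hx
    rw [SGN_z (by omega)]
    have e1 : zt (d + l.sum) * Real.pi ^ (0 + c) / Real.pi ^ n = LIN_Y (d + l.sum) := by
      unfold LIN_Y
      have e2 : n = (d + l.sum) + c := by omega
      rw [div_eq_div_iff (pow_ne_zero _ hpi) (pow_ne_zero _ hpi), zero_add]
      rw [e2, pow_add]
      ring
    rw [e1]
    have hd3 : 3 ≤ d := by
      obtain ⟨k, hk⟩ := hdo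
      omega
    exact LIN_mem K (hdo.add_even he) (by omega) (by omega))
  rw [pow_zero, one_mul, one_mul, show d + x.sum = n by omega, SGN_z (by omega)] at h1
  change (JL (x ++ [d]) - (((-1) ^ x.length * x.length.factorial : ℚ) : ℝ) * zt n) /
    Real.pi ^ n ∈ LIN_D K (n - 1) at h1
  refine ⟨_, h1, ?_⟩
  unfold LIN_Y
  ring

/-- two values of opposite sign are never in one line -/
theorem SGN_ne {K : Subfield ℝ} {n : ℕ} (hY : LIN_Y n ∉ LIN_D K (n - 1)) {v v' y : ℝ} {k k' : ℚ}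
    (c c' : K) (hv : v = c * y) (hv' : v' = c' * y) (hp : 0 < v) (hp' : 0 < v')
    (h : ∃ e ∈ LIN_D K (n - 1), v / Real.pi ^ n = (k : ℝ) * LIN_Y n + e)
    (h' : ∃ e ∈ LIN_D K (n - 1), v' / Real.pi ^ n = (k' : ℝ) * LIN_Y n + e)
    (hk : 0 < k) (hk' : k' < 0) : False := by
  obtain ⟨e, he, h1⟩ := h
  obtain ⟨e', he', h1'⟩ := h'
  have hpi : (Real.pi : ℝ) ≠ 0 := Real.pi_ne_zero
  have hq : ∀ q : ℚ, ((q : K) : ℝ) = (q : ℝ) := fun q => by norm_cast
  set u : K := c' * (k : K) - c * (k' : K) with hu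
  have hu1 : (u : ℝ) = (c' : ℝ) * k - c * k' := by
    rw [hu]
    push_cast
    rfl
  have hd : (c : ℝ) * e' - c' * e ∈ LIN_D K (n - 1) := by
    have h2 := (LIN_D K (n - 1)).smul_mem c he'
    have h3 := (LIN_D K (n - 1)).smul_mem c' he
    rw [Subfield.smul_def, smul_eq_mul] at h2 h3
    exact Submodule.sub_mem _ h2 h3
  have h4 : (u : ℝ) * LIN_Y n = (c : ℝ) * e' - c' * e := by
    rw [hu1]
    have h5 : (c' : ℝ) * (v / Real.pi ^ n) = c * (v' / Real.pi ^ n) := by
      rw [hv, hv']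
      ring
    rw [h1, h1'] at h5
    linear_combination h5
  have h6 := PB.coef hY u hd h4
  have h7 : (c' : ℝ) * k - c * k' = 0 := by
    rw [← hu1, h6]
    rfl
  have h8 : v' * k = v * k' := by
    rw [hv, hv']
    linear_combination y * h7
  have hkr : (0 : ℝ) < k := by exact_mod_cast hk
  have hkr' : (k' : ℝ) < 0 := by exact_mod_cast hk'
  nlinarith [mul_pos hp' hkr, mul_pos hp (neg_pos.2 hkr')]

/-- the coefficient of a double zeta value -/
theorem SGN_dz (K : Subfield ℝ) {n a : ℕ} (hn : Odd n) (ha : 2 ≤ a) (ha2 : a + 1 ≤ n) :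
    ∃ e ∈ LIN_D K (n - 1), dz a (n - a) / Real.pi ^ n =
      ((-(1 + (-1) ^ (n - a) * (n.choose a : ℚ)) / 2 : ℚ) : ℝ) * LIN_Y n + e := by
  obtain ⟨d, hd, h5⟩ := LINC_eul E3 K hn ha ha2
  have h3 : (((1 / 2 : ℚ) : K) : ℝ) = ((1 / 2 : ℚ) : ℝ) := by norm_cast
  have h2 := (LIN_D K (n - 1)).smul_mem (((1 / 2 : ℚ) : K)) hd
  rw [Subfield.smul_def, h3, smul_eq_mul] at h2
  refine ⟨_, h2, ?_⟩
  push_cast
  linear_combination (1 / 2 : ℝ) * h5

theorem SGN_Jpos {w : List ℕ} (hw : ∀ a ∈ w, 2 ≤ a) : 0 < JL w := by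
  unfold JL J
  have hs := Pool.Agent.MZG.J0 w.length w.get (fun i => hw _ (List.get_mem w i))
  refine hs.tsum_pos (fun n => ?_) (Fin.valEmbedding) ?_
  · apply Finset.prod_nonneg
    intro i _
    positivity
  · apply Finset.prod_pos
    intro i _
    positivity

/-- all orderings in the line `K y` -/
theorem SGN_Jline {K : Subfield ℝ} {y : ℝ} {w : List ℕ} (hw : ∀ a ∈ w, 2 ≤ a)
    (h : ∀ w' : List ℕ, w'.Perm w → ∃ c ∈ K, mz w' = c * y) : ∃ c ∈ K, JL w = c * y := by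
  have h1 := Pool.Agent.MZG.J1 w.length w.get (fun i => hw _ (List.get_mem w i))
  have h2 : ∀ σ : Equiv.Perm (Fin w.length), ∃ c ∈ K, zl (List.ofFn (w.get ∘ σ)) = c * y := by
    intro σ
    have hp : (List.ofFn (w.get ∘ σ)).Perm w := by
      have := Equiv.Perm.ofFn_comp_perm σ w.get
      rw [List.ofFn_get] at this
      exact this
    rw [SGN_zl (fun a ha => hw a (hp.mem_iff.1 ha))]
    exact h _ hp
  choose c hc h3 using h2
  refine ⟨∑ σ, c σ, K.sum_mem (fun σ _ => hc σ), ?_⟩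
  unfold JL
  rw [h1, Finset.sum_mul]
  exact Finset.sum_congr rfl (fun σ _ => h3 σ)

/-- a word with exactly one odd entry -/
theorem SGN_split {w : List ℕ} (hw : ∀ a ∈ w, 2 ≤ a) (h1 : w.countP (fun a => Odd a) = 1) :
    ∃ (x : List ℕ) (d : ℕ), w.Perm (x ++ [d]) ∧ Odd d ∧ 2 ≤ d ∧ (∀ y ∈ x, 2 ≤ y ∧ Even y) := by
  rw [List.countP_eq_length_filter] at h1
  obtain ⟨d, hd⟩ := List.length_eq_one_iff.1 h1
  have hp := List.filter_append_perm (fun a => decide (Odd a)) w
  rw [hd] at hp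
  have hdm : d ∈ w.filter (fun a => decide (Odd a)) := by rw [hd]; simp
  rw [List.mem_filter] at hdm
  refine ⟨w.filter (fun a => !decide (Odd a)), d, ?_, by simpa using hdm.2, hw d hdm.1, ?_⟩
  · exact hp.symm.trans List.perm_append_comm
  · intro y hy
    rw [List.mem_filter] at hy
    exact ⟨hw y hy.1, by simpa using hy.2⟩

end Pool.Agent.OWD
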