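import Pool.Agent.OWD.SPV

/-!
# OWD: the first number for any generators with `y / π ^ n` in `LIN_D K n`
-/

set_option autoImplicit false

namespace Pool.Agent.OWD

open Finset

theorem SPG_span (K : Subfield ℝ) {n : ℕ} (P : Set ℝ) (hP : ∀ y ∈ P, y / Real.pi ^ n ∈ LIN_D K n)
    {x : ℝ} (hx : x ∈ Submodule.span K P) : x / Real.pi ^ n ∈ LIN_D K n := by
  induction hx using Submodule.span_induction with
  | mem y hy => exact hP y hy
  | zero =>
    rw [zero_div]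
    exact Submodule.zero_mem _
  | add y z _ _ h1 h2 =>
    rw [add_div]
    exact Submodule.add_mem _ h1 h2
  | smul c y _ h1 =>
    have e : (c • y) / Real.pi ^ n = c • (y / Real.pi ^ n) := by
      rw [Subfield.smul_def, Subfield.smul_def, smul_eq_mul, smul_eq_mul, mul_div_assoc]
    rw [e]
    exact Submodule.smul_mem _ _ h1

/-- the first number, any generators -/
theorem SPG (K : Subfield ℝ) (hK : Transcendental K Real.pi) (P : ℕ → Set ℝ)
    (hP : ∀ n, Odd n → 3 ≤ n → ∀ y ∈ P n, y / Real.pi ^ n ∈ LIN_D K n)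
    (V : Submodule K ℝ) [Module.Finite K V] (M : ℕ) :
    {n : ℕ | Odd n ∧ 3 ≤ n ∧ n ≤ M ∧ ∃ v ∈ V, v ≠ 0 ∧ v ∈ Submodule.span K (P n)}.ncard ≤
      Module.finrank K (LIN_D K M) * Module.finrank K V := by
  classical
  have := LIN_fin K M
  have hfin : {n : ℕ | Odd n ∧ 3 ≤ n ∧ n ≤ M ∧ ∃ v ∈ V, v ≠ 0 ∧
      v ∈ Submodule.span K (P n)}.Finite :=
    (Set.finite_Iic M).subset (fun n hn => hn.2.2.1)
  rw [Set.ncard_eq_toFinset_card _ hfin]
  apply Pool.Agent.MZF.thm_Flg K ℝ Real.pi hK (LIN_D K M) V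
  intro n hn
  obtain ⟨h1, h2, h3, v, hv, hv0, hs⟩ := hfin.mem_toFinset.1 hn
  have hpi : (Real.pi : ℝ) ^ n ≠ 0 := pow_ne_zero _ Real.pi_ne_zero
  refine ⟨v / Real.pi ^ n, LIN_mono K h3 (SPG_span K (P n) (hP n h1 h2) hs),
    div_ne_zero hv0 hpi, ?_⟩
  rw [mul_div_cancel₀ _ hpi]
  exact hv

end Pool.Agent.OWD
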